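import Pool.Agent.P.MP_e76938_co.Piece

set_option autoImplicit false

namespace Pool.Agent.P.MP_e76938_co

open Finset SimpleGraph Classical

variable {α : Type} {G : SimpleGraph α} {V R Q : Finset α} {o : α → ℕ} {i : ℕ}

theorem nb_insert {X : Finset α} {s : α} (hs : s ∉ X) (u : α) :
    nb G (insert s X) u = (if G.Adj u s then 1 else 0) + nb G X u := by
  simp only [nb_eq_sum]
  rw [sum_insert hs]

theorem nb_pos_iff {X : Finset α} {u : α} : 0 < nb G X u ↔ ∃ w ∈ X, G.Adj u w := by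
  unfold nb
  rw [card_pos]
  constructor
  · rintro ⟨w, hw⟩
    exact ⟨w, (mem_filter.1 hw).1, (mem_filter.1 hw).2⟩
  · rintro ⟨w, h1, h2⟩
    exact ⟨w, mem_filter.2 ⟨h1, h2⟩⟩

theorem dd_insert {X : Finset α} {s : α} (hs : s ∉ X) :
    dd G (insert s X) = dd G X + 2 * nb G X s := by
  rw [insert_eq, union_comm, dd_union (by simpa using hs), sum_singleton]
  simp [dd, nb_singleton]

theorem Ctx.batch (c : Ctx G V R Q o i) : ∀ (n : ℕ) (A H Wd : Finset α), A.card = n →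
    (∀ a ∈ A, a ∈ R ∧ o a = 0) → H ⊆ V → (∀ h ∈ H, h ∉ A) → Wd ⊆ A →
    (∀ w ∈ Wd, ∀ b ∈ A, ¬ G.Adj w b) →
    ∃ A' ⊆ A, (A.Nonempty → A'.Nonempty) ∧
      2 * A.card + 2 * (Q ∩ A').card + dd G A' + 2 * ∑ u ∈ (H ∪ A) \ A', (nb G A' u - 1) +
        2 * (Wd ∩ A').card ≤ (2 * i + 1) * A'.card + Wd.card := by
  intro n
  induction n using Nat.strong_induction_on with
  | _ n ih =>
  intro A H Wd hn hA hH hHA hWA hW
  rcases A.eq_empty_or_nonempty with rfl | hne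
  · refine ⟨∅, subset_rfl, id, ?_⟩
    simp [dd, nb]
  obtain ⟨s, hs, Z, hZ, hsZ, h1, h2⟩ := c.piece hA hne hH hHA
  have hcard : (A \ Z).card + Z.card = A.card := card_sdiff_add_card_eq_card hZ
  have hZpos := card_pos.2 ⟨s, hsZ⟩
  set P := (A \ Z).filter (fun a => G.Adj s a) with hP
  have hiso : ∀ a ∈ A, G.Adj s a → ¬ Str G R o s a → ∀ b ∈ A, b ≠ s → b ≠ a →
      ¬ G.Adj b s ∧ ¬ G.Adj b a := by
    intro a ha hsa hn b hb h3 h4
    by_contra hcon
    exact hn ⟨hsa, (hA s hs).1, (hA a ha).1, (hA s hs).2, b, (hA b hb).1, h3, h4, by tauto⟩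
  have hPn : ∀ a ∈ P, ¬ Str G R o s a := fun a ha h =>
    (mem_sdiff.1 (mem_filter.1 ha).1).2 (h1 a (mem_sdiff.1 (mem_filter.1 ha).1).1 h)
  have hP1 : P.card ≤ 1 := by
    refine card_le_one.2 fun a ha b hb => ?_
    by_contra hab
    exact (hiso a (mem_sdiff.1 (mem_filter.1 ha).1).1 (mem_filter.1 ha).2 (hPn a ha) b
      (mem_sdiff.1 (mem_filter.1 hb).1).1 (mem_filter.1 hb).2.ne.symm (Ne.symm hab)).1
      (mem_filter.1 hb).2.symm
  have hP2 : P.card + (if s ∈ Wd then 1 else 0) ≤ 1 := by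
    split_ifs with h
    · have : P = ∅ := by
        rw [eq_empty_iff_forall_notMem]
        exact fun a ha => hW s h a (mem_sdiff.1 (mem_filter.1 ha).1).1 (mem_filter.1 ha).2
      simp [this]
    · omega
  obtain ⟨A2, hA2, -, hb⟩ := ih (A \ Z).card (by omega) (A \ Z) (H ∪ Z.erase s) ((Wd \ Z) ∪ P) rfl
    (fun a ha => hA a (mem_sdiff.1 ha).1)
    (union_subset hH (fun x hx => c.hR (hA x (hZ (mem_of_mem_erase hx))).1))
    (by
      intro h hh h3
      rcases mem_union.1 hh with h4 | h4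
      · exact hHA h h4 (mem_sdiff.1 h3).1
      · exact (mem_sdiff.1 h3).2 (mem_of_mem_erase h4))
    (union_subset (sdiff_subset_sdiff hWA subset_rfl) (filter_subset _ _))
    (by
      intro w hw b hb hwb
      rcases mem_union.1 hw with h4 | h4
      · exact hW w (mem_sdiff.1 h4).1 b (mem_sdiff.1 hb).1 hwb
      · exact (hiso w (mem_sdiff.1 (mem_filter.1 h4).1).1 (mem_filter.1 h4).2 (hPn w h4) b
          (mem_sdiff.1 hb).1 (fun h => (mem_sdiff.1 hb).2 (h ▸ hsZ)) hwb.ne.symm).2 hwb.symm)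
  have hsA2 : s ∉ A2 := fun h => (mem_sdiff.1 (hA2 h)).2 hsZ
  refine ⟨insert s A2, insert_subset hs (hA2.trans sdiff_subset), fun _ => insert_nonempty _ _, ?_⟩
  have eT : (H ∪ Z.erase s ∪ A \ Z) \ A2 = (H ∪ A) \ insert s A2 := by
    ext x
    simp only [mem_sdiff, mem_union, mem_erase, mem_insert, not_or]
    constructor
    · rintro ⟨(h | h) | h, h'⟩
      · exact ⟨Or.inl h, fun e => hHA x h (e ▸ hs), h'⟩
      · exact ⟨Or.inr (hZ h.2), h.1, h'⟩
      · exact ⟨Or.inr h.1, fun e => h.2 (e ▸ hsZ), h'⟩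
    · rintro ⟨h | h, h', h''⟩
      · exact ⟨Or.inl (Or.inl h), h''⟩
      · by_cases hx : x ∈ Z
        · exact ⟨Or.inl (Or.inr ⟨h', hx⟩), h''⟩
        · exact ⟨Or.inr ⟨h, hx⟩, h''⟩
  rw [eT] at hb
  set T := (H ∪ A) \ insert s A2 with hT
  have e1 : ∑ u ∈ T, (nb G (insert s A2) u - 1) ≤ ∑ u ∈ T, (nb G A2 u - 1) +
      (T.filter (fun u => G.Adj u s ∧ 0 < nb G A2 u)).card := by
    rw [card_filter, ← sum_add_distrib]
    refine sum_le_sum fun u _ => ?_
    rw [nb_insert hsA2]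
    by_cases h3 : G.Adj u s <;> by_cases h4 : 0 < nb G A2 u <;> simp [h3, h4] <;> omega
  have e2 : (T.filter (fun u => G.Adj u s ∧ 0 < nb G A2 u)).card ≤
      (H.filter (fun h => G.Adj s h ∧ ∃ a ∈ A, a ∉ Z ∧ G.Adj a h)).card +
      (A.filter (fun a => Str G R o s a ∧ ∃ b ∈ A, b ∉ Z ∧ Str G R o a b)).card := by
    refine le_trans (card_le_card ?_) (card_union_le _ _)
    intro u hu
    obtain ⟨h3, h4, h5⟩ := mem_filter.1 hu
    obtain ⟨b, hb2, hub⟩ := nb_pos_iff.1 h5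
    have hbA := mem_sdiff.1 (hA2 hb2)
    have hbs : b ≠ s := fun h => hsA2 (h ▸ hb2)
    rcases mem_union.1 (mem_sdiff.1 h3).1 with h6 | h6
    · exact mem_union_left _ (mem_filter.2 ⟨h6, h4.symm, b, hbA.1, hbA.2, hub.symm⟩)
    · refine mem_union_right _ (mem_filter.2 ⟨h6, ?_, b, hbA.1, hbA.2, ?_⟩)
      · exact ⟨h4.symm, (hA s hs).1, (hA u h6).1, (hA s hs).2, b, (hA b hbA.1).1, hbs,
          hub.ne.symm, Or.inr hub.symm⟩
      · exact ⟨hub, (hA u h6).1, (hA b hbA.1).1, (hA u h6).2, s, (hA s hs).1, h4.ne.symm,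
          hbs.symm, Or.inl h4.symm⟩
  have e3 : nb G A2 s ≤ (P ∩ A2).card := by
    unfold nb
    refine card_le_card fun x hx => ?_
    obtain ⟨h3, h4⟩ := mem_filter.1 hx
    exact mem_inter.2 ⟨mem_filter.2 ⟨hA2 h3, h4⟩, h3⟩
  have e4 : (((Wd \ Z) ∪ P) ∩ A2).card = (Wd ∩ A2).card + (P ∩ A2).card := by
    rw [← card_union_of_disjoint]
    · congr 1
      ext x
      simp only [mem_inter, mem_union, mem_sdiff]
      have : x ∈ A2 → x ∉ Z := fun h => (mem_sdiff.1 (hA2 h)).2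
      tauto
    · rw [Finset.disjoint_left]
      intro x h3 h4
      exact hW x (mem_inter.1 h3).1 s hs (mem_filter.1 (mem_inter.1 h4).1).2.symm
  have e5 : (Wd \ Z ∪ P).card ≤ (Wd \ Z).card + P.card := card_union_le _ _
  have e6 : (Wd \ Z).card + (if s ∈ Wd then 1 else 0) ≤ Wd.card := by
    split_ifs with h
    · exact card_lt_card (ssubset_of_subset_of_ne sdiff_subset
        (fun e => (mem_sdiff.1 (e.symm ▸ h : s ∈ Wd \ Z)).2 hsZ))
    · exact card_le_card sdiff_subset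
  have e7 : ∀ X : Finset α, (X ∩ insert s A2).card = (if s ∈ X then 1 else 0) + (X ∩ A2).card := by
    intro X
    rw [card_inter_eq_sum, card_inter_eq_sum, sum_insert hsA2]
  rw [e7, e7, dd_insert hsA2, card_insert_of_notMem hsA2, mul_add (2 * i + 1)]
  omega

end Pool.Agent.P.MP_e76938_co
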