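import Pool.Agent.P.MP_e76938_co.Dead

set_option autoImplicit false

namespace Pool.Agent.P.MP_e76938_co

open Finset SimpleGraph Classical

variable {α : Type} {G : SimpleGraph α} {V R Q : Finset α} {o : α → ℕ} {i : ℕ}

theorem sdiff_closed {W X : Finset α} (hc : Cl0 G W X) : Cl0 G W (W \ X) := fun a ha b hb hab =>
  mem_sdiff.2 ⟨hb, fun h => (mem_sdiff.1 ha).2 (hc b h a (mem_sdiff.1 ha).1 hab.symm)⟩

theorem dead_noQ {W Q : Finset α} : ∀ u ∈ W \ Lv G W Q, u ∉ Q := fun _ hu hq =>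
  (mem_sdiff.1 hu).2 (mem_Lv_of_mem_Q (mem_sdiff.1 hu).1 hq)

theorem Ctx.remove_dead (c : Ctx G V R Q o i) {a a' : α} (haa : G.Adj a a') (ha : a ∈ R)
    (ha' : a' ∈ R) {X : Finset α} (hX : X ⊆ V \ {a, a'}) (hc : Cl0 G (V \ {a, a'}) X)
    (hQ : ∀ u ∈ X, u ∉ Q) (hne : X.Nonempty) : ∃ u ∈ X, G.Adj u a ∧ G.Adj u a' := by
  by_contra hcon
  push Not at hcon
  have hXV : X ⊆ V := hX.trans sdiff_subset
  have b1 := c.dead_bound haa ha ha' hX hc hQ
  have hL := c.allLive_dead haa (c.hR ha) (c.hR ha') hX hc hQ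
  have lift : ∀ P ⊆ V \ X, (∀ u ∈ P, u ∉ R) → ∀ x ∈ P, ∀ y ∈ V, G.Adj x y → y ∈ V \ X := by
    intro P hP hR x hx y hy hxy
    refine mem_sdiff.2 ⟨hy, fun hyX => (mem_sdiff.1 (hP hx)).2 ?_⟩
    refine hc y hyX x (mem_sdiff.2 ⟨(mem_sdiff.1 (hP hx)).1, ?_⟩) hxy.symm
    simp only [mem_insert, mem_singleton]
    rintro (rfl | rfl)
    · exact hR _ hx ha
    · exact hR _ hx ha'
  have hV : Valid G (V \ X) R Q := by
    constructor
    · intro P z hP hPne hcP
      by_contra h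
      push Not at h
      obtain ⟨u, hu, hq⟩ := c.nodead (z := z) (hP.trans sdiff_subset) hPne (fun x hx y hy hxy =>
        hcP x hx y (lift P hP (fun u hu => (h u hu).1) x hx y hy hxy) hxy)
      exact (h u hu).2 hq
    · intro P hP hPne hcP
      refine ⟨?_, hL P hP hPne hcP⟩
      by_contra h
      push Not at h
      obtain ⟨u, hu, hq⟩ := (c.valid.2 P (hP.trans sdiff_subset) hPne (fun x hx y hy hxy =>
        hcP x hx y (lift P hP h x hx y hy hxy) hxy)).1
      exact h u hu hq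
  have hcard : (V \ X).card + X.card = V.card := card_sdiff_add_card_eq_card hXV
  have hpos := hne.card_pos
  have b2 := c.bound_self sdiff_subset (by omega) hV
  have e1 := dd_sdiff (G := G) hXV
  have e2 := card_split R hXV
  have e3 := card_split Q hXV
  rw [inter_eq_left.2 c.hR] at e2
  rw [inter_eq_left.2 c.hQ] at e3
  have e4 : (Q ∩ X).card = 0 := by
    rw [card_eq_zero, eq_empty_iff_forall_notMem]
    exact fun x hx => hQ x (mem_inter.1 hx).2 (mem_inter.1 hx).1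
  have e5 : ∑ u ∈ X, nb G (V \ X) u ≤ ∑ u ∈ X, (if G.Adj u a ∨ G.Adj u a' then 1 else 0) := by
    refine sum_le_sum fun u hu => ?_
    have h1 : nb G (V \ X) u ≤ nb G {a, a'} u := by
      unfold nb
      refine card_le_card fun y hy => ?_
      simp only [mem_filter] at hy ⊢
      refine ⟨?_, hy.2⟩
      by_contra h
      exact (mem_sdiff.1 hy.1).2 (hc u hu y (mem_sdiff.2 ⟨(mem_sdiff.1 hy.1).1, h⟩) hy.2)
    rw [nb_pair haa.ne] at h1
    have := hcon u hu
    by_cases h2 : G.Adj u a <;> by_cases h3 : G.Adj u a' <;> simp_all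
  rw [sum_add_distrib, ← mul_sum, ← mul_sum, ← card_inter_eq_sum] at b1
  have := c.dens
  rw [← hcard, mul_add] at this
  omega

theorem Rem.mono {W R R' Q Y : Finset α} (hY : Rem G W R Q Y) (h : ∀ u ∈ Y, u ∉ R') :
    Rem G W R' Q Y := ⟨hY.1, hY.2.1, h, hY.2.2.2⟩

/-- the case of a bad removable set when some labelled neighbour of the edge is live -/
theorem Ctx.bad_live (c : Ctx G V R Q o i) {s s' : α} (hss : G.Adj s s') (hs : s ∈ R)
    (hs' : s' ∈ R) (h0 : o s = 0) {Y : Finset α}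
    (hY : Rem G (Lv G (V \ {s, s'}) Q)
      ((V \ {s, s'}).filter (fun u => u ∈ R ∧ (G.Adj u s ∨ G.Adj u s'))) Q Y)
    {u b : α} (hu : u ∈ Y) (hus : G.Adj u s) (hb : b ∈ Y) (hbR : b ∈ R) (hb0 : o b = 0)
    (hub : G.Adj u b)
    (root : ∃ r ∈ Lv G (V \ {s, s'}) Q, r ∈ R ∧ (G.Adj r s ∨ G.Adj r s')) : False := by
  set L := Lv G (V \ {s, s'}) Q with hL
  have hLW : L ⊆ V \ {s, s'} := Lv_subset _ _
  have hne : ∀ x ∈ L, x ≠ s ∧ x ≠ s' := fun x hx => by
    have := (mem_sdiff.1 (hLW hx)).2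
    simpa [not_or] using this
  have hnY : ∀ x ∈ L, x ∈ R → (G.Adj x s ∨ G.Adj x s') → x ∉ Y := fun x hx h1 h2 h =>
    hY.2.2.1 x h (mem_filter.2 ⟨hLW hx, h1, h2⟩)
  have hS : ({s, s'} : Finset α) ⊆ R := by simp [insert_subset_iff, hs, hs']
  have h0' : o s' = 0 := by rw [← c.coh.2 s hs s' hs' hss, h0]
  have hXV : (({s, s'} : Set α) ∪ (Y : Set α)) ⊆ V := by
    rintro x ((rfl | rfl) | hx)
    · exact c.hR hs
    · exact c.hR hs'
    · exact (mem_sdiff.1 (hLW (hY.1 hx))).1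
  have hX : ∀ R1 : Finset α, (∀ x ∈ Y, x ∉ R1) → ∀ K ⊆ L, Valid G K R1 Q →
      ∀ x ∈ (({s, s'} : Set α) ∪ (Y : Set α)), x ∉ K := by
    intro R1 h1 K hK hV
    rintro x ((rfl | rfl) | hx)
    · exact fun h => (hne _ (hK h)).1 rfl
    · exact fun h => (hne _ (hK h)).2 rfl
    · exact (hY.mono h1).not_mem_core hK hV x hx
  have huL := hne u (hY.1 hu)
  have hbL := hne b (hY.1 hb)
  by_cases h1 : ∃ r ∈ L, r ∈ R ∧ G.Adj r s'
  · refine c.undo (R1 := L.filter (fun r => r ∈ R ∧ G.Adj r s')) (f := 3) (cc := 0) hS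
      (by simp) (by omega) hXV (hX _ ?_) ?_ ?_ ?_
    · intro x hx h
      obtain ⟨h2, h3, h4⟩ := mem_filter.1 h
      exact hnY x h2 h3 (Or.inr h4) hx
    · intro r hr _ j hj
      obtain ⟨h2, h3, h4⟩ := mem_filter.1 hr
      have hrY := hnY r h2 h3 (Or.inr h4)
      have hr0 : o r = 0 := by rw [c.coh.2 r h3 s' hs' h4, h0']
      have hr2 := hne r h2
      interval_cases j
      · exact ⟨r, h3, 0, PathIn.refl (by simp), by omega⟩
      · exact ⟨s, hs, 2, PathIn.two hss h4.symm hr2.1.symm (by simp) (by simp) (by simp),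
          by omega⟩
      · exact ⟨b, hbR, 4, PathIn.four hub.symm hus hss h4.symm hbL.1 hbL.2
          (fun h => hrY (h ▸ hb)) huL.2 (fun h => hrY (h ▸ hu)) hr2.1.symm
          (by simp [hb]) (by simp [hu]) (by simp) (by simp) (by simp), by omega⟩
    · intro x hx _
      rw [nb_pair hss.ne]
      by_cases h2 : x ∈ R <;> by_cases h3 : G.Adj x s <;> by_cases h4 : G.Adj x s' <;>
        simp [h2, h3, h4, show x ∈ L from hx]
    · obtain ⟨r, h2, h3⟩ := h1
      exact ⟨r, mem_filter.2 ⟨h2, h3⟩, h2⟩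
  · push Not at h1
    refine c.undo (R1 := (L \ Y).filter (fun r => G.Adj r s)) (f := 2) (cc := 1) hS
      (by simp) (by omega) hXV (hX _ ?_) ?_ ?_ ?_
    · intro x hx h
      exact (mem_sdiff.1 (mem_filter.1 h).1).2 hx
    · intro r hr _ j hj
      obtain ⟨h2, h4⟩ := mem_filter.1 hr
      have hrY := (mem_sdiff.1 h2).2
      interval_cases j
      · exact ⟨s, hs, 1, PathIn.edge h4.symm (by simp) (by simp), by omega⟩
      · exact ⟨b, hbR, 3, PathIn.three hub.symm hus h4.symm hbL.1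
          (fun h => hrY (h ▸ hb)) (fun h => hrY (h ▸ hu))
          (by simp [hb]) (by simp [hu]) (by simp) (by simp), by omega⟩
    · intro x hx hxX
      have hxY : x ∉ Y := fun h => hxX (Or.inr h)
      have := h1 x hx
      rw [nb_pair hss.ne]
      by_cases h2 : x ∈ R <;> by_cases h3 : G.Adj x s <;> by_cases h4 : G.Adj x s' <;>
        simp_all
    · obtain ⟨r, h2, h3, h4⟩ := root
      have h5 : G.Adj r s := h4.resolve_right (h1 r h2 h3)
      exact ⟨r, mem_filter.2 ⟨mem_sdiff.2 ⟨h2, hnY r h2 h3 h4⟩, h5⟩, h2⟩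

/-- the case of a dead common neighbour and no live labelled neighbour -/
theorem Ctx.bad_dead (c : Ctx G V R Q o i) {s s' : α} (hss : G.Adj s s') (hs : s ∈ R)
    (hs' : s' ∈ R) (h0 : o s = 0) {w : α} (hw : w ∈ (V \ {s, s'}) \ Lv G (V \ {s, s'}) Q)
    (hws : G.Adj w s) (hws' : G.Adj w s')
    (noroot : ∀ r ∈ Lv G (V \ {s, s'}) Q, r ∈ R → ¬ (G.Adj r s ∨ G.Adj r s'))
    (root : ∃ r ∈ Lv G (V \ {s, s'}) Q, G.Adj r s ∨ G.Adj r s') : False := by
  set L := Lv G (V \ {s, s'}) Q with hL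
  have hLW : L ⊆ V \ {s, s'} := Lv_subset _ _
  have hne : ∀ x ∈ L, x ≠ s ∧ x ≠ s' := fun x hx => by
    have := (mem_sdiff.1 (hLW hx)).2
    simpa [not_or] using this
  have hS : ({s, s'} : Finset α) ⊆ R := by simp [insert_subset_iff, hs, hs']
  have h0' : o s' = 0 := by rw [← c.coh.2 s hs s' hs' hss, h0]
  have hwL := (mem_sdiff.1 hw).2
  refine c.undo (R1 := L.filter (fun r => G.Adj r s ∨ G.Adj r s')) (f := 2) (cc := 1)
    (X := {s, s', w}) hS (by simp) (by omega) ?_ ?_ ?_ ?_ ?_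
  · rintro x (rfl | rfl | rfl)
    · exact c.hR hs
    · exact c.hR hs'
    · exact (mem_sdiff.1 (mem_sdiff.1 hw).1).1
  · intro K hK _
    rintro x (rfl | rfl | rfl)
    · exact fun h => (hne _ (hK h)).1 rfl
    · exact fun h => (hne _ (hK h)).2 rfl
    · exact fun h => hwL (hK h)
  · intro r hr _ j hj
    obtain ⟨h2, h4⟩ := mem_filter.1 hr
    have hr2 := hne r h2
    have hwr : w ≠ r := fun h => hwL (h ▸ h2)
    interval_cases j
    · rcases h4 with h4 | h4
      · exact ⟨s, hs, 1, PathIn.edge h4.symm (by simp) (by simp), by omega⟩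
      · exact ⟨s', hs', 1, PathIn.edge h4.symm (by simp) (by simp), by omega⟩
    · rcases h4 with h4 | h4
      · exact ⟨s', hs', 3, PathIn.three hws'.symm hws h4.symm hss.ne.symm hr2.2.symm hwr
          (by simp) (by simp) (by simp) (by simp), by omega⟩
      · exact ⟨s, hs, 3, PathIn.three hws.symm hws' h4.symm hss.ne hr2.1.symm hwr
          (by simp) (by simp) (by simp) (by simp), by omega⟩
  · intro x hx _
    have := noroot x hx
    rw [nb_pair hss.ne]
    by_cases h2 : x ∈ R <;> by_cases h3 : G.Adj x s <;> by_cases h4 : G.Adj x s' <;>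
      simp_all
  · obtain ⟨r, h2, h3⟩ := root
    exact ⟨r, mem_filter.2 ⟨h2, h3⟩, h2⟩

end Pool.Agent.P.MP_e76938_co
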