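import Pool.Agent.P.MP_e76938_co.CMoveA

set_option autoImplicit false

namespace Pool.Agent.P.MP_e76938_co

open Finset SimpleGraph Classical

variable {α : Type} {G : SimpleGraph α} {V R Q : Finset α} {o : α → ℕ} {i : ℕ}

/-- a removable set that is not bad is not too dense -/
theorem Ctx.good_rem (c : Ctx G V R Q o i) {s s' : α} (hss : G.Adj s s') (hs : s ∈ R)
    (hs' : s' ∈ R) (h0 : o s = 0) {Y : Finset α}
    (hY : Rem G (Lv G (V \ {s, s'}) Q)
      ((V \ {s, s'}).filter (fun u => u ∈ R ∧ (G.Adj u s ∨ G.Adj u s'))) Q Y)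
    (good : ∀ u ∈ Y, (G.Adj u s ∨ G.Adj u s') → ∀ b ∈ Y, b ∈ R → o b = 0 → ¬ G.Adj u b) :
    dd G Y + 2 * ∑ u ∈ Y, nb G (Lv G (V \ {s, s'}) Q \ Y) u +
      ∑ u ∈ Y, (2 * (if u ∈ R then 1 else 0) + 2 * (if u ∈ Q then 1 else 0) +
        2 * (if G.Adj u s ∨ G.Adj u s' then 1 else 0)) ≤ (2 * i + 1) * Y.card := by
  set L := Lv G (V \ {s, s'}) Q with hL
  have h2i := c.two_le
  have hLW : L ⊆ V \ {s, s'} := Lv_subset _ _
  have hLV : L ⊆ V := hLW.trans sdiff_subset
  have hYV : Y ⊆ V := hY.1.trans hLV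
  have h0' : o s' = 0 := by rw [← c.coh.2 s hs s' hs' hss, h0]
  have hsL : ∀ x ∈ ({s, s'} : Set α), x ∉ L := fun x hx h =>
    (mem_sdiff.1 (hLW h)).2 (by simpa using hx)
  have hCR : ∀ u ∈ Y, (G.Adj u s ∨ G.Adj u s') → u ∉ R := fun u hu h1 h2 =>
    hY.2.2.1 u hu (mem_filter.2 ⟨hLW (hY.1 hu), h2, h1⟩)
  have hlt : Y.card < V.card :=
    card_lt_card (ssubset_of_subset_of_ne hYV
      (fun h => hsL s (by simp) (hY.1 (h ▸ c.hR hs))))
  set R' := Y.filter (fun u => u ∈ R ∨ (G.Adj u s ∨ G.Adj u s')) with hR'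
  have toL : ∀ x ∈ Y, x ∉ R' → ∀ y ∈ V, G.Adj x y → y ∈ L := by
    intro x hx hxR y hy hxy
    refine Lv_closed _ _ x (hY.1 hx) y (mem_sdiff.2 ⟨hy, ?_⟩) hxy
    simp only [mem_insert, mem_singleton]
    rintro (rfl | rfl)
    · exact hxR (mem_filter.2 ⟨hx, Or.inr (Or.inl hxy)⟩)
    · exact hxR (mem_filter.2 ⟨hx, Or.inr (Or.inr hxy)⟩)
  have hV : Valid G Y R' (Ex G L Q Y) := by
    constructor
    · intro P z hP hne hc
      by_contra hcon
      push Not at hcon
      obtain ⟨u, hu, hq⟩ := c.nodead (z := z) (hP.trans hYV) hne (by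
        intro x hx y hy hxy
        by_cases hyY : y ∈ Y
        · exact hc x hx y hyY hxy
        · exact absurd (mem_Ex.2 ⟨hP hx, Or.inr ⟨y, toL x (hP hx) (hcon x hx).1 y hy hxy, hyY,
            hxy⟩⟩) (hcon x hx).2)
      exact (hcon u hu).2 (mem_Ex.2 ⟨hP hu, Or.inl hq⟩)
    · intro P hP hne hc
      constructor
      · by_contra hcon
        push Not at hcon
        rcases hY.2.2.2 with h1 | ⟨z, hz, hQ⟩
        · obtain ⟨u, hu, hq⟩ := (c.valid.2 P (hP.trans hYV) hne (fun x hx y hy hxy =>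
            hc x hx y (h1 x (hP hx) y (toL x (hP hx) (hcon x hx) y hy hxy) hxy) hxy)).1
          exact hcon u hu (mem_filter.2 ⟨hP hu, Or.inl hq⟩)
        · obtain ⟨u, hu, hq⟩ := c.nodead (z := z) (hP.trans hYV) hne (by
            intro x hx y hy hxy
            rcases hz x (hP hx) y (toL x (hP hx) (hcon x hx) y hy hxy) hxy with h | h
            · exact Or.inl (hc x hx y h hxy)
            · exact Or.inr h)
          exact hQ u (hP hu) hq
      · by_contra hcon
        push Not at hcon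
        obtain ⟨u, hu, hq⟩ := Lv_allLive (G := G) (V \ {s, s'}) Q P (hP.trans hY.1) hne (by
          intro x hx y hy hxy
          by_cases hyY : y ∈ Y
          · exact hc x hx y hyY hxy
          · exact absurd (mem_Ex.2 ⟨hP hx, Or.inr ⟨y, hy, hyY, hxy⟩⟩) (hcon x hx))
        exact hcon u hu (mem_Ex.2 ⟨hP hu, Or.inl hq⟩)
  have hC : Coh G R' (fun u => if u ∈ R then o u else 1) := by
    have key : ∀ r ∈ R', ∀ t ∈ R', G.Adj r t → r ∈ R → t ∉ R → o r = 1 := by
      intro r hr t ht hrt h1 h2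
      have h3 := good t (mem_filter.1 ht).1 ((mem_filter.1 ht).2.resolve_left h2) r
        (mem_filter.1 hr).1 h1
      have h4 := c.coh.1 r h1
      by_contra h5
      exact h3 (by omega) hrt.symm
    constructor
    · intro r _
      dsimp only
      split_ifs with h
      · exact c.coh.1 r h
      · rfl
    · intro r hr t ht hrt
      dsimp only
      split_ifs with h1 h2 h2
      · exact c.coh.2 r h1 t h2 hrt
      · exact key r hr t ht hrt h1 h2
      · exact (key t ht r hr hrt.symm h2 h1).symm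
      · rfl
  have b1 := c.bound (En := {s, s'}) (Exi := ((L \ Y : Finset α) : Set α)) (f := 1) (i' := i)
    (cc := 0) hYV hlt (filter_subset _ _) (Ex_subset _ _ _) hV hC (by omega) le_rfl le_rfl
    (by rintro x (rfl | rfl); exacts [c.hR hs, c.hR hs'])
    (fun x hx => hLV (mem_sdiff.1 hx).1) (fun x hx h => hsL x hx (hY.1 h))
    (fun x hx => (mem_sdiff.1 hx).2) (fun x hx h => hsL x hx (mem_sdiff.1 h).1)
    (by
      intro r hr j hj
      by_cases h1 : r ∈ R
      · exact ⟨r, h1, 0, PathIn.refl (by simp), by simp [h1]; omega⟩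
      · rcases (mem_filter.1 hr).2.resolve_left h1 with h2 | h2
        · exact ⟨s, hs, 1, PathIn.edge h2.symm (by simp) (by simp), by simp [h1]; omega⟩
        · exact ⟨s', hs', 1, PathIn.edge h2.symm (by simp) (by simp), by simp [h1]; omega⟩)
    (fun v hv => Ex_route (hY.allLive (Lv_allLive _ _)) hv)
  have e1 := hY.sum_le
  have e2 : ∑ u ∈ Y, (if u ∈ R then 1 else 0) +
      ∑ u ∈ Y, (if G.Adj u s ∨ G.Adj u s' then 1 else 0) ≤ R'.card := by
    rw [hR', card_filter, ← sum_add_distrib]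
    refine sum_le_sum fun u hu => ?_
    have := hCR u hu
    by_cases h1 : u ∈ R <;> by_cases h2 : (G.Adj u s ∨ G.Adj u s') <;> simp_all
  simp only [sum_add_distrib, ← mul_sum]
  rw [← card_inter_eq_sum Q]
  rw [← hR'] at b1
  omega

/-- every edge between entry vertices of offset 0 that is not isolated has large codegree -/
theorem Ctx.stretch (c : Ctx G V R Q o i) {s s' : α} (hss : G.Adj s s') (hs : s ∈ R)
    (hs' : s' ∈ R) (h0 : o s = 0) {b : α} (hb : b ∈ R) (hbs : b ≠ s) (hbs' : b ≠ s')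
    (hadj : G.Adj b s ∨ G.Adj b s') :
    2 * i ≤ (V.filter (fun u => G.Adj u s ∧ G.Adj u s')).card + (if s ∈ Q then 1 else 0) +
      (if s' ∈ Q then 1 else 0) + 1 := by
  by_contra hcon
  push Not at hcon
  have h2i := c.two_le
  set W := V \ {s, s'} with hW
  set L := Lv G W Q with hL
  set R0 := W.filter (fun u => u ∈ R ∧ (G.Adj u s ∨ G.Adj u s')) with hR0
  have hLW : L ⊆ W := Lv_subset _ _
  have hWV : W ⊆ V := sdiff_subset
  have h0' : o s' = 0 := by rw [← c.coh.2 s hs s' hs' hss, h0]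
  have hDc : Cl0 G W (W \ L) := sdiff_closed (Lv_closed _ _)
  by_cases hbad : ∃ Y, Rem G L R0 Q Y ∧ ∃ u ∈ Y, (G.Adj u s ∨ G.Adj u s') ∧
      ∃ b ∈ Y, b ∈ R ∧ o b = 0 ∧ G.Adj u b
  · obtain ⟨Y, hY, u, hu, hus, b', hb', hbR, hb0, hub⟩ := hbad
    by_cases root : ∃ r ∈ L, r ∈ R ∧ (G.Adj r s ∨ G.Adj r s')
    · rcases hus with hus | hus
      · exact c.bad_live hss hs hs' h0 hY hu hus hb' hbR hb0 hub root
      · refine c.bad_live (Y := Y) hss.symm hs' hs h0' ?_ hu hus hb' hbR hb0 hub ?_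
        · rw [pair_comm]
          simp only [or_comm (a := G.Adj _ s')]
          exact hY
        · rw [pair_comm]
          simp only [or_comm (a := G.Adj _ s')]
          exact root
    · push Not at root
      have hbD : b ∈ W \ L := by
        refine mem_sdiff.2 ⟨mem_sdiff.2 ⟨c.hR hb, by simp [hbs, hbs']⟩, fun h => ?_⟩
        have := root b h hb
        tauto
      obtain ⟨w, hw, h1, h2⟩ := c.remove_dead hss hs hs' sdiff_subset hDc dead_noQ ⟨b, hbD⟩
      exact c.bad_dead hss hs hs' h0 hw h1 h2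
        (fun r hr hR => by have := root r hr hR; tauto) ⟨u, hY.1 hu, hus⟩
  push Not at hbad
  obtain ⟨K, hK, hV, -, hq⟩ := core (G := G) R0 Q _ L rfl (Lv_allLive _ _)
  have hq1 := hq _ _ (fun Y hY => c.good_rem hss hs hs' h0 hY (hbad Y hY))
  have b1 := c.dead_bound hss hs hs' (X := W \ L) sdiff_subset hDc dead_noQ
  have hSV : ({s, s'} : Finset α) ⊆ V := by simp [insert_subset_iff, c.hR hs, c.hR hs']
  have hc1 : W.card + 2 = V.card := by
    rw [← card_pair hss.ne]; exact card_sdiff_add_card_eq_card hSV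
  have hc2 : (W \ L).card + L.card = W.card := card_sdiff_add_card_eq_card hLW
  have hc3 := card_le_card hK
  have hsK : ∀ x ∈ ({s, s'} : Set α), x ∉ K := fun x hx h =>
    (mem_sdiff.1 (hLW (hK h))).2 (by simpa using hx)
  have b2 := c.bound (En := {s, s'}) (Exi := ∅) (f := 2) (i' := i - 1) (cc := 0)
    (o' := fun _ => 0) (hK.trans (hLW.trans hWV)) (by omega) inter_subset_right inter_subset_right
    hV.inter (coh_zero0 _) (by omega) (by omega) (by omega)
    (by rintro x (rfl | rfl); exacts [c.hR hs, c.hR hs']) (by simp) hsK (by simp) (by simp)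
    (by
      intro r hr j hj
      obtain ⟨h1, h2, h3⟩ := mem_filter.1 (mem_inter.1 hr).1
      have h4 : r ≠ s ∧ r ≠ s' := by simpa [not_or] using (mem_sdiff.1 h1).2
      interval_cases j
      · refine ⟨r, h2, 0, PathIn.refl (by simp), ?_⟩
        rcases h3 with h3 | h3
        · rw [c.coh.2 r h2 s hs h3, h0]
        · rw [c.coh.2 r h2 s' hs' h3, h0']
      · rcases h3 with h3 | h3
        · exact ⟨s', hs', 2, PathIn.two hss.symm h3.symm h4.2.symm (by simp) (by simp) (by simp),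
            by omega⟩
        · exact ⟨s, hs, 2, PathIn.two hss h3.symm h4.1.symm (by simp) (by simp) (by simp),
            by omega⟩)
    (fun v hv => ⟨v, (mem_inter.1 hv).1, 0, PathIn.refl (by simp)⟩)
  have e1 := dd_sdiff (G := G) hSV
  rw [sum_nb_comm] at e1
  have e2 : dd G {s, s'} = 2 := by
    unfold dd
    rw [sum_pair hss.ne, nb_pair hss.ne, nb_pair hss.ne]
    simp [hss, hss.symm]
  have e3 : ∑ u ∈ W, nb G {s, s'} u ≤ ∑ u ∈ W, (if G.Adj u s ∨ G.Adj u s' then 1 else 0) +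
      (V.filter (fun u => G.Adj u s ∧ G.Adj u s')).card := by
    refine le_trans ?_ (Nat.add_le_add_left (card_le_card (filter_subset_filter _ hWV)) _)
    rw [card_filter, ← sum_add_distrib]
    refine sum_le_sum fun u _ => ?_
    rw [nb_pair hss.ne]
    by_cases h1 : G.Adj u s <;> by_cases h2 : G.Adj u s' <;> simp [h1, h2]
  have e4 := dd_closed hLW (Lv_closed (G := G) W Q)
  have e5 := card_split R hSV
  have e6 := card_split Q hSV
  rw [inter_eq_left.2 c.hR] at e5
  rw [inter_eq_left.2 c.hQ] at e6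
  have e7 : (R ∩ {s, s'}).card ≤ 2 := by
    rw [← card_pair hss.ne]; exact card_le_card inter_subset_right
  have e8 : (Q ∩ {s, s'}).card = (if s ∈ Q then 1 else 0) + (if s' ∈ Q then 1 else 0) := by
    rw [card_inter_eq_sum, sum_pair hss.ne]
  have e9 := card_split R hLW
  have e10 := card_split Q hLW
  have e11 : (Q ∩ (W \ L)).card = 0 := by
    rw [card_eq_zero, eq_empty_iff_forall_notMem]
    exact fun x hx => dead_noQ x (mem_inter.1 hx).2 (mem_inter.1 hx).1
  have e12 : ∑ u ∈ W \ L, (if G.Adj u s ∨ G.Adj u s' then 1 else 0) +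
      ∑ u ∈ L, (if G.Adj u s ∨ G.Adj u s' then 1 else 0) =
      ∑ u ∈ W, (if G.Adj u s ∨ G.Adj u s' then 1 else 0) := sum_sdiff hLW
  have e13 : (R ∩ K).card + ∑ u ∈ K, (if G.Adj u s ∨ G.Adj u s' then 1 else 0) ≤
      K.card + (R0 ∩ K).card := by
    rw [card_inter_eq_sum, card_inter_eq_sum, ← sum_add_distrib, card_eq_sum_ones,
      ← sum_add_distrib]
    refine sum_le_sum fun u hu => ?_
    have h3 : u ∈ W := hLW (hK hu)
    by_cases h1 : u ∈ R <;> by_cases h2 : (G.Adj u s ∨ G.Adj u s') <;> simp [hR0, h1, h2, h3]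
  simp only [sum_add_distrib, ← mul_sum, ← card_inter_eq_sum] at hq1 b1
  have e14 : (2 * i + 1) * K.card = (2 * (i - 1) + 1) * K.card + 2 * K.card := by
    obtain ⟨d, rfl⟩ : ∃ d, i = d + 1 := ⟨i - 1, by omega⟩
    rw [Nat.add_sub_cancel]
    ring
  have := c.dens
  rw [← hc1, ← hc2, mul_add, mul_add] at this
  rw [← hW] at e1 e5 e6
  omega

end Pool.Agent.P.MP_e76938_co
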