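import Pool.Agent.P.MP_e76938_co.Core

set_option autoImplicit false

namespace Pool.Agent.P.MP_e76938_co

open Finset SimpleGraph Classical

namespace CD

variable {α : Type} {G : SimpleGraph α}

/-- a shortest odd cycle of `V`, as a periodic sequence -/
structure Cyc (G : SimpleGraph α) (V : Finset α) (g : ℕ) (c : ℕ → α) : Prop where
  mem : ∀ i, c i ∈ V
  adj : ∀ i, G.Adj (c i) (c (i + 1))
  per : ∀ i, c (i + g) = c i
  inj : ∀ i j, i < j → j < i + g → c i ≠ c j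
  odd : g % 2 = 1
  five : 5 ≤ g
  min : ∀ (v : α) (w : G.Walk v v), w.IsCycle → w.length % 2 = 1 →
    (∀ x ∈ w.support, x ∈ V) → g ≤ w.length

theorem exists_cyc {V : Finset α}
    (ht : ∀ x ∈ V, ∀ y ∈ V, ∀ z ∈ V, G.Adj x y → G.Adj y z → ¬ G.Adj z x)
    (h : ∃ (v : α) (c : G.Walk v v), c.IsCycle ∧ Odd c.length ∧ ∀ x ∈ c.support, x ∈ V) :
    ∃ g c, Cyc G V g c := by
  have hex : ∃ g, ∃ (v : α) (c : G.Walk v v), c.IsCycle ∧ c.length % 2 = 1 ∧
      (∀ x ∈ c.support, x ∈ V) ∧ c.length = g := by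
    obtain ⟨v, c, h1, h2, h3⟩ := h
    exact ⟨_, v, c, h1, Nat.odd_iff.1 h2, h3, rfl⟩
  obtain ⟨v, w, h1, h2, h3, h4⟩ := Nat.find_spec hex
  have h5 := h1.three_le_length
  have hmem : ∀ i, w.getVert i ∈ V := fun i => h3 _ (w.getVert_mem_support i)
  have hadj : ∀ i, G.Adj (w.getVert (i % w.length)) (w.getVert ((i + 1) % w.length)) := by
    intro i
    have hlt : i % w.length < w.length := Nat.mod_lt _ (by omega)
    have := w.adj_getVert_succ hlt
    rw [Nat.add_mod, Nat.mod_eq_of_lt (show 1 < w.length by omega)]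
    by_cases he : i % w.length + 1 = w.length
    · rw [he, Nat.mod_self, w.getVert_zero]
      rw [he, w.getVert_length] at this
      exact this
    · rw [Nat.mod_eq_of_lt (show i % w.length + 1 < w.length by omega)]
      exact this
  refine ⟨w.length, fun i => w.getVert (i % w.length), fun i => hmem _, hadj,
    fun i => by simp, fun i j a1 a2 e => ?_, h2, ?_, fun v' w' b1 b2 b3 => ?_⟩
  · have l1 : i % w.length < w.length := Nat.mod_lt _ (by omega)
    have l2 : j % w.length < w.length := Nat.mod_lt _ (by omega)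
    have e' := h1.getVert_injOn' (show i % w.length ≤ w.length - 1 by omega)
      (show j % w.length ≤ w.length - 1 by omega) e
    have hd : w.length ∣ j - i := (Nat.modEq_iff_dvd' a1.le).1 e'
    have := Nat.le_of_dvd (by omega) hd
    omega
  · by_contra hlt
    have e : w.length = 3 := by omega
    have a0 := hadj 0
    have a1 := hadj 1
    have a2 := hadj 2
    rw [e] at a0 a1 a2
    exact ht _ (hmem _) _ (hmem _) _ (hmem _) a0 a1 a2
  · rw [h4]
    exact Nat.find_min' hex ⟨v', w', b1, b2, b3, rfl⟩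

variable {V : Finset α} {g : ℕ} {c : ℕ → α}

theorem Cyc.win (h : Cyc G V g c) (q a : ℕ) :
    ∃ q', a ≤ q' ∧ q' < a + g ∧ ∀ t, c (q' + t) = c (q + t) := by
  have h5 := h.five
  induction a with
  | zero =>
    induction q using Nat.strong_induction_on with
    | _ q ih =>
    by_cases hq : q < g
    · exact ⟨q, Nat.zero_le _, by omega, fun _ => rfl⟩
    · obtain ⟨q', a1, a2, a3⟩ := ih (q - g) (by omega)
      refine ⟨q', a1, a2, fun t => ?_⟩
      rw [a3, ← h.per, show q - g + t + g = q + t by omega]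
  | succ a ih =>
    obtain ⟨q', a1, a2, a3⟩ := ih
    by_cases e : q' = a
    · refine ⟨q' + g, by omega, by omega, fun t => ?_⟩
      rw [← a3, ← h.per (q' + t), show q' + g + t = q' + t + g by omega]
    · exact ⟨q', by omega, by omega, a3⟩

theorem Cyc.arc (h : Cyc G V g c) (a d : ℕ) (hd : d < g) :
    PathIn G {x | ∃ l, a ≤ l ∧ l ≤ a + d ∧ c l = x} (c a) (c (a + d)) d := by
  induction d with
  | zero => exact PathIn.refl ⟨a, le_rfl, le_rfl, rfl⟩
  | succ d ih =>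
    refine ((ih (by omega)).snoc (h.adj (a + d)) ?_).mono ?_
    · rintro ⟨l, l1, l2, e⟩
      exact h.inj l (a + d + 1) (by omega) (by omega) e
    · rintro x (rfl | ⟨l, l1, l2, e⟩)
      · exact ⟨a + d + 1, by omega, by omega, rfl⟩
      · exact ⟨l, l1, by omega, e⟩

theorem Cyc.arc' (h : Cyc G V g c) {a b : ℕ} (h1 : a ≤ b) (h2 : b < a + g) :
    PathIn G (Set.range c) (c a) (c b) (b - a) := by
  have := h.arc a (b - a) (by omega)
  rw [show a + (b - a) = b by omega] at this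
  exact this.mono (by rintro x ⟨l, -, -, e⟩; exact ⟨l, e⟩)

theorem Cyc.short (h : Cyc G V g c) {u : α} {a b : ℕ} (h1 : a < b) (h2 : b < a + g) (hu : u ∈ V)
    (hn : ∀ l, a ≤ l → l ≤ b → c l ≠ u) (ha : G.Adj u (c a)) (hb : G.Adj u (c b))
    (ho : (b - a) % 2 = 1) : g ≤ b - a + 2 := by
  have hp := h.arc a (b - a) (by omega)
  rw [show a + (b - a) = b by omega] at hp
  obtain ⟨x, w, w1, w2, w3⟩ := hp.cycle (PathIn.refl (W := {u}) (a := u) rfl)
    (by rintro _ ⟨l, l1, l2, rfl⟩ e; exact hn l l1 l2 e) hb.symm ha (by omega)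
  have := h.min x w w1 (by omega) (by
    intro y hy
    rcases w3 y hy with ⟨l, -, -, rfl⟩ | rfl
    · exact h.mem l
    · exact hu)
  omega

theorem Cyc.chord (h : Cyc G V g c) {a b : ℕ} (h1 : a < b) (h2 : b < a + g)
    (hab : G.Adj (c a) (c b)) : b = a + 1 ∨ b + 1 = a + g := by
  have ho := h.odd
  by_contra hc
  obtain ⟨b, rfl⟩ : ∃ b', b = b' + 1 := ⟨b - 1, by omega⟩
  by_cases hp : (b - a) % 2 = 1
  · have := h.short (u := c (b + 1)) (a := a) (b := b) (by omega) (by omega) (h.mem _)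
      (fun l l1 l2 => h.inj l (b + 1) (by omega) (by omega)) hab.symm (h.adj b).symm hp
    omega
  · have e : c (a + g - 1 + 1) = c a := by
      rw [show a + g - 1 + 1 = a + g by omega, h.per]
    have := h.short (u := c a) (a := b + 1) (b := a + g - 1) (by omega) (by omega) (h.mem _)
      (fun l l1 l2 => (h.inj a l (by omega) (by omega)).symm) hab (e ▸ (h.adj _).symm)
      (by omega)
    omega

theorem Cyc.outer (h : Cyc G V g c) {u : α} {a b : ℕ} (h1 : a < b) (h2 : b < a + g) (hu : u ∈ V)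
    (hn : ∀ l, c l ≠ u) (ha : G.Adj u (c a)) (hb : G.Adj u (c b)) : b = a + 2 ∨ b + 2 = a + g := by
  have ho := h.odd
  by_cases hp : (b - a) % 2 = 1
  · have := h.short h1 h2 hu (fun l _ _ => hn l) ha hb hp
    omega
  · have := h.short (a := b) (b := a + g) h2 (by omega) hu (fun l _ _ => hn l) hb
      ((h.per a).symm ▸ ha) (by omega)
    omega

theorem nb_le_two {X : Finset α} {u x y : α} (h : ∀ w ∈ X, G.Adj u w → w = x ∨ w = y) :
    nb G X u ≤ 2 := by
  unfold nb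
  refine (card_le_card (t := {x, y}) fun w hw => ?_).trans card_le_two
  obtain ⟨h1, h2⟩ := mem_filter.1 hw
  simpa using h w h1 h2

theorem nb_pos {X : Finset α} {u : α} (h : 1 ≤ nb G X u) : ∃ w ∈ X, G.Adj u w := by
  by_contra hc
  push Not at hc
  rw [nb_eq_zero hc] at h
  omega

theorem Cyc.memC (h : Cyc G V g c) {x : α} : x ∈ (range g).image c ↔ ∃ i, c i = x := by
  rw [mem_image]
  constructor
  · rintro ⟨i, -, e⟩
    exact ⟨i, e⟩
  · rintro ⟨i, e⟩
    obtain ⟨q, -, q2, q3⟩ := h.win i 0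
    exact ⟨q, mem_range.2 (by omega), (q3 0).trans e⟩

theorem Cyc.cardC (h : Cyc G V g c) : ((range g).image c).card = g := by
  rw [card_image_of_injOn, card_range]
  intro i hi j hj e
  simp only [coe_range, Set.mem_Iio] at hi hj
  by_contra hne
  rcases Nat.lt_or_gt_of_ne hne with hl | hl
  · exact h.inj i j hl (by omega) e
  · exact h.inj j i hl (by omega) e.symm

theorem Cyc.ddC (h : Cyc G V g c) : dd G ((range g).image c) ≤ 2 * g := by
  unfold dd
  refine (sum_le_card_nsmul _ _ 2 fun u hu => ?_).trans (by rw [h.cardC, smul_eq_mul]; omega)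
  obtain ⟨a, rfl⟩ := h.memC.1 hu
  refine nb_le_two (x := c (a + 1)) (y := c (a + g - 1)) fun w hw hadj => ?_
  obtain ⟨b, rfl⟩ := h.memC.1 hw
  obtain ⟨q, q1, q2, q3⟩ := h.win b a
  have e := q3 0
  simp only [add_zero] at e
  rw [← e] at hadj ⊢
  have hq : q ≠ a := fun e' => hadj.ne (by rw [e'])
  rcases h.chord (by omega) q2 hadj with e' | e'
  · exact Or.inl (by rw [e'])
  · exact Or.inr (by rw [show q = a + g - 1 by omega])

theorem Cyc.nb_out (h : Cyc G V g c) {u : α} (hu : u ∈ V) (hn : ∀ l, c l ≠ u) :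
    nb G ((range g).image c) u ≤ 2 ∧
      (2 ≤ nb G ((range g).image c) u → ∃ q, G.Adj u (c q) ∧ G.Adj u (c (q + 2))) := by
  have ho := h.odd
  have h5 := h.five
  by_cases h1 : nb G ((range g).image c) u ≤ 1
  · exact ⟨by omega, fun h2 => by omega⟩
  obtain ⟨x, hx, ha⟩ := nb_pos (G := G) (X := (range g).image c) (u := u) (by omega)
  obtain ⟨a, rfl⟩ := h.memC.1 hx
  have key : ∀ w ∈ (range g).image c, G.Adj u w →
      w = c a ∨ w = c (a + 2) ∨ w = c (a + g - 2) := by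
    intro w hw hadj
    obtain ⟨b, rfl⟩ := h.memC.1 hw
    obtain ⟨q, q1, q2, q3⟩ := h.win b a
    have e := q3 0
    simp only [add_zero] at e
    rw [← e] at hadj ⊢
    by_cases hq : q = a
    · exact Or.inl (by rw [hq])
    · rcases h.outer (by omega) q2 hu hn ha hadj with e' | e'
      · exact Or.inr (Or.inl (by rw [e']))
      · exact Or.inr (Or.inr (by rw [show q = a + g - 2 by omega]))
  by_cases h2 : G.Adj u (c (a + 2))
  · refine ⟨nb_le_two (x := c a) (y := c (a + 2)) fun w hw hadj => ?_, fun _ => ⟨a, ha, h2⟩⟩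
    rcases key w hw hadj with e | e | e
    · exact Or.inl e
    · exact Or.inr e
    · have := h.outer (a := a + 2) (b := a + g - 2) (by omega) (by omega) hu hn h2 (e ▸ hadj)
      omega
  · by_cases h3 : G.Adj u (c (a + g - 2))
    · refine ⟨nb_le_two (x := c a) (y := c (a + g - 2)) fun w hw hadj => ?_,
        fun _ => ⟨a + g - 2, h3, ?_⟩⟩
      · rcases key w hw hadj with e | e | e
        · exact Or.inl e
        · exact absurd (e ▸ hadj) h2
        · exact Or.inr e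
      · rw [show a + g - 2 + 2 = a + g by omega, h.per]
        exact ha
    · exfalso
      refine h1 ((nb_le_one (z := c a) fun w hw hadj => ?_).trans (by split_ifs <;> omega))
      rcases key w hw hadj with e | e | e
      · exact e
      · exact absurd (e ▸ hadj) h2
      · exact absurd (e ▸ hadj) h3

/-- a closing path of length `m` along the cycle -/
def Clo (G : SimpleGraph α) (c : ℕ → α) (T : Finset α) (v : α) (m : ℕ) : Prop :=
  ∃ y x, PathIn G (Set.range c) y x m ∧ G.Adj v y ∧ ∀ r ∈ T, G.Adj x r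

theorem Clo.cyc {T D : Finset α} {v r : α} {m n : ℕ} (h : Clo G c T v m) (hm : 1 ≤ m)
    (hD : ∀ u ∈ D, ∀ l, c l ≠ u) (hr : r ∈ T) (hp : PathIn G (D : Set α) r v n) :
    ∃ (a : α) (w : G.Walk a a), w.IsCycle ∧ w.length = n + m + 2 := by
  obtain ⟨y, x, h1, h2, h3⟩ := h
  obtain ⟨a, w, w1, w2, -⟩ := hp.cycle h1 (by rintro _ hu ⟨l, rfl⟩; exact hD _ hu l rfl) h2
    (h3 r hr) (by omega)
  exact ⟨a, w, w1, w2⟩

theorem runA {T D : Finset α} {v : α} {k : ℕ} (hD : ∀ u ∈ D, ∀ l, c l ≠ u)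
    (h : ∀ e, ∃ m, 1 ≤ m ∧ (m + e) % 2 = 0 ∧ Clo G c T v m)
    (hF : ∃ a, ∀ j < k, ∃ r ∈ T, PathIn G (D : Set α) r v (a + 2 * j)) : Run G k := by
  obtain ⟨a, ha⟩ := hF
  obtain ⟨m, m1, m2, m3⟩ := h a
  refine ⟨(a + m + 2) / 2, fun j hj => ?_⟩
  obtain ⟨r, hr, hp⟩ := ha j hj
  obtain ⟨x, w, w1, w2⟩ := m3.cyc m1 hD hr hp
  exact ⟨x, w, w1, by omega⟩

theorem runB {T D : Finset α} {v : α} {k : ℕ} (hD : ∀ u ∈ D, ∀ l, c l ≠ u)
    (h : ∀ e, ∃ m, 1 ≤ m ∧ (m + e) % 2 = 0 ∧ Clo G c T v m ∧ Clo G c T v (m + 2))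
    (hF : ∃ a, ∀ j < k + 1, ∃ r ∈ T, PathIn G (D : Set α) r v (a + 2 * j)) : Run G (k + 2) := by
  obtain ⟨a, ha⟩ := hF
  obtain ⟨m, m1, m2, m3, m4⟩ := h a
  refine ⟨(a + m + 2) / 2, fun j hj => ?_⟩
  by_cases hk : j < k + 1
  · obtain ⟨r, hr, hp⟩ := ha j hk
    obtain ⟨x, w, w1, w2⟩ := m3.cyc m1 hD hr hp
    exact ⟨x, w, w1, by omega⟩
  · obtain ⟨r, hr, hp⟩ := ha k (by omega)
    obtain ⟨x, w, w1, w2⟩ := m4.cyc (by omega) hD hr hp
    exact ⟨x, w, w1, by omega⟩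

theorem Cyc.fwd (h : Cyc G V g c) {T : Finset α} {v : α} {q L m : ℕ} (hv : G.Adj v (c q))
    (hL : ∀ r ∈ T, G.Adj (c L) r) (e : L = q + m) (hm : m < g) : Clo G c T v m := by
  have := h.arc' (a := q) (b := L) (by omega) (by omega)
  rw [show L - q = m by omega] at this
  exact ⟨_, _, this, hv, hL⟩

theorem Cyc.bwd (h : Cyc G V g c) {T : Finset α} {v : α} {q L m : ℕ} (hv : G.Adj v (c q))
    (hL : ∀ r ∈ T, G.Adj (c L) r) (e : q = L + m) (hm : m < g) : Clo G c T v m := by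
  have := h.arc' (a := L) (b := q) (by omega) (by omega)
  rw [show q - L = m by omega] at this
  exact ⟨_, _, this.symm, hv, hL⟩

theorem Cyc.cloOne (h : Cyc G V g c) {T : Finset α} {v : α} {a b : ℕ} (hv : G.Adj v (c b))
    (hT : ∀ r ∈ T, G.Adj (c a) r) (hne : c b ≠ c a) (e : ℕ) :
    ∃ m, 1 ≤ m ∧ (m + e) % 2 = 0 ∧ Clo G c T v m := by
  have ho := h.odd
  obtain ⟨q, q1, q2, q3⟩ := h.win b a
  have e0 := q3 0
  simp only [add_zero] at e0
  rw [← e0] at hv hne
  have hq : q ≠ a := fun e' => hne (by rw [e'])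
  by_cases hp : (q - a + e) % 2 = 0
  · exact ⟨q - a, by omega, hp, h.bwd hv hT (by omega) (by omega)⟩
  · exact ⟨a + g - q, by omega, by omega,
      h.fwd (L := a + g) hv (by rw [h.per]; exact hT) (by omega) (by omega)⟩

theorem Cyc.cloTwo (h : Cyc G V g c) {T : Finset α} {v : α} {p b : ℕ} (hv : G.Adj v (c b))
    (hT : ∀ r ∈ T, G.Adj (c p) r) (hT' : ∀ r ∈ T, G.Adj (c (p + 2)) r) (e : ℕ) :
    ∃ m, 1 ≤ m ∧ (m + e) % 2 = 0 ∧ Clo G c T v m := by
  have h5 := h.five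
  by_cases hne : c b = c p
  · refine h.cloOne hv hT' ?_ e
    rw [hne]
    exact h.inj p (p + 2) (by omega) (by omega)
  · exact h.cloOne hv hT hne e

theorem Cyc.cloPair (h : Cyc G V g c) {T : Finset α} {v : α} {p b : ℕ} (hv : G.Adj v (c b))
    (hv' : G.Adj v (c (b + 2))) (hT : ∀ r ∈ T, G.Adj (c p) r)
    (hT' : ∀ r ∈ T, G.Adj (c (p + 2)) r) (hn : ¬ (G.Adj v (c p) ∧ G.Adj v (c (p + 2)))) (e : ℕ) :
    ∃ m, 1 ≤ m ∧ (m + e) % 2 = 0 ∧ Clo G c T v m ∧ Clo G c T v (m + 2) := by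
  have ho := h.odd
  have h5 := h.five
  obtain ⟨q, q1, q2, q3⟩ := h.win b p
  have e0 := q3 0
  simp only [add_zero] at e0
  rw [← e0] at hv
  rw [← q3] at hv'
  have hq : q ≠ p := fun e' => hn (e' ▸ ⟨hv, hv'⟩)
  have hS : ∀ r ∈ T, G.Adj (c (p + g)) r := by rw [h.per]; exact hT
  have hS' : ∀ r ∈ T, G.Adj (c (p + 2 + g)) r := by rw [h.per]; exact hT'
  by_cases hp : (q - p + e) % 2 = 0
  · by_cases h3 : p + 3 ≤ q
    · exact ⟨q - p - 2, by omega, by omega, h.bwd hv hT' (by omega) (by omega),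
        h.bwd hv' hT' (by omega) (by omega)⟩
    · exact ⟨q - p, by omega, by omega, h.bwd hv hT (by omega) (by omega),
        h.bwd hv' hT (by omega) (by omega)⟩
  · by_cases h3 : q + 3 ≤ p + g
    · exact ⟨p + g - q - 2, by omega, by omega, h.fwd hv' hS (by omega) (by omega),
        h.fwd hv hS (by omega) (by omega)⟩
    · exact ⟨p + g - q, by omega, by omega, h.fwd hv' hS' (by omega) (by omega),
        h.fwd hv hS' (by omega) (by omega)⟩

theorem fam_zero {D R : Finset α} {v : α} {k : ℕ} (h : Fam G D R (fun _ => 0) v k) :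
    ∃ a, ∀ j < k, ∃ r ∈ R, PathIn G (D : Set α) r v (a + 2 * j) := by
  obtain ⟨a, ha⟩ := h
  refine ⟨a, fun j hj => ?_⟩
  obtain ⟨r, hr, n, hp, e⟩ := ha j hj
  exact ⟨r, hr, by rwa [show n = a + 2 * j from e] at hp⟩

theorem coh_zero (R : Finset α) : Coh G R (fun _ => 0) :=
  ⟨fun _ _ => Nat.zero_le _, fun _ _ _ _ _ => rfl⟩

theorem sum_le_two {X R Q : Finset α} {f : α → ℕ} (hR : R ⊆ X) (hQ : Q ⊆ X) (n : ℕ)
    (h : ∀ u ∈ X, f u ≤ n + (if u ∈ R then 1 else 0) + (if u ∈ Q then 1 else 0)) :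
    ∑ u ∈ X, f u ≤ n * X.card + R.card + Q.card := by
  refine (sum_le_sum h).trans (le_of_eq ?_)
  rw [sum_add_distrib, sum_add_distrib, ← card_inter_eq_sum, ← card_inter_eq_sum,
    inter_eq_left.2 hR, inter_eq_left.2 hQ, sum_const, smul_eq_mul, mul_comm]

/-- the dense component case -/
theorem comp_case (hR : ∀ V : Finset α, RDT G V) {k : ℕ} (h : Cyc G V g c) (hT : TC G V)
    {D : Finset α} (hD : Comp G (V \ (range g).image c) D)
    (hd : (2 * (k + 2) + 1) * D.card < dd G D + ∑ u ∈ D, 2 * nb G ((range g).image c) u) :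
    Run G (k + 2) := by
  obtain ⟨C, hC⟩ : ∃ C, C = (range g).image c := ⟨_, rfl⟩
  have h5 := h.five
  have mC : ∀ x, x ∈ C ↔ ∃ i, c i = x := fun x => hC ▸ h.memC
  rw [← hC] at hD hd
  obtain ⟨d1, d2, d3, d4⟩ := hD
  have dV : ∀ u ∈ D, u ∈ V := fun u hu => (mem_sdiff.1 (d1 hu)).1
  have dC : ∀ u ∈ D, ∀ l, c l ≠ u := fun u hu l e => (mem_sdiff.1 (d1 hu)).2 ((mC u).2 ⟨l, e⟩)
  have nbo : ∀ u ∈ D, nb G C u ≤ 2 ∧
      (2 ≤ nb G C u → ∃ q, G.Adj u (c q) ∧ G.Adj u (c (q + 2))) :=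
    fun u hu => hC ▸ h.nb_out (dV u hu) (dC u hu)
  have c01 : c 0 ≠ c 1 := h.inj 0 1 (by omega) (by omega)
  -- first validity condition, from 2-connectivity
  have V1 : ∀ P z z', P ⊆ D → P.Nonempty → Cl1 G D P z → (z = z' ∨ Cl0 G D P) →
      ∃ u ∈ P, ∃ l, c l ≠ z' ∧ G.Adj u (c l) := by
    intro P z z' hP hne hc hz
    by_contra hcon
    push Not at hcon
    have := hT P z' (fun u hu => dV u (hP hu)) hne (by
      intro u hu w hw hadj
      by_cases hwC : w ∈ C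
      · obtain ⟨l, rfl⟩ := (mC w).1 hwC
        exact Or.inr (by_contra fun hn => hcon u hu l hn hadj)
      · have hwD := d3 u (hP hu) w (mem_sdiff.2 ⟨hw, hwC⟩) hadj
        rcases hz with rfl | h0
        · exact hc u hu w hwD hadj
        · exact Or.inl (h0 u hu w hwD hadj))
    rcases this _ (h.mem 0) with a | a
    · exact dC _ (hP a) 0 rfl
    · rcases this _ (h.mem 1) with b | b
      · exact dC _ (hP b) 1 rfl
      · exact c01 (a.trans b.symm)
  have V1' : ∀ P z, P ⊆ D → P.Nonempty → Cl1 G D P z → ∃ u ∈ P, ∃ l, G.Adj u (c l) := by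
    intro P z hP hne hc
    obtain ⟨u, hu, l, -, hl⟩ := V1 P z z hP hne hc (Or.inl rfl)
    exact ⟨u, hu, l, hl⟩
  have V2 : ∀ P, P ⊆ D → P.Nonempty → Cl0 G D P → P = D := fun P hP hne hc =>
    d4 P hP hne fun u hu w hw hadj => hc u hu w (d3 u (hP hu) w hw hadj) hadj
  have nbl : ∀ u, 1 ≤ nb G C u → ∃ l, G.Adj u (c l) := by
    intro u hu
    obtain ⟨w, hw, ha⟩ := nb_pos hu
    obtain ⟨l, rfl⟩ := (mC w).1 hw
    exact ⟨l, ha⟩
  rw [← mul_sum] at hd
  by_cases hD1 : ∀ u ∈ D, nb G C u ≤ 1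
  · have cD : Cl0 G D D := fun _ _ _ hw _ => hw
    obtain ⟨u1, hu1, a, -, ha⟩ := V1 D (c 0) (c 0) subset_rfl d2 (fun _ _ _ hw _ => Or.inl hw)
      (Or.inr cD)
    obtain ⟨u2, hu2, b, hb, hb'⟩ := V1 D (c a) (c a) subset_rfl d2 (fun _ _ _ hw _ => Or.inl hw)
      (Or.inr cD)
    have hs := sum_le_two (X := D) (R := D.filter (fun u => G.Adj u (c a)))
      (Q := D.filter (fun u => ∃ l, c l ≠ c a ∧ G.Adj u (c l))) (f := fun u => nb G C u)
      (filter_subset _ _) (filter_subset _ _) 0 (by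
        intro u hu
        have := hD1 u hu
        by_cases h1 : 1 ≤ nb G C u
        · obtain ⟨l, hl⟩ := nbl u h1
          by_cases e : c l = c a
          · rw [if_pos (mem_filter.2 ⟨hu, e ▸ hl⟩)]
            omega
          · rw [if_pos (show u ∈ D.filter (fun u => ∃ l, c l ≠ c a ∧ G.Adj u (c l)) from
              mem_filter.2 ⟨hu, l, e, hl⟩)]
            omega
        · omega)
    obtain ⟨v, hv, hF⟩ := hR D (D.filter (fun u => G.Adj u (c a)))
      (D.filter (fun u => ∃ l, c l ≠ c a ∧ G.Adj u (c l))) (fun _ => 0) (k + 2)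
      (filter_subset _ _) (filter_subset _ _) ⟨fun P z hP hne hc => by
        obtain ⟨u, hu, l, hl⟩ := V1' P z hP hne hc
        by_cases e : c l = c a
        · exact ⟨u, hu, Or.inl (mem_filter.2 ⟨hP hu, e ▸ hl⟩)⟩
        · exact ⟨u, hu, Or.inr (mem_filter.2 ⟨hP hu, l, e, hl⟩)⟩, fun P hP hne hc => by
        rw [V2 P hP hne hc]
        exact ⟨⟨u1, hu1, mem_filter.2 ⟨hu1, ha⟩⟩, u2, hu2, mem_filter.2 ⟨hu2, b, hb, hb'⟩⟩⟩
      (coh_zero _) (by omega)
    obtain ⟨-, l, l1, l2⟩ := mem_filter.1 hv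
    exact runA dC (h.cloOne l2 (fun r hr => (mem_filter.1 hr).2.symm) l1) (fam_zero hF)
  push Not at hD1
  obtain ⟨u0, hu0, h0⟩ := hD1
  obtain ⟨p, p1, p2⟩ := (nbo u0 hu0).2 h0
  obtain ⟨T, hT'⟩ : ∃ T : Finset α, ∀ u, u ∈ T ↔ u ∈ D ∧ G.Adj u (c p) ∧ G.Adj u (c (p + 2)) :=
    ⟨D.filter (fun u => G.Adj u (c p) ∧ G.Adj u (c (p + 2))), fun u => mem_filter⟩
  obtain ⟨Q1, hQ1⟩ : ∃ Q : Finset α, ∀ u, u ∈ Q ↔ u ∈ D ∧ ∃ l, G.Adj u (c l) :=
    ⟨D.filter (fun u => ∃ l, G.Adj u (c l)), fun u => mem_filter⟩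
  obtain ⟨Q2, hQ2⟩ : ∃ Q : Finset α, ∀ u, u ∈ Q ↔ u ∈ D ∧ u ∉ T ∧ 2 ≤ nb G C u :=
    ⟨D.filter (fun u => u ∉ T ∧ 2 ≤ nb G C u), fun u => mem_filter⟩
  have t0 : u0 ∈ T := (hT' u0).2 ⟨hu0, p1, p2⟩
  have tA : ∀ r ∈ T, G.Adj (c p) r := fun r hr => ((hT' r).1 hr).2.1.symm
  have tB : ∀ r ∈ T, G.Adj (c (p + 2)) r := fun r hr => ((hT' r).1 hr).2.2.symm
  have rA : ∀ v ∈ Q1, (∃ a, ∀ j < k + 2, ∃ r ∈ T, PathIn G (D : Set α) r v (a + 2 * j)) →
      Run G (k + 2) := by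
    intro v hv hF
    obtain ⟨-, l, hl⟩ := (hQ1 v).1 hv
    exact runA dC (h.cloTwo hl tA tB) hF
  by_cases hq : Q2.Nonempty
  swap
  · have hs := sum_le_two (X := D) (R := T) (Q := Q1) (f := fun u => nb G C u)
      (fun u hu => ((hT' u).1 hu).1) (fun u hu => ((hQ1 u).1 hu).1) 0 (by
        intro u hu
        have := (nbo u hu).1
        by_cases h1 : 1 ≤ nb G C u
        · rw [if_pos ((hQ1 u).2 ⟨hu, nbl u h1⟩)]
          by_cases h2 : u ∈ T
          · rw [if_pos h2]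
            omega
          · have : ¬ 2 ≤ nb G C u := fun h3 => hq ⟨u, (hQ2 u).2 ⟨hu, h2, h3⟩⟩
            omega
        · omega)
    obtain ⟨v, hv, hF⟩ := hR D T Q1 (fun _ => 0) (k + 2)
      (fun u hu => ((hT' u).1 hu).1) (fun u hu => ((hQ1 u).1 hu).1) ⟨fun P z hP hne hc => by
        obtain ⟨u, hu, l, hl⟩ := V1' P z hP hne hc
        exact ⟨u, hu, Or.inr ((hQ1 u).2 ⟨hP hu, l, hl⟩)⟩, fun P hP hne hc => by
        rw [V2 P hP hne hc]
        exact ⟨⟨u0, hu0, t0⟩, u0, hu0, (hQ1 u0).2 ⟨hu0, p, p1⟩⟩⟩ (coh_zero _) (by omega)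
    exact rA v hv (fam_zero hF)
  obtain ⟨q0, hq0⟩ := hq
  obtain ⟨K, hK, hV, -, hb⟩ := core (G := G) T Q2 D.card D rfl (fun P hP hne hc => by
    rw [V2 P hP hne hc]
    exact ⟨q0, ((hQ2 q0).1 hq0).1, hq0⟩)
  by_contra hrun
  have hb' := hb (fun u => 2 * nb G C u) (2 * (k + 2) + 1) (by
    rintro Y ⟨y1, y2, y3, y4⟩
    have n0 : ¬ Cl0 G D Y := fun h0 => y3 u0 (by rw [V2 Y y1 y2 h0]; exact hu0) t0
    obtain ⟨z, hz, y5⟩ := y4.resolve_left n0
    have hzD : z ∈ D \ Y := by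
      by_contra hn
      refine n0 fun u hu w hw hadj => ?_
      rcases hz u hu w hw hadj with e | rfl
      · exact e
      · by_contra hY
        exact hn (mem_sdiff.2 ⟨hw, hY⟩)
    by_contra hlt
    push Not at hlt
    rw [← mul_sum] at hlt
    have s1 := sum_le_two (X := Y) (R := Y.filter (fun u => G.Adj u z)) (Q := ∅)
      (f := fun u => nb G (D \ Y) u) (filter_subset _ _) (empty_subset _) 0 (by
        intro u hu
        have := nb_le_one (G := G) (X := D \ Y) (u := u) (z := z) fun w hw hadj =>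
          (hz u hu w (mem_sdiff.1 hw).1 hadj).resolve_left (mem_sdiff.1 hw).2
        by_cases ha : G.Adj u z
        · rw [if_pos (mem_filter.2 ⟨hu, ha⟩)]
          rw [if_pos ha] at this
          omega
        · rw [if_neg ha] at this
          omega)
    have s2 := sum_le_two (X := Y) (R := Q1 ∩ Y) (Q := ∅)
      (f := fun u => nb G C u) inter_subset_right (empty_subset _) 0 (by
        intro u hu
        have : ¬ 2 ≤ nb G C u := fun h3 => y5 u hu ((hQ2 u).2 ⟨y1 hu, y3 u hu, h3⟩)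
        by_cases h1 : 1 ≤ nb G C u
        · rw [if_pos (mem_inter.2 ⟨(hQ1 u).2 ⟨y1 hu, nbl u h1⟩, hu⟩)]
          omega
        · omega)
    rw [card_empty] at s1 s2
    have up : ∀ P z', P ⊆ Y → (∀ u ∈ P, ¬ G.Adj u z) → Cl1 G Y P z' → Cl1 G D P z' := by
      intro P z' hP hn hc u hu w hw hadj
      rcases hz u (hP hu) w hw hadj with e | rfl
      · exact hc u hu w e hadj
      · exact absurd hadj (hn u hu)
    obtain ⟨v, hv, hF⟩ := hR Y (Y.filter (fun u => G.Adj u z)) (Q1 ∩ Y) (fun _ => 0) (k + 2)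
      (filter_subset _ _) inter_subset_right ⟨fun P z' hP hne hc => by
        by_cases ha : ∃ u ∈ P, G.Adj u z
        · obtain ⟨u, hu, ha⟩ := ha
          exact ⟨u, hu, Or.inl (mem_filter.2 ⟨hP hu, ha⟩)⟩
        · push Not at ha
          obtain ⟨u, hu, l, hl⟩ := V1' P z' (hP.trans y1) hne (up P z' hP ha hc)
          exact ⟨u, hu, Or.inr (mem_inter.2 ⟨(hQ1 u).2 ⟨y1 (hP hu), l, hl⟩, hP hu⟩)⟩,
        fun P hP hne hc => by
        have c1 : Cl1 G D P z := fun u hu w hw hadj =>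
          (hz u (hP hu) w hw hadj).imp_left fun e => hc u hu w e hadj
        constructor
        · by_contra hn
          push Not at hn
          have := V2 P (hP.trans y1) hne fun u hu w hw hadj =>
            (c1 u hu w hw hadj).resolve_right fun e =>
              hn u hu (mem_filter.2 ⟨hP hu, e ▸ hadj⟩)
          exact y3 u0 (hP (this ▸ hu0)) t0
        · obtain ⟨u, hu, l, hl⟩ := V1' P z (hP.trans y1) hne c1
          exact ⟨u, hu, mem_inter.2 ⟨(hQ1 u).2 ⟨y1 (hP hu), l, hl⟩, hP hu⟩⟩⟩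
      (coh_zero _) (by omega)
    have hL : AllLive G (D \ Y) T := Rem.allLive (R := T) ⟨y1, y2, y3, Or.inr ⟨z, hz, y3⟩⟩
      (fun P hP hne hc => by
        rw [V2 P hP hne hc]
        exact ⟨u0, hu0, t0⟩)
    obtain ⟨t, ht, n, hp⟩ := hL.live hzD
    obtain ⟨a, ha⟩ := fam_zero hF
    refine hrun (rA v (mem_inter.1 hv).1 ⟨n + a + 1, fun j hj => ⟨t, ht, ?_⟩⟩)
    obtain ⟨r, hr, hp2⟩ := ha j hj
    have hp3 := hp.symm.trans (PathIn.cons (mem_filter.1 hr).2.symm
      (show z ∉ (Y : Set α) from (mem_sdiff.1 hzD).2) hp2) (by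
        rintro x hx (rfl | hx')
        · rfl
        · exact absurd hx' (mem_sdiff.1 hx).2)
    rw [show n + a + 1 + 2 * j = n + (a + 2 * j + 1) by omega]
    refine hp3.mono ?_
    rintro x (hx | rfl | hx)
    · exact (mem_sdiff.1 hx).1
    · exact (mem_sdiff.1 hzD).1
    · exact y1 hx)
  rw [← mul_sum, ← mul_sum] at hb'
  have hs := sum_le_two (X := K) (R := T ∩ K) (Q := Q2 ∩ K) (f := fun u => nb G C u)
    inter_subset_right inter_subset_right 1 (by
      intro u hu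
      have := (nbo u (hK hu)).1
      by_cases h2 : u ∈ T
      · rw [if_pos (mem_inter.2 ⟨h2, hu⟩)]
        omega
      · by_cases h3 : 2 ≤ nb G C u
        · rw [if_pos (mem_inter.2 ⟨(hQ2 u).2 ⟨hK hu, h2, h3⟩, hu⟩)]
          omega
        · omega)
  obtain ⟨v, hv, hF⟩ := hR K (T ∩ K) (Q2 ∩ K) (fun _ => 0) (k + 1) inter_subset_right
    inter_subset_right hV.inter (coh_zero _) (by
      have e : (2 * (k + 2) + 1) * K.card = (2 * (k + 1) + 1) * K.card + 2 * K.card := by ring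
      omega)
  obtain ⟨v1, v2, v3⟩ := (hQ2 v).1 (mem_inter.1 hv).1
  obtain ⟨q, q1, q2⟩ := (nbo v v1).2 v3
  obtain ⟨a, ha⟩ := fam_zero hF
  refine hrun (runB dC (h.cloPair q1 q2 tA tB fun hh => v2 ((hT' v).2 ⟨v1, hh⟩))
    ⟨a, fun j hj => ?_⟩)
  obtain ⟨r, hr, hp⟩ := ha j hj
  exact ⟨r, (mem_inter.1 hr).1, hp.mono hK⟩

end CD

open CD in
theorem caseD : CaseD := by
  intro α G hR k hk V hT ht ho hd
  obtain ⟨g, c, h⟩ := exists_cyc ht ho
  obtain ⟨k, rfl⟩ : ∃ k', k = k' + 2 := ⟨k - 2, by omega⟩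
  by_contra hrun
  have hCV : (range g).image c ⊆ V := fun x hx => by
    obtain ⟨i, rfl⟩ := h.memC.1 hx
    exact h.mem i
  have e1 := closed_bound (G := G) (V \ (range g).image c)
    (fun u => 2 * nb G ((range g).image c) u) (2 * (k + 2) + 1) _ _ rfl subset_rfl
    (fun _ _ _ hw _ => hw) (fun D _ hD => by
      by_contra hlt
      exact hrun (comp_case hR h hT hD (not_le.1 hlt)))
  have e2 := dd_sdiff (G := G) hCV
  rw [sum_nb_comm] at e2
  rw [← mul_sum] at e1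
  have e3 := h.ddC
  have e4 := card_sdiff_add_card_eq_card hCV
  rw [h.cardC] at e4
  have h5 := h.five
  rw [← e4, mul_add] at hd
  obtain ⟨g', rfl⟩ : ∃ g', g = g' + 1 := ⟨g - 1, by omega⟩
  have e5 : (2 * (k + 2) + 1) * (g' + 1) = (2 * (k + 2) + 1) + 5 * g' + 2 * k * g' := by ring
  omega

end Pool.Agent.P.MP_e76938_co
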