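import Pool.Agent.P.MP_e76938_co.Defs

set_option autoImplicit false

namespace Pool.Agent.P.MP_e76938_co

open Finset

namespace CB

variable {α β : Type} {A : Finset α} {inc : α → β → Prop} {c : β}

/-- the hub `h` meets a vertex of `A` outside the path -/
def Ex (A : Finset α) (inc : α → β → Prop) (t : ℕ) (r : ℕ → α) (h : β) : Prop :=
  ∃ a ∈ A, (∀ l, 1 ≤ l → l ≤ t → r l ≠ a) ∧ inc a h

/-- the path can leave at position `q` -/
def Ep (A : Finset α) (inc : α → β → Prop) (t : ℕ) (r : ℕ → α) (u : ℕ → β) (q : ℕ) : Prop :=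
  ∃ h, Ex A inc t r h ∧ inc (r q) h ∧ ∀ l, l < q → u l ≠ h

theorem trunc {t : ℕ} {r : ℕ → α} {u : ℕ → β} (h : GP A inc c (t + 1) r u) : GP A inc c t r u := by
  obtain ⟨h0, h1, h2, h3, h4, h5⟩ := h
  exact ⟨h0, fun l a b => h1 l a (by omega),
    fun l m a b d e => h2 l m a (by omega) d (by omega),
    fun l m a b => h3 l m (by omega) (by omega), fun l a => h4 l (by omega),
    fun l a b => h5 l a (by omega)⟩

theorem extend {t : ℕ} {r : ℕ → α} {u : ℕ → β} (ht : 1 ≤ t) (hP : GP A inc c t r u)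
    (he : Ep A inc t r u t) : ∃ r u, GP A inc c (t + 1) r u := by
  obtain ⟨h0, h1, h2, h3, h4, h5⟩ := hP
  obtain ⟨h, ⟨a, ha, haM, hah⟩, hi, hu⟩ := he
  refine ⟨fun l => if l = t + 1 then a else r l, fun l => if l = t then h else u l,
    ?_, ?_, ?_, ?_, ?_, ?_⟩
  · simp only [if_neg (show ¬ 0 = t by omega), h0]
  · intro l l1 l2
    dsimp only
    split_ifs with e
    · exact ha
    · exact h1 l l1 (by omega)
  · intro l m l1 l2 m1 m2
    dsimp only
    split_ifs with e e' e'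
    · intro _; omega
    · intro h; exact absurd h.symm (haM m m1 (by omega))
    · intro h; exact absurd h (haM l l1 (by omega))
    · exact h2 l m l1 (by omega) m1 (by omega)
  · intro l m l1 m1
    dsimp only
    split_ifs with e e' e'
    · intro _; omega
    · intro h; exact absurd h.symm (hu m (by omega))
    · intro h; exact absurd h (hu l (by omega))
    · exact h3 l m (by omega) (by omega)
  · intro l l1
    dsimp only
    by_cases e : l = t
    · rw [if_pos (by omega), if_pos e]; exact hah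
    · rw [if_neg (by omega), if_neg e]; exact h4 l (by omega)
  · intro l l1 l2
    dsimp only
    by_cases e : l = t
    · rw [if_neg (by omega), if_pos e, e]; exact hi
    · rw [if_neg (by omega), if_neg e]; exact h5 l l1 (by omega)

/-- old index of the new position -/
def sg (p a b l : ℕ) : ℕ := if l ≤ p then l else if l ≤ p + b + 1 then l + a else l - (b + 1)

theorem rearr {t j p m : ℕ} {r : ℕ → α} {u : ℕ → β} (hP : GP A inc c t r u)
    (hmax : ∀ r u, GP A inc c t r u → ∀ q, j < q → q ≤ t → ¬ Ep A inc t r u q)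
    (hj : j = 0 ∨ Ep A inc t r u j) (hpj : p ≤ j) (hjm : j < m) (hmt : m ≤ t) {h h' : β}
    (hne : h ≠ h') (ho : ∀ l, l < t → u l = h → l = p ∨ l + 1 = m)
    (ho' : ∀ l, l < t → u l = h' → l = p ∨ l + 1 = m)
    (hc : p = 0 → h = c) (hp : 1 ≤ p → inc (r p) h) (hm : inc (r m) h) (ht : inc (r t) h')
    (hp' : inc (r (p + 1)) h')
    (hcase : (p < j ∧ (¬ Ex A inc t r h ∨ h = u p) ∧ (¬ Ex A inc t r h' ∨ h' = u p)) ∨
      (p = j ∧ Ex A inc t r h')) : False := by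
  have hlate : ∀ l, j < l → l < t → ¬ Ex A inc t r (u l) := fun l l1 l2 hE =>
    hmax r u hP l l1 l2.le ⟨u l, hE, hP.2.2.2.2.2 l (by omega) l2, fun l' hl' e => by
      have := hP.2.2.2.1 l' l (by omega) l2 e
      omega⟩
  obtain ⟨h0, h1, h2, h3, h4, h5⟩ := hP
  obtain ⟨a, rfl⟩ : ∃ a, m = p + 1 + a := ⟨m - (p + 1), by omega⟩
  obtain ⟨b, rfl⟩ : ∃ b, t = p + 1 + a + b := ⟨t - (p + 1 + a), by omega⟩
  have s1 : ∀ l, 1 ≤ l → l ≤ p + 1 + a + b → 1 ≤ sg p a b l ∧ sg p a b l ≤ p + 1 + a + b := by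
    intro l l1 l2; unfold sg; split_ifs <;> omega
  have s2 : ∀ l m, l ≤ p + 1 + a + b → m ≤ p + 1 + a + b → sg p a b l = sg p a b m → l = m := by
    intro l m l1 l2; unfold sg; split_ifs <;> omega
  have s3 : ∀ l, l < p + 1 + a + b → l ≠ p → l ≠ p + b + 1 → sg p a b l < p + 1 + a + b ∧
      sg p a b l ≠ p ∧ sg p a b l + 1 ≠ p + 1 + a ∧ sg p a b (l + 1) = sg p a b l + 1 := by
    intro l l1 l2 l3; unfold sg; split_ifs <;> omega
  have s4 : sg p a b p = p := by unfold sg; simp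
  have s5 : sg p a b (p + 1) = p + 1 + a := by unfold sg; split_ifs <;> omega
  have s6 : sg p a b (p + b + 1) = p + 1 + a + b := by unfold sg; split_ifs <;> omega
  have s7 : sg p a b (p + b + 1 + 1) = p + 1 := by unfold sg; split_ifs <;> omega
  have s8 : sg p a b 0 = 0 := by unfold sg; simp
  obtain ⟨u', hu'⟩ : ∃ u' : ℕ → β, u' = fun l =>
      if l = p then h else if l = p + b + 1 then h' else u (sg p a b l) := ⟨_, rfl⟩
  have e1 : u' p = h := by simp [hu']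
  have e2 : u' (p + b + 1) = h' := by
    rw [hu']; dsimp only; rw [if_neg (by omega), if_pos rfl]
  have e3 : ∀ l, l ≠ p → l ≠ p + b + 1 → u' l = u (sg p a b l) := fun l l1 l2 => by
    rw [hu']; dsimp only; rw [if_neg l1, if_neg l2]
  have hP' : GP A inc c (p + 1 + a + b) (fun l => r (sg p a b l)) u' := by
    refine ⟨?_, fun l l1 l2 => h1 _ (s1 l l1 l2).1 (s1 l l1 l2).2, fun l m l1 l2 m1 m2 e =>
      s2 l m l2 m2 (h2 _ _ (s1 l l1 l2).1 (s1 l l1 l2).2 (s1 m m1 m2).1 (s1 m m1 m2).2 e),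
      ?_, ?_, ?_⟩
    · by_cases e : p = 0
      · rw [← hc e, ← e1, e]
      · rw [e3 0 (by omega) (by omega), s8, h0]
    · intro l m l1 m1 e
      by_cases a1 : l = p
      · by_cases b1 : m = p
        · omega
        · by_cases b2 : m = p + b + 1
          · rw [a1, b2, e1, e2] at e; exact absurd e hne
          · rw [a1, e1, e3 m b1 b2] at e
            have := s3 m m1 b1 b2
            have := ho _ this.1 e.symm
            omega
      · by_cases a2 : l = p + b + 1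
        · by_cases b1 : m = p
          · rw [a2, b1, e1, e2] at e; exact absurd e.symm hne
          · by_cases b2 : m = p + b + 1
            · omega
            · rw [a2, e2, e3 m b1 b2] at e
              have := s3 m m1 b1 b2
              have := ho' _ this.1 e.symm
              omega
        · have hl := s3 l l1 a1 a2
          rw [e3 l a1 a2] at e
          by_cases b1 : m = p
          · rw [b1, e1] at e
            have := ho _ hl.1 e
            omega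
          · by_cases b2 : m = p + b + 1
            · rw [b2, e2] at e
              have := ho' _ hl.1 e
              omega
            · rw [e3 m b1 b2] at e
              exact s2 l m l1.le m1.le (h3 _ _ hl.1 (s3 m m1 b1 b2).1 e)
    · intro l l1
      dsimp only
      by_cases a1 : l = p
      · rw [a1, e1, s5]; exact hm
      · by_cases a2 : l = p + b + 1
        · rw [a2, e2, s7]; exact hp'
        · rw [e3 l a1 a2, (s3 l l1 a1 a2).2.2.2]; exact h4 _ (s3 l l1 a1 a2).1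
    · intro l l0 l1
      dsimp only
      by_cases a1 : l = p
      · rw [a1, e1, s4]; exact hp (by omega)
      · by_cases a2 : l = p + b + 1
        · rw [a2, e2, s6]; exact ht
        · rw [e3 l a1 a2]; exact h5 _ (s1 l l0 l1.le).1 (s3 l l1 a1 a2).1
  have hEx : ∀ w, Ex A inc (p + 1 + a + b) r w →
      Ex A inc (p + 1 + a + b) (fun l => r (sg p a b l)) w := by
    rintro w ⟨x, hx, hxM, hxw⟩
    exact ⟨x, hx, fun l l1 l2 => hxM _ (s1 l l1 l2).1 (s1 l l1 l2).2, hxw⟩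
  rcases hcase with ⟨hpj', x1, x2⟩ | ⟨x1, x2⟩
  · obtain ⟨w, hw, hi, hu⟩ := hj.resolve_left (by omega)
    have s9 : sg p a b (j + (b + 1)) = j := by unfold sg; split_ifs <;> omega
    refine hmax _ _ hP' (j + (b + 1)) (by omega) (by omega) ⟨w, hEx w hw, by
      dsimp only; rw [s9]; exact hi, fun l hl e => ?_⟩
    by_cases a1 : l = p
    · rw [a1, e1] at e
      rcases x1 with x1 | x1
      · exact x1 (e ▸ hw)
      · exact hu p hpj' (x1 ▸ e)
    · by_cases a2 : l = p + b + 1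
      · rw [a2, e2] at e
        rcases x2 with x2 | x2
        · exact x2 (e ▸ hw)
        · exact hu p hpj' (x2 ▸ e)
      · rw [e3 l a1 a2] at e
        have : sg p a b l < j ∨ (j < sg p a b l ∧ sg p a b l < p + 1 + a + b) := by
          unfold sg; split_ifs <;> omega
        rcases this with y | y
        · exact hu _ y e
        · exact hlate _ y.1 y.2 (e ▸ hw)
  · refine hmax _ _ hP' (p + b + 1) (by omega) (by omega) ⟨h', hEx _ x2, by
      dsimp only; rw [s6]; exact ht, fun l hl e => ?_⟩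
    by_cases a1 : l = p
    · rw [a1, e1] at e; exact hne e
    · rw [e3 l a1 (by omega)] at e
      have h6 := s3 l (by omega) a1 (by omega)
      have := ho' _ h6.1 e
      omega

theorem vh_path {St : α → α → Prop} {vh : α → α → β}
    (hvh : ∀ a b, St a b → vh a b ≠ c ∧ ∀ x, inc x (vh a b) ↔ (x = a ∨ x = b))
    {t : ℕ} {r : ℕ → α} {u : ℕ → β} (hP : GP A inc c t r u) {x y : α} (hs : St x y) {q : ℕ}
    (hq : q < t) (e : u q = vh x y) :
    1 ≤ q ∧ ((r q = x ∧ r (q + 1) = y) ∨ (r q = y ∧ r (q + 1) = x)) := by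
  obtain ⟨h0, h1, h2, h3, h4, h5⟩ := hP
  have q1 : 1 ≤ q := by
    by_contra hq0
    obtain rfl : q = 0 := by omega
    exact (hvh x y hs).1 (e.symm.trans h0)
  have a1 := ((hvh x y hs).2 _).1 (e ▸ h4 q hq)
  have a2 := ((hvh x y hs).2 _).1 (e ▸ h5 q q1 hq)
  have a3 : r q ≠ r (q + 1) := fun e' => by
    have := h2 q (q + 1) q1 hq.le (by omega) hq e'
    omega
  refine ⟨q1, ?_⟩
  rcases a1 with a1 | a1 <;> rcases a2 with a2 | a2
  · exact absurd (a2.trans a1.symm) a3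
  · exact Or.inr ⟨a2, a1⟩
  · exact Or.inl ⟨a2, a1⟩
  · exact absurd (a2.trans a1.symm) a3

theorem exists_max (h1 : ∃ a ∈ A, inc a c) {i : ℕ} (hi : ¬ ∃ r u, GP A inc c i r u) :
    ∃ t j r u, t + 1 ≤ i ∧ j < t ∧ GP A inc c t r u ∧ (j = 0 ∨ Ep A inc t r u j) ∧
      ∀ r u, GP A inc c t r u → ∀ q, j < q → q ≤ t → ¬ Ep A inc t r u q := by
  classical
  have hex : ∃ n, ¬ ∃ r u, GP A inc c n r u := ⟨i, hi⟩
  obtain ⟨a, ha, hac⟩ := h1
  have g1 : GP A inc c 1 (fun _ => a) (fun _ => c) :=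
    ⟨rfl, fun _ _ _ => ha, fun _ _ _ _ _ _ _ => by omega, fun _ _ _ _ _ => by omega,
      fun _ _ => hac, fun _ _ _ => hac⟩
  have n1 := Nat.find_spec hex
  have n2 : Nat.find hex ≤ i := Nat.find_min' hex hi
  have n3 : Nat.find hex ≠ 0 := fun e => n1 (e ▸ ⟨_, _, trunc g1⟩)
  have n4 : Nat.find hex ≠ 1 := fun e => n1 (e ▸ ⟨_, _, g1⟩)
  obtain ⟨t, ht⟩ : ∃ t, Nat.find hex = t + 1 := ⟨Nat.find hex - 1, by omega⟩
  obtain ⟨r0, u0, hP0⟩ := not_not.mp (Nat.find_min hex (show t < Nat.find hex by omega))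
  rw [ht] at n1 n2
  obtain ⟨Q, hQ⟩ : ∃ Q : ℕ → Prop, ∀ q, Q q ↔
      ∃ r u, GP A inc c t r u ∧ (q = 0 ∨ Ep A inc t r u q) := ⟨_, fun _ => Iff.rfl⟩
  have q0 : Q 0 := (hQ 0).2 ⟨r0, u0, hP0, Or.inl rfl⟩
  obtain ⟨r, u, hP, hj⟩ := (hQ _).1 (Nat.findGreatest_spec (Nat.zero_le t) q0)
  have hle : Nat.findGreatest Q t ≤ t := Nat.findGreatest_le t
  refine ⟨t, Nat.findGreatest Q t, r, u, n2, ?_, hP, hj, fun r' u' hP' q q1 q2 he =>
    Nat.findGreatest_is_greatest q1 q2 ((hQ q).2 ⟨r', u', hP', Or.inr he⟩)⟩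
  by_contra hlt
  have e : Nat.findGreatest Q t = t := by omega
  rw [e] at hj
  exact n1 (extend (by omega) hP (hj.resolve_left (by omega)))

end CB

open CB in
theorem claimB : ClaimB := by
  intro α β A Hb inc c St vh i hsym hirr hvh h1 hi
  classical
  obtain ⟨t, j, r, u, hti, hjt, hP, hj, hmax⟩ := exists_max h1 hi
  have hP' := hP
  obtain ⟨h0, hA, hr, hu, h4, h5⟩ := hP'
  have hlate : ∀ l, j < l → l < t → ¬ Ex A inc t r (u l) := fun l l1 l2 hE =>
    hmax r u hP l l1 l2.le ⟨u l, hE, h5 l (by omega) l2, fun l' hl' e => by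
      have := hu l' l (by omega) l2 e
      omega⟩
  obtain ⟨Late, hL⟩ : ∃ Late : β → Prop, ∀ h, Late h ↔ inc (r t) h ∧ h ≠ c ∧
      ((∀ l, l < t → u l ≠ h) ∨ (∃ l, j < l ∧ l < t ∧ u l = h) ∨
        (u j = h ∧ ¬ Ex A inc t r h)) := ⟨_, fun _ => Iff.rfl⟩
  have hLE : ∀ h, Late h → ¬ Ex A inc t r h := by
    intro h hh hE
    obtain ⟨a1, -, a2 | ⟨l, l1, l2, rfl⟩ | a2⟩ := (hL h).1 hh
    · exact hmax r u hP t hjt le_rfl ⟨h, hE, a1, a2⟩
    · exact hlate l l1 l2 hE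
    · exact a2.2 hE
  have hvE : ∀ a b, 1 ≤ a → a ≤ t → 1 ≤ b → b ≤ t → St (r a) (r b) →
      ¬ Ex A inc t r (vh (r a) (r b)) := by
    rintro a b a1 a2 b1 b2 hs ⟨x, -, hx, hi⟩
    rcases ((hvh _ _ hs).2 x).1 hi with e | e
    · exact hx a a1 a2 e.symm
    · exact hx b b1 b2 e.symm
  have hvq : ∀ a b q, 1 ≤ a → a ≤ t → 1 ≤ b → b ≤ t → St (r a) (r b) → q < t →
      u q = vh (r a) (r b) → (q = a ∧ q + 1 = b) ∨ (q = b ∧ q + 1 = a) := by
    intro a b q a1 a2 b1 b2 hs hq e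
    obtain ⟨q1, ⟨e1, e2⟩ | ⟨e1, e2⟩⟩ := vh_path hvh hP hs hq e
    · exact Or.inl ⟨hr _ _ q1 hq.le a1 a2 e1, hr _ _ (by omega) hq b1 b2 e2⟩
    · exact Or.inr ⟨hr _ _ q1 hq.le b1 b2 e1, hr _ _ (by omega) hq a1 a2 e2⟩
  obtain ⟨D, hD⟩ : ∃ D : Finset ℕ, ∀ p, p ∈ D ↔ p ≤ j ∧ 1 ≤ p ∧ ((∃ h, Late h ∧ inc (r p) h) ∨
      ∃ l, j < l ∧ l ≤ t ∧ St (r t) (r l) ∧ St (r l) (r p)) :=
    ⟨(range (j + 1)).filter (fun p => 1 ≤ p ∧ ((∃ h, Late h ∧ inc (r p) h) ∨
      ∃ l, j < l ∧ l ≤ t ∧ St (r t) (r l) ∧ St (r l) (r p))),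
      fun p => by rw [mem_filter, mem_range, Nat.lt_succ_iff]⟩
  obtain ⟨Al, hAl⟩ : ∃ Al : Finset ℕ, ∀ p, p ∈ Al ↔ p ≤ j ∧ inc (r t) (u p) ∧ ¬ Late (u p) :=
    ⟨(range (j + 1)).filter (fun p => inc (r t) (u p) ∧ ¬ Late (u p)),
      fun p => by rw [mem_filter, mem_range, Nat.lt_succ_iff]⟩
  obtain ⟨Ga, hGa⟩ : ∃ Ga : Finset ℕ, ∀ p, p ∈ Ga ↔ p < j ∧ St (r t) (r (p + 1)) :=
    ⟨(range j).filter (fun p => St (r t) (r (p + 1))), fun p => by rw [mem_filter, mem_range]⟩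
  obtain ⟨Z, hZ⟩ : ∃ Z : Finset α, Z = (Ioc j t).image r ∪ D.image r := ⟨_, rfl⟩
  have hZ1 : ∀ l, j < l → l ≤ t → r l ∈ Z := fun l l1 l2 =>
    hZ ▸ mem_union_left _ (mem_image_of_mem _ (mem_Ioc.2 ⟨l1, l2⟩))
  have hZ2 : ∀ p ∈ D, r p ∈ Z := fun p hp => hZ ▸ mem_union_right _ (mem_image_of_mem _ hp)
  have hZ3 : ∀ a ∈ Z, ∃ l, 1 ≤ l ∧ l ≤ t ∧ r l = a := by
    intro a ha
    rw [hZ, mem_union, mem_image, mem_image] at ha
    rcases ha with ⟨l, hl, e⟩ | ⟨l, hl, e⟩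
    · rw [mem_Ioc] at hl; exact ⟨l, by omega, hl.2, e⟩
    · rw [hD] at hl; exact ⟨l, hl.2.1, by omega, e⟩
  have inM : ∀ h a, ¬ Ex A inc t r h → a ∈ A → inc a h → ∃ l, 1 ≤ l ∧ l ≤ t ∧ r l = a := by
    intro h a hE ha hi
    by_contra hc
    exact hE ⟨a, ha, fun l l1 l2 e => hc ⟨l, l1, l2, e⟩, hi⟩
  -- a hub of a special edge at a late position is not an exit
  have hvN : ∀ l a, j < l → l ≤ t → St (r l) a → ¬ Ex A inc t r (vh (r l) a) := by
    rintro l a l1 l2 hs hE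
    refine hmax r u hP l l1 l2 ⟨_, hE, ((hvh _ _ hs).2 _).2 (Or.inl rfl), fun q hq e => ?_⟩
    obtain ⟨x, -, hx, hi⟩ := hE
    obtain ⟨q1, h6⟩ := vh_path hvh hP hs (show q < t by omega) e
    rcases ((hvh _ _ hs).2 x).1 hi with e' | e'
    · exact hx l (by omega) l2 e'.symm
    · rcases h6 with ⟨-, e2⟩ | ⟨e1, -⟩
      · exact hx (q + 1) (by omega) (by omega) (e2.trans e'.symm)
      · exact hx q q1 (by omega) (e1.trans e'.symm)
  have F1 : ∀ a ∈ A, St (r t) a → a ∈ Z := by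
    intro a ha hs
    have hE := hvN t a hjt le_rfl hs
    have hia : inc a (vh (r t) a) := ((hvh _ _ hs).2 _).2 (Or.inr rfl)
    obtain ⟨p, p1, p2, rfl⟩ := inM _ a hE ha hia
    by_cases hp : j < p
    · exact hZ1 p hp p2
    · refine hZ2 p ((hD p).2 ⟨by omega, p1, Or.inl ⟨_, (hL _).2
        ⟨((hvh _ _ hs).2 _).2 (Or.inl rfl), (hvh _ _ hs).1, ?_⟩, hia⟩⟩)
      by_cases ho : ∀ l, l < t → u l ≠ vh (r t) (r p)
      · exact Or.inl ho
      · push Not at ho
        obtain ⟨q, q1, e⟩ := ho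
        have := hvq t p q (by omega) le_rfl p1 p2 hs q1 e
        obtain rfl : q = j := by omega
        exact Or.inr (Or.inr ⟨e, hE⟩)
  -- the first new hub for a position in `D`
  have hDh : ∀ p ∈ D, ∃ m h, j < m ∧ m ≤ t ∧ (∀ l, l < t → u l = h → l = p ∨ l + 1 = m) ∧
      inc (r p) h ∧ inc (r m) h ∧ ¬ Ex A inc t r h ∧ (h = u p → inc (r t) (u p) → Late (u p)) := by
    intro p hp
    obtain ⟨p1, p2, ⟨h, hh, hi⟩ | ⟨l, l1, l2, s1, s2⟩⟩ := (hD p).1 hp
    · obtain ⟨a1, -, a2 | ⟨l, l1, l2, rfl⟩ | a2⟩ := (hL h).1 hh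
      · exact ⟨t, h, hjt, le_rfl, fun l hl e => absurd e (a2 l hl), hi, a1, hLE h hh,
          fun e _ => e ▸ hh⟩
      · exact ⟨l + 1, _, by omega, l2, fun l' hl e => Or.inr (by rw [hu _ _ hl l2 e]), hi,
          h4 l l2, hLE _ hh, fun e _ => e ▸ hh⟩
      · obtain ⟨rfl, -⟩ := a2
        exact ⟨j + 1, _, by omega, hjt, fun l' hl e => Or.inr (by rw [hu _ _ hl hjt e]), hi,
          h4 j hjt, hLE _ hh, fun e _ => e ▸ hh⟩
    · have lt : l ≠ t := fun e => hirr _ (e ▸ s1)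
      refine ⟨l, vh (r l) (r p), l1, l2, fun q hq e => ?_, ((hvh _ _ s2).2 _).2 (Or.inr rfl),
        ((hvh _ _ s2).2 _).2 (Or.inl rfl), hvE l p (by omega) l2 p2 (by omega) s2,
        fun e hi => ?_⟩
      · have := hvq l p q (by omega) l2 p2 (by omega) s2 hq e
        omega
      · rcases ((hvh _ _ s2).2 _).1 (e ▸ hi) with e' | e'
        · exact absurd (hr _ _ (by omega) le_rfl (by omega) l2 e') lt.symm
        · have := hr _ _ (by omega) le_rfl p2 (by omega) e'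
          omega
  have d1 : Disjoint D Al := by
    refine disjoint_left.2 fun p hp hp' => ?_
    obtain ⟨m, h, m1, m2, ho, i1, i2, hE, hl⟩ := hDh p hp
    obtain ⟨p1, p2, -⟩ := (hD p).1 hp
    obtain ⟨-, a1, a2⟩ := (hAl p).1 hp'
    refine rearr (h' := u p) hP hmax hj p1 m1 m2 (fun e => a2 (hl e a1)) ho
      (fun l hl e => Or.inl (hu _ _ hl (by omega) e)) (by omega) (fun _ => i1) i2 a1
      (h4 p (by omega)) ?_
    by_cases hpj : p < j
    · exact Or.inl ⟨hpj, Or.inl hE, Or.inr rfl⟩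
    · obtain rfl : p = j := by omega
      refine Or.inr ⟨rfl, by_contra fun hN => a2 ((hL _).2 ⟨a1, fun e => ?_,
        Or.inr (Or.inr ⟨rfl, hN⟩)⟩)⟩
      have := hu p 0 hjt (by omega) (e.trans h0.symm)
      omega
  have d2 : Disjoint Al Ga := by
    refine disjoint_left.2 fun p hp hp' => ?_
    obtain ⟨p1, a1, a2⟩ := (hAl p).1 hp
    obtain ⟨p2, s1⟩ := (hGa p).1 hp'
    refine rearr (h := u p) (h' := vh (r t) (r (p + 1))) hP hmax hj p1 hjt le_rfl (fun e => ?_)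
      (fun l hl e => Or.inl (hu _ _ hl (by omega) e)) (fun q hq e => ?_) (fun e => e ▸ h0)
      (fun e => h5 p e (by omega)) a1 (((hvh _ _ s1).2 _).2 (Or.inl rfl))
      (((hvh _ _ s1).2 _).2 (Or.inr rfl))
      (Or.inl ⟨p2, Or.inr rfl, Or.inl (hvN t _ hjt le_rfl s1)⟩)
    · have := hvq t (p + 1) p (by omega) le_rfl (by omega) (by omega) s1 (by omega) e
      omega
    · have := hvq t (p + 1) q (by omega) le_rfl (by omega) (by omega) s1 hq e
      omega
  have d3 : Disjoint D Ga := by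
    refine disjoint_left.2 fun p hp hp' => ?_
    obtain ⟨m, h, m1, m2, ho, i1, i2, hE, -⟩ := hDh p hp
    obtain ⟨p1, p2, -⟩ := (hD p).1 hp
    obtain ⟨p3, s1⟩ := (hGa p).1 hp'
    refine rearr (h' := vh (r t) (r (p + 1))) hP hmax hj p1 m1 m2 (fun e => ?_) ho
      (fun q hq e => ?_) (by omega) (fun _ => i1) i2 (((hvh _ _ s1).2 _).2 (Or.inl rfl))
      (((hvh _ _ s1).2 _).2 (Or.inr rfl))
      (Or.inl ⟨p3, Or.inl hE, Or.inl (hvN t _ hjt le_rfl s1)⟩)
    · rcases ((hvh _ _ s1).2 _).1 (e ▸ i1) with e' | e'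
      · have := hr _ _ p2 (by omega) (by omega) le_rfl e'
        omega
      · have := hr _ _ p2 (by omega) (by omega) (by omega) e'
        omega
    · have := hvq t (p + 1) q (by omega) le_rfl (by omega) (by omega) s1 hq e
      omega
  refine ⟨r t, hA t (by omega) le_rfl, Z, fun a ha => ?_, hZ1 t hjt le_rfl, F1, ?_⟩
  · obtain ⟨l, l1, l2, rfl⟩ := hZ3 a ha
    exact hA l l1 l2
  have c1 : Z.card ≤ (t - j) + D.card := by
    rw [hZ]
    refine (card_union_le _ _).trans (Nat.add_le_add (card_image_le.trans ?_) card_image_le)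
    rw [Nat.card_Ioc]
  have c4 : D.card + Al.card + Ga.card ≤ j + 1 := by
    rw [← card_union_of_disjoint d1, ← card_union_of_disjoint (disjoint_union_left.2 ⟨d3, d2⟩)]
    refine (card_le_card fun p hp => ?_).trans (card_range (j + 1)).le
    rw [mem_union, mem_union, hD, hAl, hGa] at hp
    rw [mem_range]
    omega
  refine le_trans (Nat.add_le_add (Nat.add_le_add c1 (?_ : _ ≤ Al.card)) (?_ : _ ≤ Ga.card))
    (by omega)
  · refine (card_le_card fun h hh => ?_).trans (card_image_le (f := u))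
    obtain ⟨-, a1, a2⟩ := mem_filter.1 hh
    by_cases hc : h = c
    · exact mem_image.2 ⟨0, (hAl 0).2 ⟨Nat.zero_le _, by rw [h0, ← hc]; exact a1,
        fun hl => ((hL _).1 hl).2.1 h0⟩, h0.trans hc.symm⟩
    · obtain ⟨a, ha, haZ, hi⟩ := a2.resolve_left hc
      have nl : ¬ Late h := fun hl => by
        obtain ⟨p, p1, p2, rfl⟩ := inM h a (hLE h hl) ha hi
        by_cases hp : j < p
        · exact haZ (hZ1 p hp p2)
        · exact haZ (hZ2 p ((hD p).2 ⟨by omega, p1, Or.inl ⟨h, hl, hi⟩⟩))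
      have ho : ¬ ∀ l, l < t → u l ≠ h := fun ho => nl ((hL h).2 ⟨a1, hc, Or.inl ho⟩)
      push Not at ho
      obtain ⟨l, l1, rfl⟩ := ho
      refine mem_image.2 ⟨l, (hAl l).2 ⟨?_, a1, nl⟩, rfl⟩
      by_contra hl
      exact nl ((hL _).2 ⟨a1, hc, Or.inr (Or.inl ⟨l, by omega, l1, rfl⟩)⟩)
  · refine (card_le_card fun a ha => ?_).trans (card_image_le (f := fun p => r (p + 1)))
    obtain ⟨a0, s1, b, hb, hbZ, s2⟩ := mem_filter.1 ha
    obtain ⟨l, l1, l2, rfl⟩ := hZ3 a (F1 a a0 s1)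
    by_cases hl : j < l
    · obtain ⟨p, p1, p2, rfl⟩ := inM _ b (hvN l b hl l2 s2) hb (((hvh _ _ s2).2 _).2 (Or.inr rfl))
      by_cases hp : j < p
      · exact absurd (hZ1 p hp p2) hbZ
      · exact absurd (hZ2 p ((hD p).2 ⟨by omega, p1, Or.inr ⟨l, hl, l2, s1, s2⟩⟩)) hbZ
    · obtain ⟨p, rfl⟩ : ∃ p, l = p + 1 := ⟨l - 1, by omega⟩
      exact mem_image.2 ⟨p, (hGa p).2 ⟨by omega, s1⟩, rfl⟩

end Pool.Agent.P.MP_e76938_co
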