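import Pool.Agent.P.MP_e76938_co.Rdt

set_option autoImplicit false

namespace Pool.Agent.P.MP_e76938_co.ConsecEven

/-- For every `k ≥ 2`, every graph on `n ≥ 1` vertices with more than `(2k+1)(n-1)/2` edges has
cycles of `k` consecutive even lengths. -/
theorem result : ∀ k : ℕ, 2 ≤ k → ∀ n : ℕ, 1 ≤ n → ∀ G : SimpleGraph (Fin n),
    (2 * k + 1) * (n - 1) < 2 * G.edgeSet.ncard →
    ∃ l : ℕ, ∀ j < k, ∃ (v : Fin n) (w : G.Walk v v),
      w.IsCycle ∧ w.length = 2 * l + 2 * j := by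
  intro k hk
  exact Pool.Agent.P.MP_e76938_co.final.1 k hk

end Pool.Agent.P.MP_e76938_co.ConsecEven
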