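import Pool.Agent.P.MP_e76938_co.Paths

set_option autoImplicit false

namespace Pool.Agent.P.MP_e76938_co

open Finset SimpleGraph Classical

variable {α : Type} {G : SimpleGraph α}

theorem nb_eq_sum (X : Finset α) (u : α) :
    nb G X u = ∑ w ∈ X, if G.Adj u w then 1 else 0 := by
  unfold nb
  rw [card_filter]

theorem nb_union {X Y : Finset α} (h : Disjoint X Y) (u : α) :
    nb G (X ∪ Y) u = nb G X u + nb G Y u := by
  simp only [nb_eq_sum]
  rw [sum_union h]

theorem nb_mono {X Y : Finset α} (h : X ⊆ Y) (u : α) : nb G X u ≤ nb G Y u :=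
  card_le_card (filter_subset_filter _ h)

theorem nb_singleton (x u : α) : nb G {x} u = if G.Adj u x then 1 else 0 := by
  rw [nb_eq_sum, sum_singleton]

theorem nb_pair {x y : α} (h : x ≠ y) (u : α) :
    nb G {x, y} u = (if G.Adj u x then 1 else 0) + (if G.Adj u y then 1 else 0) := by
  rw [nb_eq_sum, sum_pair h]

theorem nb_eq_zero {X : Finset α} {u : α} (h : ∀ w ∈ X, ¬ G.Adj u w) : nb G X u = 0 := by
  unfold nb
  rw [card_eq_zero, filter_eq_empty_iff]
  exact h

theorem nb_le_one {X : Finset α} {u z : α} (h : ∀ w ∈ X, G.Adj u w → w = z) :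
    nb G X u ≤ if G.Adj u z then 1 else 0 := by
  split_ifs with hz
  · unfold nb
    refine card_le_one.2 ?_
    intro a ha b hb
    simp only [mem_filter] at ha hb
    rw [h a ha.1 ha.2, h b hb.1 hb.2]
  · rw [nb_eq_zero]
    intro w hw ha
    exact hz (h w hw ha ▸ ha)

theorem sum_nb_comm (X Y : Finset α) : ∑ u ∈ X, nb G Y u = ∑ w ∈ Y, nb G X w := by
  simp only [nb_eq_sum]
  rw [sum_comm]
  refine sum_congr rfl fun w _ => sum_congr rfl fun u _ => ?_
  simp only [G.adj_comm]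

theorem dd_union {X Y : Finset α} (h : Disjoint X Y) :
    dd G (X ∪ Y) = dd G X + dd G Y + 2 * ∑ u ∈ Y, nb G X u := by
  unfold dd
  rw [sum_union h]
  simp only [nb_union h, sum_add_distrib]
  rw [sum_nb_comm X Y]
  ring

theorem dd_sdiff {W Y : Finset α} (h : Y ⊆ W) :
    dd G W = dd G (W \ Y) + dd G Y + 2 * ∑ u ∈ Y, nb G (W \ Y) u := by
  rw [← dd_union sdiff_disjoint, sdiff_union_of_subset h]

theorem card_inter_eq_sum (X Y : Finset α) :
    (X ∩ Y).card = ∑ u ∈ Y, if u ∈ X then 1 else 0 := by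
  rw [← card_filter, inter_comm, filter_mem_eq_inter]

/-- `u` can reach `Q` inside `W` -/
def Live (G : SimpleGraph α) (W Q : Finset α) (u : α) : Prop :=
  ∃ q ∈ Q, ∃ n, PathIn G (W : Set α) u q n

/-- every nonempty closed subset of `W` meets `Q` -/
def AllLive (G : SimpleGraph α) (W Q : Finset α) : Prop :=
  ∀ P, P ⊆ W → P.Nonempty → Cl0 G W P → ∃ u ∈ P, u ∈ Q

theorem dead_closed (W Q : Finset α) : Cl0 G W (W.filter (fun u => ¬ Live G W Q u)) := by
  intro u hu w hw hadj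
  simp only [mem_filter] at hu ⊢
  refine ⟨hw, ?_⟩
  rintro ⟨q, hq, n, hp⟩
  obtain ⟨m, hm⟩ := PathIn.step hadj (show u ∈ (W : Set α) from hu.1) hp
  exact hu.2 ⟨q, hq, m, hm⟩

theorem live_closed (W Q : Finset α) : Cl0 G W (W.filter (fun u => Live G W Q u)) := by
  intro u hu w hw hadj
  simp only [mem_filter] at hu ⊢
  refine ⟨hw, ?_⟩
  obtain ⟨q, hq, n, hp⟩ := hu.2
  obtain ⟨m, hm⟩ := PathIn.step hadj.symm (show w ∈ (W : Set α) from hw) hp
  exact ⟨q, hq, m, hm⟩

theorem dead_notMem {W Q : Finset α} {u : α} (hu : u ∈ W.filter (fun u => ¬ Live G W Q u)) :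
    u ∉ Q := by
  intro hq
  simp only [mem_filter] at hu
  exact hu.2 ⟨u, hq, 0, PathIn.refl hu.1⟩

theorem AllLive.live {W Q : Finset α} (h : AllLive G W Q) {u : α} (hu : u ∈ W) :
    Live G W Q u := by
  by_contra hc
  obtain ⟨v, hv, hq⟩ := h _ (filter_subset _ _) ⟨u, mem_filter.2 ⟨hu, hc⟩⟩ (dead_closed W Q)
  exact dead_notMem hv hq

theorem allLive_of_live {W Q : Finset α} (h : ∀ u ∈ W, Live G W Q u) : AllLive G W Q := by
  intro P hP ⟨u, hu⟩ hc
  obtain ⟨q, hq, n, hp⟩ := h u (hP hu)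
  exact ⟨q, (hp.closed (P := (P : Set α)) hu hc).right_mem, hq⟩

theorem allLive_live (W Q : Finset α) : AllLive G (W.filter (fun u => Live G W Q u)) Q := by
  apply allLive_of_live
  intro u hu
  obtain ⟨q, hq, n, hp⟩ := (mem_filter.1 hu).2
  exact ⟨q, hq, n, hp.closed hu (live_closed W Q)⟩

theorem Valid.allLive {V R Q : Finset α} (h : Valid G V R Q) : AllLive G V Q :=
  fun P h1 h2 h3 => (h.2 P h1 h2 h3).2

theorem Valid.allLiveR {V R Q : Finset α} (h : Valid G V R Q) : AllLive G V R :=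
  fun P h1 h2 h3 => (h.2 P h1 h2 h3).1

theorem Valid.inter {V R Q : Finset α} (h : Valid G V R Q) : Valid G V (R ∩ V) (Q ∩ V) := by
  constructor
  · intro P z h1 h2 h3
    obtain ⟨u, hu, h4⟩ := h.1 P z h1 h2 h3
    exact ⟨u, hu, by simpa [h1 hu] using h4⟩
  · intro P h1 h2 h3
    obtain ⟨⟨u, hu, h4⟩, ⟨v, hv, h5⟩⟩ := h.2 P h1 h2 h3
    exact ⟨⟨u, hu, by simp [h4, h1 hu]⟩, ⟨v, hv, by simp [h5, h1 hv]⟩⟩

/-- last exit from `X` -/
theorem AllLive.last_exit {W Q X : Finset α} (h : AllLive G W Q) (hX : X ⊆ W) (hne : X.Nonempty) :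
    ∃ r ∈ X, ∃ q ∈ Q, ∃ m, PathIn G (((W : Set α) \ X) ∪ {r}) r q m := by
  obtain ⟨a, ha⟩ := hne
  obtain ⟨q, hq, n, hp⟩ := h.live (hX ha)
  obtain ⟨r, hr, -, m, hm⟩ := hp.exists_last (X := (X : Set α)) ha
  exact ⟨r, hr, q, hq, m, hm⟩

/-- removable sets -/
def Rem (G : SimpleGraph α) (W R Q Y : Finset α) : Prop :=
  Y ⊆ W ∧ Y.Nonempty ∧ (∀ u ∈ Y, u ∉ R) ∧
    (Cl0 G W Y ∨ ∃ z, Cl1 G W Y z ∧ ∀ u ∈ Y, u ∉ Q)

theorem Rem.allLive {W R Q Y : Finset α} (hY : Rem G W R Q Y) (h : AllLive G W Q) :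
    AllLive G (W \ Y) Q := by
  intro P hP hne hc
  have hPW : P ⊆ W := hP.trans sdiff_subset
  by_cases hadj : ∃ u ∈ P, ∃ w ∈ Y, G.Adj u w
  · obtain ⟨u, hu, w, hw, hadj⟩ := hadj
    have huY : u ∉ Y := (mem_sdiff.1 (hP hu)).2
    rcases hY.2.2.2 with h0 | ⟨z, hz, hQ⟩
    · exact absurd (h0 w hw u (hPW hu) hadj.symm) huY
    · have huz : u = z := (hz w hw u (hPW hu) hadj.symm).resolve_left huY
      obtain ⟨v, hv, hq⟩ := h (P ∪ Y) (union_subset hPW hY.1) (hne.mono subset_union_left) (by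
        intro a ha b hb hab
        rcases mem_union.1 ha with ha | ha
        · by_cases hbY : b ∈ Y
          · simp [hbY]
          · simp [hc a ha b (mem_sdiff.2 ⟨hb, hbY⟩) hab]
        · rcases hz a ha b hb hab with h1 | h1
          · simp [h1]
          · simp [h1, ← huz, hu])
      rcases mem_union.1 hv with hv | hv
      · exact ⟨v, hv, hq⟩
      · exact absurd hq (hQ v hv)
  · push Not at hadj
    refine h P hPW hne ?_
    intro a ha b hb hab
    exact hc a ha b (mem_sdiff.2 ⟨hb, fun hbY => hadj a ha b hbY hab⟩) hab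

/-- exit vertices of `Y` inside `W` -/
noncomputable def Ex (G : SimpleGraph α) (W Q Y : Finset α) : Finset α :=
  Y.filter (fun u => u ∈ Q ∨ ∃ w ∈ W, w ∉ Y ∧ G.Adj u w)

theorem Ex_subset (W Q Y : Finset α) : Ex G W Q Y ⊆ Y := filter_subset _ _

theorem mem_Ex {W Q Y : Finset α} {u : α} :
    u ∈ Ex G W Q Y ↔ u ∈ Y ∧ (u ∈ Q ∨ ∃ w ∈ W, w ∉ Y ∧ G.Adj u w) := mem_filter

theorem Ex_route {W Q Y : Finset α} (h : AllLive G (W \ Y) Q) {v : α} (hv : v ∈ Ex G W Q Y) :
    ∃ q ∈ Q, ∃ m, PathIn G (((W \ Y : Finset α) : Set α) ∪ {v}) v q m := by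
  obtain ⟨hvY, hq | ⟨w, hw, hwY, hadj⟩⟩ := mem_Ex.1 hv
  · exact ⟨v, hq, 0, PathIn.refl (by simp)⟩
  · obtain ⟨q, hq, n, hp⟩ := h.live (mem_sdiff.2 ⟨hw, hwY⟩)
    refine ⟨q, hq, n + 1, (PathIn.cons hadj (by simp [hvY]) hp).mono ?_⟩
    intro x hx
    rcases hx with rfl | hx
    · simp
    · exact Or.inl hx

theorem Rem.ex_le {W R Q Y : Finset α} (hY : Rem G W R Q Y) {u : α} (hu : u ∈ Y) :
    (if u ∈ Q then 1 else 0) + nb G (W \ Y) u ≤ if u ∈ Ex G W Q Y then 1 else 0 := by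
  rcases hY.2.2.2 with h0 | ⟨z, hz, hQ⟩
  · rw [nb_eq_zero (fun w hw ha => (mem_sdiff.1 hw).2 (h0 u hu w (mem_sdiff.1 hw).1 ha))]
    split_ifs with h1 h2
    · rfl
    · exact absurd (mem_Ex.2 ⟨hu, Or.inl h1⟩) h2
    · simp
    · rfl
  · rw [if_neg (hQ u hu), zero_add]
    split_ifs with h1
    · refine (nb_le_one (z := z) ?_).trans (by split_ifs <;> simp)
      intro w hw ha
      exact (hz u hu w (mem_sdiff.1 hw).1 ha).resolve_left (mem_sdiff.1 hw).2
    · rw [nb_eq_zero]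
      intro w hw ha
      exact h1 (mem_Ex.2 ⟨hu, Or.inr ⟨w, (mem_sdiff.1 hw).1, (mem_sdiff.1 hw).2, ha⟩⟩)

/-- the core lemma -/
theorem core (R Q : Finset α) : ∀ (n : ℕ) (W : Finset α), W.card = n → AllLive G W Q →
    ∃ K ⊆ W, Valid G K R Q ∧
      (∀ u ∈ W, u ∉ K → ∃ Y, Rem G W R Q Y ∧ u ∈ Y ∧ ∀ x ∈ Y, x ∉ K) ∧
      ∀ (w : α → ℕ) (θ : ℕ),
        (∀ Y, Rem G W R Q Y →
          dd G Y + 2 * ∑ u ∈ Y, nb G (W \ Y) u + ∑ u ∈ Y, w u ≤ θ * Y.card) →
        dd G W + ∑ u ∈ W, w u + θ * K.card ≤ dd G K + ∑ u ∈ K, w u + θ * W.card := by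
  intro n
  induction n using Nat.strong_induction_on with
  | _ n ih =>
  intro W hW hL
  by_cases hex : ∃ Y, Rem G W R Q Y
  · obtain ⟨Y, hY, hmax⟩ := exists_max_image (W.powerset.filter (fun Y => Rem G W R Q Y)) card
      (by obtain ⟨Y, hY⟩ := hex; exact ⟨Y, by simp [hY, hY.1]⟩)
    have hYR : Rem G W R Q Y := (mem_filter.1 hY).2
    have hmax' : ∀ Y', Rem G W R Q Y' → Y'.card ≤ Y.card :=
      fun Y' h => hmax Y' (by simp [h, h.1])
    have hcard : (W \ Y).card + Y.card = W.card := card_sdiff_add_card_eq_card hYR.1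
    have hpos := hYR.2.1.card_pos
    obtain ⟨K, hK, hV, h1, h2⟩ := ih (W \ Y).card (by omega) (W \ Y) rfl (hYR.allLive hL)
    have hno : ∀ Y2, Rem G (W \ Y) R Q Y2 → ∀ u ∈ Y2, ∀ y ∈ Y, ¬ G.Adj u y := by
      intro Y2 h2 u hu y hy hadj
      have huW := mem_sdiff.1 (h2.1 hu)
      rcases hYR.2.2.2 with h0 | ⟨z, hz, hQ⟩
      · exact huW.2 (h0 y hy u huW.1 hadj.symm)
      · have huz : u = z := (hz y hy u huW.1 hadj.symm).resolve_left huW.2
        have hdisj : Disjoint Y2 Y := by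
          rw [Finset.disjoint_left]
          intro a ha
          exact (mem_sdiff.1 (h2.1 ha)).2
        have hrem : Rem G W R Q (Y2 ∪ Y) := by
          refine ⟨union_subset (h2.1.trans sdiff_subset) hYR.1, h2.2.1.mono subset_union_left,
            ?_, ?_⟩
          · intro a ha
            rcases mem_union.1 ha with ha | ha
            · exact h2.2.2.1 a ha
            · exact hYR.2.2.1 a ha
          · rcases h2.2.2.2 with h0 | ⟨z2, hz2, hQ2⟩
            · left
              intro a ha b hb hab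
              rcases mem_union.1 ha with ha | ha
              · by_cases hbY : b ∈ Y
                · simp [hbY]
                · simp [h0 a ha b (mem_sdiff.2 ⟨hb, hbY⟩) hab]
              · rcases hz a ha b hb hab with h1 | h1
                · simp [h1]
                · simp [h1, ← huz, hu]
            · right
              refine ⟨z2, ?_, ?_⟩
              · intro a ha b hb hab
                rcases mem_union.1 ha with ha | ha
                · by_cases hbY : b ∈ Y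
                  · simp [hbY]
                  · rcases hz2 a ha b (mem_sdiff.2 ⟨hb, hbY⟩) hab with h1 | h1 <;> simp [h1]
                · rcases hz a ha b hb hab with h1 | h1
                  · simp [h1]
                  · simp [h1, ← huz, hu]
              · intro a ha
                rcases mem_union.1 ha with ha | ha
                · exact hQ2 a ha
                · exact hQ a ha
        have := hmax' _ hrem
        rw [card_union_of_disjoint hdisj] at this
        have := h2.2.1.card_pos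
        omega
    have hup : ∀ Y2, Rem G (W \ Y) R Q Y2 → Rem G W R Q Y2 := by
      intro Y2 h2
      refine ⟨h2.1.trans sdiff_subset, h2.2.1, h2.2.2.1, ?_⟩
      rcases h2.2.2.2 with h0 | ⟨z2, hz2, hQ2⟩
      · left
        intro a ha b hb hab
        exact h0 a ha b (mem_sdiff.2 ⟨hb, fun h => hno Y2 h2 a ha b h hab⟩) hab
      · right
        refine ⟨z2, ?_, hQ2⟩
        intro a ha b hb hab
        exact hz2 a ha b (mem_sdiff.2 ⟨hb, fun h => hno Y2 h2 a ha b h hab⟩) hab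
    refine ⟨K, hK.trans sdiff_subset, hV, ?_, ?_⟩
    · intro u hu huK
      by_cases huY : u ∈ Y
      · exact ⟨Y, hYR, huY, fun x hx hxK => (mem_sdiff.1 (hK hxK)).2 hx⟩
      · obtain ⟨Y2, a1, a2, a3⟩ := h1 u (mem_sdiff.2 ⟨hu, huY⟩) huK
        exact ⟨Y2, hup Y2 a1, a2, a3⟩
    · intro w θ hb
      have e1 := h2 w θ (by
        intro Y2 hY2
        have := hb Y2 (hup Y2 hY2)
        have h3 : ∑ u ∈ Y2, nb G ((W \ Y) \ Y2) u ≤ ∑ u ∈ Y2, nb G (W \ Y2) u :=
          sum_le_sum fun u _ => nb_mono (sdiff_subset_sdiff sdiff_subset subset_rfl) u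
        omega)
      have e2 := hb Y hYR
      have e3 := dd_sdiff (G := G) hYR.1
      have e4 : ∑ u ∈ W \ Y, w u + ∑ u ∈ Y, w u = ∑ u ∈ W, w u := sum_sdiff hYR.1
      rw [← hcard, mul_add]
      omega
  · push Not at hex
    refine ⟨W, subset_rfl, ⟨?_, ?_⟩, fun u hu h => absurd hu h, fun _ _ _ => le_rfl⟩
    · intro P z hP hne hc
      by_contra hcon
      push Not at hcon
      exact hex P ⟨hP, hne, fun u hu => (hcon u hu).1, Or.inr ⟨z, hc, fun u hu => (hcon u hu).2⟩⟩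
    · intro P hP hne hc
      refine ⟨?_, hL P hP hne hc⟩
      by_contra hcon
      push Not at hcon
      exact hex P ⟨hP, hne, hcon, Or.inl hc⟩

/-- a valid set contains no vertex of a removable set -/
theorem Rem.not_mem_core {W K R Q Y : Finset α} (hY : Rem G W R Q Y) (hK : K ⊆ W)
    (hV : Valid G K R Q) : ∀ x ∈ Y, x ∉ K := by
  intro x hx hxK
  have hne : (Y ∩ K).Nonempty := ⟨x, mem_inter.2 ⟨hx, hxK⟩⟩
  rcases hY.2.2.2 with h0 | ⟨z, hz, hQ⟩
  · obtain ⟨u, hu, hR⟩ := (hV.2 _ inter_subset_right hne (by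
      intro a ha b hb hab
      exact mem_inter.2 ⟨h0 a (mem_inter.1 ha).1 b (hK hb) hab, hb⟩)).1
    exact hY.2.2.1 u (mem_inter.1 hu).1 hR
  · obtain ⟨u, hu, hR | hR⟩ := hV.1 _ z inter_subset_right hne (by
      intro a ha b hb hab
      rcases hz a (mem_inter.1 ha).1 b (hK hb) hab with h | h
      · exact Or.inl (mem_inter.2 ⟨h, hb⟩)
      · exact Or.inr h)
    · exact hY.2.2.1 u (mem_inter.1 hu).1 hR
    · exact hQ u (mem_inter.1 hu).1 hR

/-- connected components of `W` -/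
def Comp (G : SimpleGraph α) (W D : Finset α) : Prop :=
  D ⊆ W ∧ D.Nonempty ∧ Cl0 G W D ∧ ∀ P ⊆ D, P.Nonempty → Cl0 G W P → P = D

theorem closed_bound (W : Finset α) (w : α → ℕ) (θ : ℕ) : ∀ (n : ℕ) (X : Finset α), X.card = n →
    X ⊆ W → Cl0 G W X →
    (∀ D ⊆ X, Comp G W D → dd G D + ∑ u ∈ D, w u ≤ θ * D.card) →
    dd G X + ∑ u ∈ X, w u ≤ θ * X.card := by
  intro n
  induction n using Nat.strong_induction_on with
  | _ n ih =>
  intro X hX hXW hc hb
  rcases X.eq_empty_or_nonempty with rfl | hne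
  · simp [dd]
  by_cases hcomp : Comp G W X
  · exact hb X subset_rfl hcomp
  · have : ∃ P ⊆ X, P.Nonempty ∧ Cl0 G W P ∧ P ≠ X := by
      by_contra hcon
      push Not at hcon
      exact hcomp ⟨hXW, hne, hc, hcon⟩
    obtain ⟨P, hP, hPne, hPc, hPX⟩ := this
    have hcard : (X \ P).card + P.card = X.card := card_sdiff_add_card_eq_card hP
    have h1 := card_lt_card (ssubset_of_subset_of_ne hP hPX)
    have h2 := hPne.card_pos
    have e1 := ih P.card (by omega) P rfl (hP.trans hXW) hPc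
      (fun D hD => hb D (hD.trans hP))
    have e2 := ih (X \ P).card (by omega) (X \ P) rfl (sdiff_subset.trans hXW) (by
      intro a ha b hb hab
      refine mem_sdiff.2 ⟨hc a (mem_sdiff.1 ha).1 b hb hab, fun h => ?_⟩
      exact (mem_sdiff.1 ha).2 (hPc b h a (hXW (mem_sdiff.1 ha).1) hab.symm))
      (fun D hD => hb D (hD.trans sdiff_subset))
    have e3 := dd_sdiff (G := G) hP
    have e4 : ∑ u ∈ X \ P, w u + ∑ u ∈ P, w u = ∑ u ∈ X, w u := sum_sdiff hP
    have e5 : ∑ u ∈ P, nb G (X \ P) u = 0 := by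
      refine sum_eq_zero fun u hu => nb_eq_zero fun b hb hab => ?_
      exact (mem_sdiff.1 hb).2 (hPc u hu b (hXW (mem_sdiff.1 hb).1) hab)
    rw [← hcard, mul_add]
    omega

theorem dd_closed {W X : Finset α} (hX : X ⊆ W) (hc : Cl0 G W X) :
    dd G W = dd G (W \ X) + dd G X := by
  rw [dd_sdiff hX, sum_eq_zero, mul_zero, add_zero]
  intro u hu
  exact nb_eq_zero fun b hb hab => (mem_sdiff.1 hb).2 (hc u hu b (mem_sdiff.1 hb).1 hab)

end Pool.Agent.P.MP_e76938_co
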