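import Pool.Agent.P.MP_e76938_co.Undo

set_option autoImplicit false

namespace Pool.Agent.P.MP_e76938_co

open Finset SimpleGraph Classical

variable {α : Type} {G : SimpleGraph α} {V R Q : Finset α} {o : α → ℕ} {i : ℕ}

theorem Ctx.allLive_dead (c : Ctx G V R Q o i) {a a' : α} (haa : G.Adj a a') (ha : a ∈ V)
    (ha' : a' ∈ V) {D : Finset α} (hD : D ⊆ V \ {a, a'}) (hc : Cl0 G (V \ {a, a'}) D)
    (hQ : ∀ u ∈ D, u ∉ Q) : AllLive G (V \ D) Q := by
  intro P hP hne hcP
  have haD : a ∈ V \ D := mem_sdiff.2 ⟨ha, fun h => by simpa using hD h⟩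
  have haD' : a' ∈ V \ D := mem_sdiff.2 ⟨ha', fun h => by simpa using hD h⟩
  by_cases hS : a ∈ P ∨ a' ∈ P
  · have h1 : a ∈ P := by
      rcases hS with h | h
      · exact h
      · exact hcP a' h a haD haa.symm
    have h2 : a' ∈ P := hcP a h1 a' haD' haa
    obtain ⟨u, hu, hq⟩ := (c.valid.2 (P ∪ D)
      (union_subset (hP.trans sdiff_subset) (hD.trans sdiff_subset))
      (hne.mono subset_union_left) (by
        intro x hx y hy hxy
        by_cases hyD : y ∈ D
        · simp [hyD]
        rcases mem_union.1 hx with hx | hx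
        · simp [hcP x hx y (mem_sdiff.2 ⟨hy, hyD⟩) hxy]
        · by_cases hyS : y ∈ ({a, a'} : Finset α)
          · simp only [mem_insert, mem_singleton] at hyS
            rcases hyS with rfl | rfl <;> simp [h1, h2]
          · exact absurd (hc x hx y (mem_sdiff.2 ⟨hy, hyS⟩) hxy) hyD)).2
    rcases mem_union.1 hu with hu | hu
    · exact ⟨u, hu, hq⟩
    · exact absurd hq (hQ u hu)
  · push Not at hS
    refine (c.valid.2 P (hP.trans sdiff_subset) hne ?_).2
    intro x hx y hy hxy
    refine hcP x hx y (mem_sdiff.2 ⟨hy, fun hyD => (mem_sdiff.1 (hP hx)).2 ?_⟩) hxy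
    refine hc y hyD x (mem_sdiff.2 ⟨(mem_sdiff.1 (hP hx)).1, ?_⟩) hxy.symm
    simp only [mem_insert, mem_singleton]
    rintro (rfl | rfl)
    · exact hS.1 hx
    · exact hS.2 hx

/-- a dead component without labels -/
theorem Ctx.dead_nolab (c : Ctx G V R Q o i) {s s' : α} (hss : G.Adj s s') (hs : s ∈ R)
    (hs' : s' ∈ R) {D : Finset α} (hD : Comp G (V \ {s, s'}) D) (hQ : ∀ u ∈ D, u ∉ Q)
    {q : α} (hq : q ∈ Q) {m : ℕ}
    (hp : PathIn G (((V : Set α) \ ((D ∪ {s, s'} : Finset α) : Set α)) ∪ {s}) s q m) :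
    dd G D + 2 * (D.filter (fun u => G.Adj u s')).card + 2 * (D.filter (fun u => G.Adj u s)).card
      ≤ (2 * i + 1) * D.card := by
  have h2i := c.two_le
  have hDV : D ⊆ V := hD.1.trans sdiff_subset
  have hsD : s ∉ D := fun h => by simpa using hD.1 h
  have hsD' : s' ∉ D := fun h => by simpa using hD.1 h
  have hlt : D.card < V.card :=
    card_lt_card (ssubset_of_subset_of_ne hDV (fun h => hsD (h ▸ c.hR hs)))
  have hnb : ∀ x ∈ D, ∀ y ∈ V, G.Adj x y → y ∈ D ∨ y = s ∨ y = s' := by
    intro x hx y hy hxy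
    by_cases hyS : y ∈ ({s, s'} : Finset α)
    · right; simpa using hyS
    · exact Or.inl (hD.2.2.1 x hx y (mem_sdiff.2 ⟨hy, hyS⟩) hxy)
  have hV : Valid G D (D.filter (fun u => G.Adj u s')) (D.filter (fun u => G.Adj u s)) := by
    constructor
    · intro P z hP hne hc
      by_contra hcon
      push Not at hcon
      obtain ⟨u, hu, h⟩ := c.nodead (z := z) (hP.trans hDV) hne (by
        intro x hx y hy hxy
        rcases hnb x (hP hx) y hy hxy with h | rfl | rfl
        · exact hc x hx y h hxy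
        · exact absurd (mem_filter.2 ⟨hP hx, hxy⟩) (hcon x hx).2
        · exact absurd (mem_filter.2 ⟨hP hx, hxy⟩) (hcon x hx).1)
      exact hQ u (hP hu) h
    · intro P hP hne hc
      have hPD : P = D := hD.2.2.2 P hP hne
        (fun x hx y hy hxy => hc x hx y (hD.2.2.1 x (hP hx) y hy hxy) hxy)
      subst hPD
      constructor
      · by_contra hcon
        push Not at hcon
        obtain ⟨u, hu, h⟩ := c.nodead (z := s) hDV hne (by
          intro x hx y hy hxy
          rcases hnb x hx y hy hxy with h | rfl | rfl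
          · exact Or.inl h
          · exact Or.inr rfl
          · exact absurd (mem_filter.2 ⟨hx, hxy⟩) (hcon x hx))
        exact hQ u hu h
      · by_contra hcon
        push Not at hcon
        obtain ⟨u, hu, h⟩ := c.nodead (z := s') hDV hne (by
          intro x hx y hy hxy
          rcases hnb x hx y hy hxy with h | rfl | rfl
          · exact Or.inl h
          · exact absurd (mem_filter.2 ⟨hx, hxy⟩) (hcon x hx)
          · exact Or.inr rfl)
        exact hQ u hu h
  refine c.bound (En := {s'}) (Exi := ((V : Set α) \ ((D ∪ {s, s'} : Finset α) : Set α)) ∪ {s})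
    (f := 1) (cc := 1 + o s') (o' := fun _ => 0) hDV hlt (filter_subset _ _) (filter_subset _ _)
    hV (coh_zero0 _) (by omega) le_rfl le_rfl (by simpa using c.hR hs') ?_ (by simpa using hsD')
    ?_ ?_ ?_ ?_
  · rintro x (hx | hx)
    · exact hx.1
    · rw [Set.mem_singleton_iff.1 hx]; exact c.hR hs
  · rintro x (hx | hx) hxD
    · exact hx.2 (by simp [hxD])
    · exact hsD (Set.mem_singleton_iff.1 hx ▸ hxD)
  · intro x hx
    rw [Set.mem_singleton_iff.1 hx]
    rintro (h | h)
    · exact h.2 (by simp)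
    · exact hss.ne (Set.mem_singleton_iff.1 h).symm
  · intro r hr j hj
    exact ⟨s', hs', 1, PathIn.edge (mem_filter.1 hr).2.symm (by simp) (by simp), by omega⟩
  · intro v hv
    obtain ⟨hvD, hadj⟩ := mem_filter.1 hv
    refine ⟨q, hq, m + 1, (PathIn.cons hadj ?_ hp).mono ?_⟩
    · rintro (h | h)
      · exact h.2 (by simp [hvD])
      · exact hadj.ne (Set.mem_singleton_iff.1 h)
    · rintro x (rfl | hx)
      · simp
      · exact Or.inl hx

theorem Ctx.dead_bound (c : Ctx G V R Q o i) {a a' : α} (haa : G.Adj a a') (ha : a ∈ R)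
    (ha' : a' ∈ R) {X : Finset α} (hX : X ⊆ V \ {a, a'}) (hc : Cl0 G (V \ {a, a'}) X)
    (hQ : ∀ u ∈ X, u ∉ Q) :
    dd G X + ∑ u ∈ X, (2 * (if u ∈ R then 1 else 0) +
      2 * (if G.Adj u a ∨ G.Adj u a' then 1 else 0)) ≤ (2 * i + 1) * X.card := by
  refine closed_bound (V \ {a, a'}) _ _ _ X rfl hX hc ?_
  intro D hDX hD
  have hDQ : ∀ u ∈ D, u ∉ Q := fun u hu => hQ u (hDX hu)
  have hDV : D ⊆ V := hD.1.trans sdiff_subset
  have haD : a ∉ D := fun h => by simpa using hD.1 h
  have haD' : a' ∉ D := fun h => by simpa using hD.1 h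
  rw [sum_add_distrib, ← mul_sum, ← mul_sum, ← card_inter_eq_sum]
  by_cases hR : (R ∩ D).Nonempty
  · have hlt : D.card < V.card :=
      card_lt_card (ssubset_of_subset_of_ne hDV (fun h => haD (h ▸ c.hR ha)))
    have hL := c.allLive_dead haa (c.hR ha) (c.hR ha') hD.1 hD.2.2.1 hDQ
    have hV : Valid G D (R ∩ D) (Ex G V Q D) := by
      refine valid_Ex c.valid hDV (fun u hu h => mem_inter.2 ⟨h, hu⟩) ?_
      intro P hP hne hc
      have hPD : P = D := hD.2.2.2 P hP hne
        (fun x hx y hy hxy => hc x hx y (hD.2.2.1 x (hP hx) y hy hxy) hxy)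
      subst hPD
      obtain ⟨r, hr⟩ := hR
      exact ⟨r, (mem_inter.1 hr).2, hr⟩
    have b1 := c.bound_lab (Exi := ((V \ D : Finset α) : Set α)) hDV hlt (Ex_subset _ _ _) hV
      (by simp) (by intro x hx; exact (mem_sdiff.1 hx).2) (fun v hv => Ex_route hL hv)
    have e1 : ∑ u ∈ D, (if G.Adj u a ∨ G.Adj u a' then 1 else 0) ≤ (Ex G V Q D).card := by
      rw [card_Ex]
      refine sum_le_sum fun u hu => ?_
      split_ifs with h1 h2
      · rfl
      · refine absurd (mem_Ex.2 ⟨hu, Or.inr ?_⟩) h2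
        rcases h1 with h | h
        · exact ⟨a, c.hR ha, haD, h⟩
        · exact ⟨a', c.hR ha', haD', h⟩
      · simp
      · rfl
    omega
  · rw [not_nonempty_iff_eq_empty] at hR
    rw [hR, card_empty]
    have e1 : ∑ u ∈ D, (if G.Adj u a ∨ G.Adj u a' then 1 else 0) ≤
        (D.filter (fun u => G.Adj u a)).card + (D.filter (fun u => G.Adj u a')).card := by
      rw [card_filter, card_filter, ← sum_add_distrib]
      refine sum_le_sum fun u _ => ?_
      by_cases h1 : G.Adj u a <;> by_cases h2 : G.Adj u a' <;> simp [h1, h2]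
    obtain ⟨r, hr, q, hq, m, hp⟩ := c.valid.allLive.last_exit (X := D ∪ {a, a'})
      (union_subset hDV (by simp [insert_subset_iff, c.hR ha, c.hR ha']))
      (hD.2.1.mono subset_union_left)
    rcases mem_union.1 hr with hr | hr
    · obtain ⟨y, hy, hadj, hne⟩ := hp.second (fun h => hDQ r hr (h ▸ hq))
      rcases hy with hy | hy
      · exfalso
        apply hy.2
        by_cases hyS : y ∈ ({a, a'} : Finset α)
        · exact mem_coe.2 (mem_union_right _ hyS)
        · exact mem_coe.2 (mem_union_left _ (hD.2.2.1 r hr y (mem_sdiff.2 ⟨hy.1, hyS⟩) hadj))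
      · exact absurd (Set.mem_singleton_iff.1 hy) hne
    · simp only [mem_insert, mem_singleton] at hr
      rcases hr with rfl | rfl
      · have := c.dead_nolab haa ha ha' hD hDQ hq hp
        omega
      · rw [pair_comm] at hD hp
        have := c.dead_nolab haa.symm ha' ha hD hDQ hq hp
        omega

end Pool.Agent.P.MP_e76938_co
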