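import Mathlib

set_option autoImplicit false

namespace Pool.Agent.P.MP_e76938_co

open Finset

variable {α : Type} (G : SimpleGraph α)

/-- a path from `a` to `b` of length `n` all of whose vertices lie in `W` -/
def PathIn (W : Set α) (a b : α) (n : ℕ) : Prop :=
  ∃ p : G.Walk a b, p.IsPath ∧ p.length = n ∧ ∀ x ∈ p.support, x ∈ W

open Classical in
/-- number of neighbours of `u` in `X` -/
noncomputable def nb (X : Finset α) (u : α) : ℕ := (X.filter (fun w => G.Adj u w)).card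

/-- twice the number of edges inside `X` -/
noncomputable def dd (X : Finset α) : ℕ := ∑ u ∈ X, nb G X u

/-- `P` has no neighbour in `V` outside `P` -/
def Cl0 (V P : Finset α) : Prop := ∀ u ∈ P, ∀ w ∈ V, G.Adj u w → w ∈ P

/-- `P` has no neighbour in `V` outside `P`, except possibly `z` -/
def Cl1 (V P : Finset α) (z : α) : Prop := ∀ u ∈ P, ∀ w ∈ V, G.Adj u w → w ∈ P ∨ w = z

/-- the rooted graph on `V` with entry set `R` and exit set `Q` is 2-connected -/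
def Valid (V R Q : Finset α) : Prop :=
  (∀ P z, P ⊆ V → P.Nonempty → Cl1 G V P z → ∃ u ∈ P, u ∈ R ∨ u ∈ Q) ∧
  (∀ P, P ⊆ V → P.Nonempty → Cl0 G V P → (∃ u ∈ P, u ∈ R) ∧ (∃ u ∈ P, u ∈ Q))

/-- offsets are 0 or 1 and adjacent entry vertices have the same offset -/
def Coh (R : Finset α) (o : α → ℕ) : Prop :=
  (∀ r ∈ R, o r ≤ 1) ∧ ∀ r ∈ R, ∀ s ∈ R, G.Adj r s → o r = o s

/-- `i` paths inside `V` from `R` to `v` whose lengths plus offsets are `a, a+2, ...` -/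
def Fam (V R : Finset α) (o : α → ℕ) (v : α) (i : ℕ) : Prop :=
  ∃ a, ∀ j < i, ∃ r ∈ R, ∃ n, PathIn G (V : Set α) r v n ∧ n + o r = a + 2 * j

/-- the rooted density theorem for one vertex set -/
def RDT (V : Finset α) : Prop :=
  ∀ (R Q : Finset α) (o : α → ℕ) (i : ℕ), R ⊆ V → Q ⊆ V → Valid G V R Q → Coh G R o →
    (2 * i + 1) * V.card < dd G V + 2 * R.card + 2 * Q.card → ∃ v ∈ Q, Fam G V R o v i

/-- `k` cycles of consecutive even lengths -/
def Run (k : ℕ) : Prop :=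
  ∃ l : ℕ, ∀ j < k, ∃ (v : α) (c : G.Walk v v), c.IsCycle ∧ c.length = 2 * l + 2 * j

/-- alternating path `c = u 0, r 1, u 1, ..., u (t-1), r t` in the incidence structure `inc` -/
def GP {β : Type} (A : Finset α) (inc : α → β → Prop) (c : β) (t : ℕ) (r : ℕ → α) (u : ℕ → β) :
    Prop :=
  u 0 = c ∧ (∀ l, 1 ≤ l → l ≤ t → r l ∈ A) ∧
  (∀ l m, 1 ≤ l → l ≤ t → 1 ≤ m → m ≤ t → r l = r m → l = m) ∧
  (∀ l m, l < t → m < t → u l = u m → l = m) ∧
  (∀ l, l < t → inc (r (l + 1)) (u l)) ∧ (∀ l, 1 ≤ l → l < t → inc (r l) (u l))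

open Classical in
/-- the selection lemma (Claim B) -/
def ClaimB : Prop :=
  ∀ (α β : Type) (A : Finset α) (Hb : Finset β) (inc : α → β → Prop) (c : β)
    (St : α → α → Prop) (vh : α → α → β) (i : ℕ),
    (∀ a b, St a b → St b a) → (∀ a, ¬ St a a) →
    (∀ a b, St a b → vh a b ≠ c ∧ ∀ x, inc x (vh a b) ↔ (x = a ∨ x = b)) →
    (∃ a ∈ A, inc a c) →
    (¬ ∃ r u, GP A inc c i r u) →
    ∃ s ∈ A, ∃ Z ⊆ A, s ∈ Z ∧ (∀ a ∈ A, St s a → a ∈ Z) ∧
      Z.card + (Hb.filter (fun h => inc s h ∧ (h = c ∨ ∃ a ∈ A, a ∉ Z ∧ inc a h))).card +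
        (A.filter (fun a => St s a ∧ ∃ b ∈ A, b ∉ Z ∧ St a b)).card ≤ i

/-- the upper bound: many edges force a run of `k` even cycle lengths -/
def MainFromRDT : Prop :=
  ∀ (α : Type) (G : SimpleGraph α), (∀ V : Finset α, RDT G V) →
    ∀ (k : ℕ), 2 ≤ k → ∀ V : Finset α, V.Nonempty →
      (2 * k + 1) * V.card < dd G V + (2 * k + 1) → Run G k

/-- the upper bound -/
def Upper : Prop :=
  ∀ (α : Type) (G : SimpleGraph α) (k : ℕ), 2 ≤ k → ∀ V : Finset α, V.Nonempty →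
      (2 * k + 1) * V.card < dd G V + (2 * k + 1) → Run G k

/-- no vertex of `V` separates `V` -/
def TC (V : Finset α) : Prop :=
  ∀ P z, P ⊆ V → P.Nonempty → Cl1 G V P z → ∀ w ∈ V, w ∈ P ∨ w = z

/-- the triangle-free, non-bipartite case of the upper bound -/
def CaseD : Prop :=
  ∀ (α : Type) (G : SimpleGraph α), (∀ V : Finset α, RDT G V) →
    ∀ (k : ℕ), 2 ≤ k → ∀ V : Finset α, TC G V →
      (∀ x ∈ V, ∀ y ∈ V, ∀ z ∈ V, G.Adj x y → G.Adj y z → ¬ G.Adj z x) →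
      (∃ (v : α) (c : G.Walk v v), c.IsCycle ∧ Odd c.length ∧ ∀ x ∈ c.support, x ∈ V) →
      (2 * k + 1) * V.card < dd G V + (2 * k + 1) → Run G k

/-- the final statement -/
def Final : Prop :=
  (∀ k : ℕ, 2 ≤ k → ∀ n : ℕ, 1 ≤ n → ∀ G : SimpleGraph (Fin n),
      (2 * k + 1) * (n - 1) < 2 * G.edgeSet.ncard →
      ∃ l : ℕ, ∀ j < k, ∃ (v : Fin n) (w : G.Walk v v), w.IsCycle ∧ w.length = 2 * l + 2 * j) ∧
  ∀ k : ℕ, 2 ≤ k →
    IsLeast {c : ℝ | ∀ n : ℕ, 1 ≤ n → ∀ G : SimpleGraph (Fin n),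
        c * n ≤ (G.edgeSet.ncard : ℝ) →
        ∃ (v : Fin n) (w : G.Walk v v), w.IsCycle ∧ w.length ≡ 2 [MOD 2 * k]}
      ((2 * k + 1 : ℝ) / 2)

end Pool.Agent.P.MP_e76938_co
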