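import Pool.Agent.P.MP_e76938_co.Core

set_option autoImplicit false

namespace Pool.Agent.P.MP_e76938_co

open Finset SimpleGraph Classical

variable {α : Type} {G : SimpleGraph α}

/-- a minimal counterexample to the rooted density theorem -/
structure Ctx (G : SimpleGraph α) (V R Q : Finset α) (o : α → ℕ) (i : ℕ) : Prop where
  hR : R ⊆ V
  hQ : Q ⊆ V
  valid : Valid G V R Q
  coh : Coh G R o
  dens : (2 * i + 1) * V.card < dd G V + 2 * R.card + 2 * Q.card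
  nofam : ∀ v ∈ Q, ¬ Fam G V R o v i
  ih : ∀ V' : Finset α, V'.card < V.card → RDT G V'

theorem coh_zero0 (R : Finset α) : Coh G R (fun _ => 0) := ⟨fun _ _ => by simp, fun _ _ _ _ _ => rfl⟩

theorem Coh.mono {R R' : Finset α} {o : α → ℕ} (h : Coh G R o) (hR : R' ⊆ R) : Coh G R' o :=
  ⟨fun r hr => h.1 r (hR hr), fun r hr s hs => h.2 r (hR hr) s (hR hs)⟩

theorem fam_one {Y R Q : Finset α} (o : α → ℕ) (hV : Valid G Y R Q) (hne : Y.Nonempty) :
    ∃ v ∈ Q, Fam G Y R o v 1 := by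
  obtain ⟨r, hr, hrR⟩ := (hV.2 Y subset_rfl hne (fun _ _ w hw _ => hw)).1
  obtain ⟨q, hq, n, hp⟩ := hV.allLive.live hr
  refine ⟨q, hq, n + o r, ?_⟩
  intro j hj
  exact ⟨r, hrR, n, hp, by omega⟩

variable {V R Q : Finset α} {o : α → ℕ} {i : ℕ}

theorem Ctx.ext (c : Ctx G V R Q o i) {Y R' : Finset α} {o' : α → ℕ} {En Exi : Set α}
    {f i' cc : ℕ} (hY : Y ⊆ V) (hi' : 1 ≤ i') (hf1 : 1 ≤ f) (hf : i + 1 ≤ i' + f)
    (hEn : En ⊆ V) (hExi : Exi ⊆ V) (d1 : ∀ x ∈ En, x ∉ Y) (d2 : ∀ x ∈ Exi, x ∉ Y)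
    (d3 : ∀ x ∈ En, x ∉ Exi)
    (entry : ∀ r' ∈ R', r' ∈ Y → ∀ j < f, ∃ r ∈ R, ∃ n, PathIn G (En ∪ {r'}) r r' n ∧
      n + o r = cc + o' r' + 2 * j)
    {v : α} (exit : ∃ q ∈ Q, ∃ m, PathIn G (Exi ∪ {v}) v q m)
    (hF : Fam G Y R' o' v i') : False := by
  obtain ⟨q, hq, m, hm⟩ := exit
  obtain ⟨a, ha⟩ := hF
  refine c.nofam q hq ⟨cc + a + m, ?_⟩
  intro j hj
  obtain ⟨j1, hj1, hj2, hj3⟩ : ∃ j1, j1 < i' ∧ j1 ≤ j ∧ j - j1 < f := by
    by_cases h : j < i'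
    · exact ⟨j, h, le_rfl, by omega⟩
    · exact ⟨i' - 1, by omega, by omega, by omega⟩
  obtain ⟨r', hr', n1, hp1, e1⟩ := ha j1 hj1
  have hr'Y : r' ∈ Y := hp1.left_mem
  have hvY : v ∈ Y := hp1.right_mem
  obtain ⟨r, hr, n0, hp0, e0⟩ := entry r' hr' hr'Y (j - j1) hj3
  have p1 := hp0.trans hp1 (by
    intro x hx hx2
    rcases hx with hx | hx
    · exact absurd hx2 (d1 x hx)
    · exact hx)
  have p2 := p1.trans hm (by
    intro x hx hx2
    rcases hx2 with hx2 | hx2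
    · rcases hx with (hx | hx) | hx
      · exact absurd hx2 (d3 x hx)
      · rw [Set.mem_singleton_iff.1 hx] at hx2
        exact absurd hr'Y (d2 _ hx2)
      · exact absurd hx (d2 x hx2)
    · exact hx2)
  refine ⟨r, hr, _, p2.mono ?_, by omega⟩
  intro x hx
  rcases hx with ((hx | hx) | hx) | hx | hx
  · exact hEn hx
  · rw [Set.mem_singleton_iff.1 hx]; exact hY hr'Y
  · exact hY hx
  · exact hExi hx
  · rw [Set.mem_singleton_iff.1 hx]; exact hY hvY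

theorem Ctx.bound (c : Ctx G V R Q o i) {Y R' Q' : Finset α} {o' : α → ℕ} {En Exi : Set α}
    {f i' cc : ℕ} (hY : Y ⊆ V) (hlt : Y.card < V.card) (hR' : R' ⊆ Y) (hQ' : Q' ⊆ Y)
    (hV : Valid G Y R' Q') (hC : Coh G R' o') (hi' : 1 ≤ i') (hf1 : 1 ≤ f) (hf : i + 1 ≤ i' + f)
    (hEn : En ⊆ V) (hExi : Exi ⊆ V) (d1 : ∀ x ∈ En, x ∉ Y) (d2 : ∀ x ∈ Exi, x ∉ Y)
    (d3 : ∀ x ∈ En, x ∉ Exi)
    (entry : ∀ r' ∈ R', ∀ j < f, ∃ r ∈ R, ∃ n, PathIn G (En ∪ {r'}) r r' n ∧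
      n + o r = cc + o' r' + 2 * j)
    (exit : ∀ v ∈ Q', ∃ q ∈ Q, ∃ m, PathIn G (Exi ∪ {v}) v q m) :
    dd G Y + 2 * R'.card + 2 * Q'.card ≤ (2 * i' + 1) * Y.card := by
  by_contra hcon
  push Not at hcon
  obtain ⟨v, hv, hF⟩ := c.ih Y hlt R' Q' o' i' hR' hQ' hV hC hcon
  exact c.ext hY hi' hf1 hf hEn hExi d1 d2 d3 (fun r hr _ => entry r hr) (exit v hv) hF

theorem Ctx.nonempty (c : Ctx G V R Q o i) : V.Nonempty := by
  rcases V.eq_empty_or_nonempty with h | h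
  · have h1 := c.dens
    have h2 := c.hR
    have h3 := c.hQ
    subst h
    rw [subset_empty] at h2 h3
    subst h2 h3
    simp [dd] at h1
  · exact h

theorem Ctx.two_le (c : Ctx G V R Q o i) : 2 ≤ i := by
  by_contra h
  obtain ⟨v, hv, a, ha⟩ := fam_one o c.valid c.nonempty
  exact c.nofam v hv ⟨a, fun j hj => ha j (by omega)⟩

/-- bound for a subset keeping its own labels -/
theorem Ctx.bound_lab (c : Ctx G V R Q o i) {Y Q' : Finset α} {Exi : Set α} (hY : Y ⊆ V)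
    (hlt : Y.card < V.card) (hQ' : Q' ⊆ Y) (hV : Valid G Y (R ∩ Y) Q') (hExi : Exi ⊆ V)
    (d2 : ∀ x ∈ Exi, x ∉ Y)
    (exit : ∀ v ∈ Q', ∃ q ∈ Q, ∃ m, PathIn G (Exi ∪ {v}) v q m) :
    dd G Y + 2 * (R ∩ Y).card + 2 * Q'.card ≤ (2 * i + 1) * Y.card := by
  have := c.two_le
  refine c.bound (En := ∅) (f := 1) (cc := 0) (o' := o) hY hlt inter_subset_right hQ' hV
    (c.coh.mono inter_subset_left) (by omega) le_rfl le_rfl (by simp) hExi (by simp) d2 (by simp) ?_ exit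
  intro r hr j hj
  exact ⟨r, (mem_inter.1 hr).1, 0, PathIn.refl (by simp), by omega⟩

theorem Ctx.bound_self (c : Ctx G V R Q o i) {K : Finset α} (hK : K ⊆ V)
    (hlt : K.card < V.card) (hV : Valid G K R Q) :
    dd G K + 2 * (R ∩ K).card + 2 * (Q ∩ K).card ≤ (2 * i + 1) * K.card := by
  refine c.bound_lab (Exi := ∅) hK hlt inter_subset_right hV.inter (by simp) (by simp) ?_
  intro v hv
  exact ⟨v, (mem_inter.1 hv).1, 0, PathIn.refl (by simp)⟩

theorem valid_Ex (h : Valid G V R Q) {Y R' : Finset α} (hY : Y ⊆ V)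
    (hR : ∀ u ∈ Y, u ∈ R → u ∈ R')
    (h2 : ∀ P ⊆ Y, P.Nonempty → Cl0 G Y P → ∃ u ∈ P, u ∈ R') : Valid G Y R' (Ex G V Q Y) := by
  constructor
  · intro P z hP hne hc
    by_contra hcon
    push Not at hcon
    obtain ⟨u, hu, h3⟩ := h.1 P z (hP.trans hY) hne (by
      intro a ha b hb hab
      by_cases hbY : b ∈ Y
      · exact hc a ha b hbY hab
      · exact absurd (mem_Ex.2 ⟨hP ha, Or.inr ⟨b, hb, hbY, hab⟩⟩) (hcon a ha).2)
    rcases h3 with h3 | h3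
    · exact (hcon u hu).1 (hR u (hP hu) h3)
    · exact (hcon u hu).2 (mem_Ex.2 ⟨hP hu, Or.inl h3⟩)
  · intro P hP hne hc
    refine ⟨h2 P hP hne hc, ?_⟩
    by_contra hcon
    push Not at hcon
    obtain ⟨u, hu, h3⟩ := (h.2 P (hP.trans hY) hne (by
      intro a ha b hb hab
      by_cases hbY : b ∈ Y
      · exact hc a ha b hbY hab
      · exact absurd (mem_Ex.2 ⟨hP ha, Or.inr ⟨b, hb, hbY, hab⟩⟩) (hcon a ha))).2
    exact hcon u hu (mem_Ex.2 ⟨hP hu, Or.inl h3⟩)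

theorem card_split (X : Finset α) {W Y : Finset α} (hY : Y ⊆ W) :
    (X ∩ W).card = (X ∩ (W \ Y)).card + (X ∩ Y).card := by
  simp only [card_inter_eq_sum]
  rw [sum_sdiff hY]

theorem card_Ex (W Q Y : Finset α) :
    (Ex G W Q Y).card = ∑ u ∈ Y, if u ∈ Ex G W Q Y then 1 else 0 := by
  rw [← card_inter_eq_sum, inter_eq_left.2 (Ex_subset _ _ _)]

/-- a minimal counterexample is connected -/
theorem Ctx.conn (c : Ctx G V R Q o i) {P : Finset α} (hP : P ⊆ V) (hne : P.Nonempty)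
    (hc : Cl0 G V P) : P = V := by
  by_contra hPV
  have h1 := card_lt_card (ssubset_of_subset_of_ne hP hPV)
  have hcard : (V \ P).card + P.card = V.card := card_sdiff_add_card_eq_card hP
  have hpos := hne.card_pos
  have hc' : Cl0 G V (V \ P) := fun a ha b hb hab =>
    mem_sdiff.2 ⟨hb, fun h => (mem_sdiff.1 ha).2 (hc b h a (mem_sdiff.1 ha).1 hab.symm)⟩
  have key : ∀ X ⊆ V, Cl0 G V X → Valid G X R Q := by
    intro X hX hcX
    constructor
    · intro P' z h1 h2 h3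
      exact c.valid.1 P' z (h1.trans hX) h2
        (fun a ha b hb hab => h3 a ha b (hcX a (h1 ha) b hb hab) hab)
    · intro P' h1 h2 h3
      exact c.valid.2 P' (h1.trans hX) h2
        (fun a ha b hb hab => h3 a ha b (hcX a (h1 ha) b hb hab) hab)
  have b1 := c.bound_self hP h1 (key P hP hc)
  have b2 := c.bound_self sdiff_subset (by omega) (key _ sdiff_subset hc')
  have e1 := dd_closed hP hc
  have e2 := card_split R hP
  have e3 := card_split Q hP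
  rw [inter_eq_left.2 c.hR] at e2
  rw [inter_eq_left.2 c.hQ] at e3
  have := c.dens
  rw [← hcard, mul_add] at this
  omega

end Pool.Agent.P.MP_e76938_co
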