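import Pool.Agent.P.MP_e76938_co.Defs

set_option autoImplicit false

namespace Pool.Agent.P.MP_e76938_co

open Finset

namespace FinP

/-- the degree sum formula in the form used here -/
lemma dd_univ {α : Type} [Fintype α] (G : SimpleGraph α) :
    dd G univ = 2 * G.edgeSet.ncard := by
  classical
  have h1 : dd G univ = ∑ u, G.degree u := by
    unfold dd nb
    refine Finset.sum_congr rfl (fun u _ => ?_)
    rw [← SimpleGraph.card_neighborFinset_eq_degree, SimpleGraph.neighborFinset_eq_filter]
  rw [h1, SimpleGraph.sum_degrees_eq_twice_card_edges, Set.ncard_eq_toFinset_card']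
  rfl

/-- moving a finite graph to `Fin n` -/
lemma transfer {α : Type} [Fintype α] (G : SimpleGraph α) {n : ℕ} (hn : Fintype.card α = n) :
    ∃ G' : SimpleGraph (Fin n), G'.edgeSet.ncard = G.edgeSet.ncard ∧
      ∀ (v : Fin n) (w : G'.Walk v v), w.IsCycle →
        ∃ (v' : α) (w' : G.Walk v' v'), w'.IsCycle ∧ w'.length = w.length := by
  let e : Fin n ≃ α := (Fintype.equivFinOfCardEq hn).symm
  let φ : G.comap e ≃g G := SimpleGraph.Iso.comap e G
  refine ⟨G.comap e, ?_, fun v w hw => ?_⟩
  · exact Set.ncard_congr' φ.mapEdgeSet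
  · exact ⟨φ v, w.map φ.toHom, hw.map φ.injective, SimpleGraph.Walk.length_map _ _⟩

/-- the windmill graph: `N` complete graphs on `m + 1` vertices glued at one vertex -/
def wind (N m : ℕ) : SimpleGraph (Option (Fin N × Fin m)) where
  Adj x y := x ≠ y ∧ ∀ a b, x = some a → y = some b → a.1 = b.1
  symm := ⟨fun _ _ h => ⟨h.1.symm, fun a b ha hb => (h.2 b a hb ha).symm⟩⟩
  loopless := ⟨fun _ h => h.1 rfl⟩

lemma wind_blk {N m : ℕ} {u v : Option (Fin N × Fin m)} (p : (wind N m).Walk u v)
    (hp : none ∉ p.support) : ∀ x ∈ p.support, x.map Prod.fst = u.map Prod.fst := by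
  induction p with
  | nil => intro x hx; simp only [SimpleGraph.Walk.support_nil, List.mem_singleton] at hx; rw [hx]
  | @cons a b c h q ih =>
    intro x hx
    rw [SimpleGraph.Walk.support_cons, List.mem_cons, not_or] at hp
    rw [SimpleGraph.Walk.support_cons, List.mem_cons] at hx
    rcases hx with rfl | hx
    · rfl
    · rw [ih hp.2 x hx]
      have hb : b ≠ none := fun e => hp.2 (e ▸ q.start_mem_support)
      obtain ⟨a', rfl⟩ := Option.ne_none_iff_exists'.mp (Ne.symm hp.1)
      obtain ⟨b', rfl⟩ := Option.ne_none_iff_exists'.mp hb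
      simp [h.2 a' b' rfl rfl]

lemma wind_path {N m : ℕ} {u v : Option (Fin N × Fin m)} (p : (wind N m).Walk u v)
    (hpath : p.IsPath) (hp : none ∉ p.support) : p.length + 1 ≤ m := by
  classical
  have hu : u ≠ none := fun e => hp (e ▸ p.start_mem_support)
  obtain ⟨u', rfl⟩ := Option.ne_none_iff_exists'.mp hu
  have hsub : p.support.toFinset ⊆ univ.image (fun i : Fin m => some (u'.1, i)) := by
    intro x hx
    rw [List.mem_toFinset] at hx
    have h1 := wind_blk p hp x hx
    have hx0 : x ≠ none := fun e => hp (e ▸ hx)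
    obtain ⟨x', rfl⟩ := Option.ne_none_iff_exists'.mp hx0
    simp only [Option.map_some, Option.some.injEq] at h1
    exact mem_image.mpr ⟨x'.2, mem_univ _, by rw [← h1]⟩
  have h2 := (card_le_card hsub).trans card_image_le
  rw [List.toFinset_card_of_nodup hpath.support_nodup, SimpleGraph.Walk.length_support] at h2
  simpa using h2

lemma wind_cycle_none {N m : ℕ} (c : (wind N m).Walk none none) (hc : c.IsCycle) :
    c.length ≤ m + 1 := by
  cases c with
  | nil => simp
  | @cons _ b _ h p =>
    have hp : p.IsPath := ((SimpleGraph.Walk.cons_isCycle_iff p h).mp hc).1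
    have hr : p.reverse.IsPath := hp.reverse
    have hl : p.reverse.length = p.length := SimpleGraph.Walk.length_reverse p
    rw [SimpleGraph.Walk.length_cons, ← hl]
    generalize p.reverse = q at hr
    cases q with
    | nil => simp
    | cons h' q' =>
      rw [SimpleGraph.Walk.cons_isPath_iff] at hr
      have := wind_path q' hr.1 hr.2
      rw [SimpleGraph.Walk.length_cons]
      omega

lemma wind_cycle {N m : ℕ} {v : Option (Fin N × Fin m)} (c : (wind N m).Walk v v)
    (hc : c.IsCycle) : c.length ≤ m + 1 := by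
  classical
  by_cases h0 : none ∈ c.support
  · have h1 := wind_cycle_none (c.rotate none h0) (hc.rotate h0)
    rwa [SimpleGraph.Walk.length_rotate] at h1
  · cases c with
    | nil => simp
    | cons h p =>
      have hp : p.IsPath := ((SimpleGraph.Walk.cons_isCycle_iff p h).mp hc).1
      rw [SimpleGraph.Walk.support_cons, List.mem_cons, not_or] at h0
      have := wind_path p hp h0.2
      rw [SimpleGraph.Walk.length_cons]
      omega

lemma wind_nb_none (N m : ℕ) : nb (wind N m) univ none = N * m := by
  classical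
  unfold nb
  have : (univ.filter (fun w => (wind N m).Adj none w)) = univ.erase none := by
    ext w
    simp only [mem_filter, mem_univ, true_and, mem_erase, and_true]
    exact ⟨fun h => h.1.symm, fun h => ⟨h.symm, fun a b ha _ => by simp at ha⟩⟩
  rw [show (@Finset.filter _ (fun w => (wind N m).Adj none w)
    (fun _ => Classical.propDecidable _) univ) = univ.erase none from by convert this]
  rw [card_erase_of_mem (mem_univ _)]
  simp

lemma wind_nb_some (N m : ℕ) (a : Fin N × Fin m) : nb (wind N m) univ (some a) = m := by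
  classical
  unfold nb
  have : (univ.filter (fun w => (wind N m).Adj (some a) w)) =
      insert none ((univ.erase a.2).image (fun i : Fin m => some (a.1, i))) := by
    ext w
    simp only [mem_filter, mem_univ, true_and, mem_insert, mem_image, mem_erase, and_true]
    constructor
    · intro h
      cases w with
      | none => exact Or.inl rfl
      | some b =>
        have h1 := h.2 a b rfl rfl
        refine Or.inr ⟨b.2, fun e => h.1 ?_, by rw [h1]⟩
        rw [show a = b from Prod.ext h1 e.symm]
    · rintro (rfl | ⟨i, hi, rfl⟩)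
      · exact ⟨by simp, fun _ b _ hb => by simp at hb⟩
      · refine ⟨fun e => hi ?_, fun a' b ha hb => ?_⟩
        · have := Option.some.inj e
          exact (congrArg Prod.snd this).symm
        · rw [← Option.some.inj ha, ← Option.some.inj hb]
  rw [show (@Finset.filter _ (fun w => (wind N m).Adj (some a) w)
    (fun _ => Classical.propDecidable _) univ) = _ from by convert this]
  rw [card_insert_of_notMem (by simp), card_image_of_injective _ (fun i j e => by simpa using e),
    card_erase_of_mem (mem_univ _)]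
  have := a.2.pos
  simp only [card_univ, Fintype.card_fin]
  omega

lemma wind_edges (N m : ℕ) : 2 * (wind N m).edgeSet.ncard = N * m * (m + 1) := by
  rw [← dd_univ]
  unfold dd
  rw [Fintype.sum_option, wind_nb_none]
  simp only [wind_nb_some, sum_const, card_univ, Fintype.card_prod, Fintype.card_fin, smul_eq_mul]
  ring

end FinP

open FinP

theorem final_of_upper (h : Upper) : Final := by
  have hup : ∀ k : ℕ, 2 ≤ k → ∀ n : ℕ, 1 ≤ n → ∀ G : SimpleGraph (Fin n),
      (2 * k + 1) * (n - 1) < 2 * G.edgeSet.ncard →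
      ∃ l : ℕ, ∀ j < k, ∃ (v : Fin n) (w : G.Walk v v),
        w.IsCycle ∧ w.length = 2 * l + 2 * j := by
    intro k hk n hn G hG
    refine h (Fin n) G k hk univ ⟨⟨0, hn⟩, mem_univ _⟩ ?_
    rw [dd_univ, card_univ, Fintype.card_fin]
    obtain ⟨n', rfl⟩ : ∃ n', n = n' + 1 := ⟨n - 1, by omega⟩
    rw [Nat.add_sub_cancel] at hG
    rw [Nat.mul_succ]
    omega
  refine ⟨hup, fun k hk => ⟨?_, ?_⟩⟩
  · intro n hn G hG
    have h1 : (2 * k + 1) * n ≤ 2 * G.edgeSet.ncard := by
      have : ((2 * k + 1 : ℝ)) * n ≤ 2 * (G.edgeSet.ncard : ℝ) := by linarith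
      exact_mod_cast this
    have h2 : (2 * k + 1) * (n - 1) < (2 * k + 1) * n :=
      Nat.mul_lt_mul_of_pos_left (by omega) (by omega)
    obtain ⟨l, hl⟩ := hup k hk n hn G (h2.trans_le h1)
    obtain ⟨v, w, hw, hlen⟩ := hl ((1 + (k - 1) * l) % k) (Nat.mod_lt _ (by omega))
    refine ⟨v, w, hw, ?_⟩
    rw [hlen, ← Nat.mul_add]
    have h3 : l + (1 + (k - 1) * l) % k ≡ 1 [MOD k] := by
      have h4 : l + (1 + (k - 1) * l) % k ≡ l + (1 + (k - 1) * l) [MOD k] :=
        (Nat.mod_modEq _ _).add_left l
      refine h4.trans ?_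
      obtain ⟨k', rfl⟩ : ∃ k', k = k' + 1 := ⟨k - 1, by omega⟩
      rw [Nat.add_sub_cancel, show l + (1 + k' * l) = 1 + (k' + 1) * l by ring]
      exact Nat.add_mul_mod_self_left 1 (k' + 1) l
    simpa using h3.mul_left' 2
  · intro c hc
    by_contra hlt
    rw [not_le] at hlt
    set δ : ℝ := (2 * k + 1 : ℝ) / 2 - c with hδ
    have hδ0 : 0 < δ := sub_pos.mpr hlt
    obtain ⟨N, hN⟩ := exists_nat_ge (c / δ)
    rw [div_le_iff₀ hδ0] at hN
    obtain ⟨G, hGe, hGc⟩ := transfer (wind N (2 * k)) (n := N * (2 * k) + 1) (by simp)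
    have he : 2 * (G.edgeSet.ncard : ℝ) = N * (2 * k) * (2 * k + 1) := by
      rw [hGe]
      exact_mod_cast wind_edges N (2 * k)
    have hk' : (2 : ℝ) ≤ k := by exact_mod_cast hk
    have hN0 : (0 : ℝ) ≤ N := Nat.cast_nonneg N
    obtain ⟨v, w, hw, hmod⟩ := hc (N * (2 * k) + 1) (by omega) G (by
      push_cast
      have h1 : (N : ℝ) * δ ≤ N * δ * (2 * k) :=
        le_mul_of_one_le_right (mul_nonneg hN0 hδ0.le) (by linarith)
      have h2 : (N : ℝ) * δ * (2 * k) = N * (2 * k) * (2 * k + 1) / 2 - c * (N * (2 * k)) := by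
        rw [hδ]; ring
      linarith)
    obtain ⟨v', w', hw', hlen⟩ := hGc v w hw
    have h1 := wind_cycle w' hw'
    have h2 := hw.three_le_length
    rw [hlen] at h1
    unfold Nat.ModEq at hmod
    rw [Nat.mod_eq_of_lt (show 2 < 2 * k by omega)] at hmod
    rcases Nat.lt_or_ge w.length (2 * k) with h3 | h3
    · rw [Nat.mod_eq_of_lt h3] at hmod
      omega
    · rw [Nat.mod_eq_sub_mod h3, Nat.mod_eq_of_lt (by omega)] at hmod
      omega

end Pool.Agent.P.MP_e76938_co
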