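import Pool.Agent.P.MP_e76938_co.Core

set_option autoImplicit false

namespace Pool.Agent.P.MP_e76938_co

open Finset SimpleGraph Classical

variable {α : Type} {G : SimpleGraph α}

theorem coh_zero (R : Finset α) : Coh G R (fun _ => 0) :=
  ⟨fun _ _ => Nat.zero_le _, fun _ _ _ _ _ => rfl⟩

/-- closing a family of paths by closers of one common length -/
theorem Fam.cycles {W R : Finset α} {v : α} {k : ℕ} (h : Fam G W R (fun _ => 0) v k) :
    ∃ a : ℕ, ∀ (O : Set α) (y : α) (m : ℕ), 1 ≤ m → (∀ x ∈ W, x ∉ O) → G.Adj v y →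
      (∀ r ∈ R, ∃ x, PathIn G O y x m ∧ G.Adj x r) →
      ∀ j < k, ∃ (b : α) (c : G.Walk b b), c.IsCycle ∧ c.length = a + m + 2 + 2 * j ∧
        ∀ x ∈ c.support, x ∈ (W : Set α) ∪ O := by
  obtain ⟨a, ha⟩ := h
  refine ⟨a, fun O y m hm hO hvy hcl j hj => ?_⟩
  obtain ⟨r, hr, n, hp, hn⟩ := ha j hj
  obtain ⟨x, hx, hxr⟩ := hcl r hr
  obtain ⟨b, c, c1, c2, c3⟩ := PathIn.cycle hp hx (fun a ha => hO a ha) hvy hxr (by omega)
  exact ⟨b, c, c1, by simp only [add_zero] at hn; omega, c3⟩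

theorem run_of_even {k s : ℕ} (hs : Even s)
    (h : ∀ j < k, ∃ (b : α) (c : G.Walk b b), c.IsCycle ∧ c.length = s + 2 * j) : Run G k := by
  obtain ⟨l, hl⟩ := hs
  refine ⟨l, fun j hj => ?_⟩
  obtain ⟨b, c, c1, c2⟩ := h j hj
  exact ⟨b, c, c1, by omega⟩

/-- closers of lengths 1 and 2 give a run -/
theorem Fam.run_of_two {W R : Finset α} {v : α} {k : ℕ} (h : Fam G W R (fun _ => 0) v k)
    (O : Set α) (y : α) (hO : ∀ x ∈ W, x ∉ O) (hvy : G.Adj v y)
    (h1 : ∀ r ∈ R, ∃ x, PathIn G O y x 1 ∧ G.Adj x r)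
    (h2 : ∀ r ∈ R, ∃ x, PathIn G O y x 2 ∧ G.Adj x r) : Run G k := by
  obtain ⟨a, ha⟩ := h.cycles
  rcases Nat.even_or_odd a with hev | hod
  · refine run_of_even (s := a + 2 + 2) (by obtain ⟨t, ht⟩ := hev; exact ⟨t + 2, by omega⟩) ?_
    intro j hj
    obtain ⟨b, c, c1, c2, -⟩ := ha O y 2 (by omega) hO hvy h2 j hj
    exact ⟨b, c, c1, c2⟩
  · refine run_of_even (s := a + 1 + 2) (by obtain ⟨t, ht⟩ := hod; exact ⟨t + 2, by omega⟩) ?_
    intro j hj
    obtain ⟨b, c, c1, c2, -⟩ := ha O y 1 le_rfl hO hvy h1 j hj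
    exact ⟨b, c, c1, c2⟩

/-- a nonempty set with at most one outside neighbour in a 2-connected `V` contains all but one -/
theorem TC.two {V P : Finset α} {z a b : α} (h : TC G V) (hP : P ⊆ V) (hne : P.Nonempty)
    (hc : Cl1 G V P z) (ha : a ∈ V) (hb : b ∈ V) (hab : a ≠ b) (haP : a ∉ P) (hbP : b ∉ P) :
    False := by
  have h1 := (h P z hP hne hc a ha).resolve_left haP
  have h2 := (h P z hP hne hc b hb).resolve_left hbP
  exact hab (h1.trans h2.symm)

/-- first half of validity from 2-connectivity -/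
theorem TC.valid1 {V S D R Q : Finset α} {a b : α} (h : TC G V) (hD : D ⊆ V \ S)
    (hc : Cl0 G (V \ S) D) (ha : a ∈ V) (hb : b ∈ V) (hab : a ≠ b) (haS : a ∈ S) (hbS : b ∈ S)
    (hRQ : ∀ u ∈ D, ∀ s ∈ S, G.Adj u s → u ∈ R ∨ u ∈ Q) :
    ∀ P z, P ⊆ D → P.Nonempty → Cl1 G D P z → ∃ u ∈ P, u ∈ R ∨ u ∈ Q := by
  intro P z hP hne hcl
  by_contra hcon
  push Not at hcon
  refine h.two (z := z) (hP.trans (hD.trans sdiff_subset)) hne ?_ ha hb hab
    (fun hx => (mem_sdiff.1 (hD (hP hx))).2 haS) (fun hx => (mem_sdiff.1 (hD (hP hx))).2 hbS)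
  intro u hu w hw hadj
  by_cases hwS : w ∈ S
  · rcases hRQ u (hP hu) w hwS hadj with h1 | h1
    · exact absurd h1 (hcon u hu).1
    · exact absurd h1 (hcon u hu).2
  · exact hcl u hu w (hc u (hP hu) w (mem_sdiff.2 ⟨hw, hwS⟩) hadj) hadj

/-- second half of validity from 2-connectivity -/
theorem TC.valid2 {V S D R : Finset α} {a z : α} (h : TC G V) (hD : D ⊆ V \ S)
    (hc : Cl0 G (V \ S) D) (ha : a ∈ V) (haz : a ≠ z) (haS : a ∈ S)
    (hR : ∀ u ∈ D, ∀ s ∈ S, G.Adj u s → u ∈ R ∨ s = z) :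
    ∀ P, P ⊆ D → P.Nonempty → Cl0 G D P → ∃ u ∈ P, u ∈ R := by
  intro P hP hne hcl
  by_contra hcon
  push Not at hcon
  have hc1 : Cl1 G V P z := by
    intro u hu w hw hadj
    by_cases hwS : w ∈ S
    · rcases hR u (hP hu) w hwS hadj with h1 | h1
      · exact absurd h1 (hcon u hu)
      · exact Or.inr h1
    · exact Or.inl (hcl u hu w (hc u (hP hu) w (mem_sdiff.2 ⟨hw, hwS⟩) hadj) hadj)
  rcases h P z (hP.trans (hD.trans sdiff_subset)) hne hc1 a ha with h1 | h1
  · exact (mem_sdiff.1 (hD (hP h1))).2 haS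
  · exact haz h1

theorem cl0_self (W : Finset α) : Cl0 G W W := fun _ _ _ hw _ => hw

theorem nb_le_card_erase (X : Finset α) (u : α) : nb G X u ≤ (X.erase u).card := by
  unfold nb
  refine card_le_card fun w hw => ?_
  rw [mem_filter] at hw
  exact mem_erase.2 ⟨hw.2.ne.symm, hw.1⟩

theorem dd_le (X : Finset α) : dd G X ≤ X.card * (X.card - 1) := by
  unfold dd
  refine (sum_le_card_nsmul X _ (X.card - 1) fun u hu => ?_).trans (by simp)
  rw [← card_erase_of_mem hu]
  exact nb_le_card_erase X u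

/-- the reduction to 2-connected vertex sets -/
theorem tc_of_small {V : Finset α} {θ : ℕ} (hd : θ * V.card < dd G V + θ)
    (ih : ∀ U : Finset α, U.card < V.card → U.Nonempty → dd G U + θ ≤ θ * U.card) : TC G V := by
  intro P z hP hne hcl w hw
  by_contra hcon
  push Not at hcon
  have hcard : (V \ P).card + P.card = V.card := card_sdiff_add_card_eq_card hP
  have hpos := hne.card_pos
  have hne2 : (V \ P).Nonempty := ⟨w, mem_sdiff.2 ⟨hw, hcon.1⟩⟩
  have hpos2 := hne2.card_pos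
  have e2 := ih (V \ P) (by omega) hne2
  by_cases hz : z ∈ V ∧ z ∉ P
  · have hsub : insert z P ⊂ V := by
      refine ssubset_of_subset_of_ne (insert_subset hz.1 hP) ?_
      intro he
      rw [← he, mem_insert] at hw
      rcases hw with h1 | h1
      · exact hcon.2 h1
      · exact hcon.1 h1
    have e1 := ih (insert z P) (card_lt_card hsub) (insert_nonempty _ _)
    rw [card_insert_of_notMem hz.2] at e1
    have e3 := dd_sdiff (G := G) hP
    have e4 : dd G (insert z P) = dd G {z} + dd G P + 2 * ∑ u ∈ P, nb G {z} u := by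
      rw [insert_eq, dd_union (disjoint_singleton_left.2 hz.2)]
    have e5 : ∑ u ∈ P, nb G (V \ P) u ≤ ∑ u ∈ P, nb G {z} u := by
      refine sum_le_sum fun u hu => ?_
      rw [nb_singleton]
      refine nb_le_one fun x hx hadj => ?_
      exact (hcl u hu x (mem_sdiff.1 hx).1 hadj).resolve_left (mem_sdiff.1 hx).2
    rw [← hcard, mul_add] at hd
    rw [mul_add, mul_one] at e1
    omega
  · have hc0 : Cl0 G V P := by
      intro u hu x hx hadj
      rcases hcl u hu x hx hadj with h1 | h1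
      · exact h1
      · by_contra h2
        exact hz ⟨h1 ▸ hx, h1 ▸ h2⟩
    have e1 := ih P (by omega) hne
    have e3 := dd_closed hP hc0
    rw [← hcard, mul_add] at hd
    omega

theorem exists_edge {V : Finset α} (h : 0 < dd G V) : ∃ x ∈ V, ∃ y ∈ V, G.Adj x y := by
  by_contra hcon
  push Not at hcon
  have : dd G V = 0 := sum_eq_zero fun u hu => nb_eq_zero (hcon u hu)
  omega

theorem nb_eq_card (W : Finset α) (x : α) : nb G W x = (W.filter (fun w => G.Adj x w)).card := rfl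

/-- the bipartite case -/
theorem caseA (hR : ∀ V : Finset α, RDT G V) {k : ℕ} (hk : 2 ≤ k) {V : Finset α} (htc : TC G V)
    {x y : α} (hx : x ∈ V) (hy : y ∈ V) (hxy : G.Adj x y)
    (hno : ¬ ∃ (v : α) (c : G.Walk v v), c.IsCycle ∧ Odd c.length ∧ ∀ x ∈ c.support, x ∈ V)
    (hd : (2 * k + 1) * V.card < dd G V + (2 * k + 1)) : Run G k := by
  set S : Finset α := {x, y} with hS
  have hSV : S ⊆ V := by
    intro a ha
    simp only [hS, mem_insert, mem_singleton] at ha
    rcases ha with rfl | rfl <;> assumption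
  have hxS : x ∈ S := by simp [hS]
  have hyS : y ∈ S := by simp [hS]
  have hScard : S.card = 2 := card_pair hxy.ne
  set W := V \ S with hW
  set R := W.filter (fun w => G.Adj x w) with hRdef
  set Q := W.filter (fun w => G.Adj y w) with hQdef
  have hval : Valid G W R Q := by
    refine ⟨htc.valid1 subset_rfl (cl0_self _) hx hy hxy.ne hxS hyS ?_, fun P h1 h2 h3 => ⟨?_, ?_⟩⟩
    · intro u hu s hs hadj
      simp only [hS, mem_insert, mem_singleton] at hs
      rcases hs with rfl | rfl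
      · exact Or.inl (mem_filter.2 ⟨hu, hadj.symm⟩)
      · exact Or.inr (mem_filter.2 ⟨hu, hadj.symm⟩)
    · refine htc.valid2 (z := y) subset_rfl (cl0_self _) hx hxy.ne hxS ?_ P h1 h2 h3
      intro u hu s hs hadj
      simp only [hS, mem_insert, mem_singleton] at hs
      rcases hs with rfl | rfl
      · exact Or.inl (mem_filter.2 ⟨hu, hadj.symm⟩)
      · exact Or.inr rfl
    · refine htc.valid2 (z := x) subset_rfl (cl0_self _) hy hxy.ne.symm hyS ?_ P h1 h2 h3
      intro u hu s hs hadj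
      simp only [hS, mem_insert, mem_singleton] at hs
      rcases hs with rfl | rfl
      · exact Or.inr rfl
      · exact Or.inl (mem_filter.2 ⟨hu, hadj.symm⟩)
  have e1 := dd_sdiff (G := G) hSV
  have e2 : ∑ u ∈ S, nb G W u = R.card + Q.card := by
    rw [hS, sum_pair hxy.ne]
    rfl
  have e3 := dd_le (G := G) S
  have e4 : W.card + S.card = V.card := card_sdiff_add_card_eq_card hSV
  rw [hScard] at e3 e4
  obtain ⟨v, hv, hF⟩ := hR W R Q (fun _ => 0) k (filter_subset _ _) (filter_subset _ _) hval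
    (coh_zero _) (by
      rw [← e4, mul_add] at hd
      rw [← hW] at e1
      omega)
  obtain ⟨a, ha⟩ := hF.cycles
  have hc := ha (S : Set α) y 1 le_rfl (fun u hu => (mem_sdiff.1 hu).2) (mem_filter.1 hv).2.symm
    (fun r hr => ⟨x, PathIn.edge hxy.symm hyS hxS, (mem_filter.1 hr).2⟩)
  refine run_of_even (s := a + 1 + 2) ?_ fun j hj => ?_
  · obtain ⟨b, c, c1, c2, c3⟩ := hc 0 (by omega)
    rw [← Nat.not_odd_iff_even]
    intro hod
    refine hno ⟨b, c, c1, by rw [c2]; simpa using hod, fun u hu => ?_⟩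
    rcases c3 u hu with h1 | h1
    · exact (mem_sdiff.1 h1).1
    · exact hSV h1
  · obtain ⟨b, c, c1, c2, -⟩ := hc j hj
    exact ⟨b, c, c1, c2⟩

/-- a triangle with an edge of small codegree -/
theorem caseB (hR : ∀ V : Finset α, RDT G V) {k : ℕ} {V : Finset α} (htc : TC G V)
    {x1 x2 y : α} (h1 : x1 ∈ V) (h2 : x2 ∈ V) (hy : y ∈ V) (h12 : G.Adj x1 x2) (h1y : G.Adj x1 y)
    (h2y : G.Adj x2 y)
    (hco : (V.filter (fun w => G.Adj x1 w ∧ G.Adj x2 w)).card < 2 * k)
    (hd : (2 * k + 1) * V.card < dd G V + (2 * k + 1)) : Run G k := by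
  set S : Finset α := {x1, x2, y} with hS
  have hmem : ∀ s ∈ S, s = x1 ∨ s = x2 ∨ s = y := by
    intro s hs
    simpa [hS] using hs
  have hSV : S ⊆ V := by
    intro a ha
    rcases hmem a ha with rfl | rfl | rfl <;> assumption
  have h1S : x1 ∈ S := by simp [hS]
  have h2S : x2 ∈ S := by simp [hS]
  have hyS : y ∈ S := by simp [hS]
  have hn1 : x1 ∉ ({x2, y} : Finset α) := by simp [h12.ne, h1y.ne]
  have hScard : S.card = 3 := by
    rw [hS, card_insert_of_notMem hn1, card_pair h2y.ne]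
  set W := V \ S with hW
  set R := W.filter (fun w => G.Adj x1 w ∨ G.Adj x2 w) with hRdef
  set Q := W.filter (fun w => G.Adj y w) with hQdef
  have e1 := dd_sdiff (G := G) hSV
  have e2 : ∑ u ∈ S, nb G W u = nb G W x1 + (nb G W x2 + Q.card) := by
    rw [hS, sum_insert hn1, sum_pair h2y.ne]
    rfl
  have e3 := dd_le (G := G) S
  have e4 : W.card + S.card = V.card := card_sdiff_add_card_eq_card hSV
  have e5 : nb G W x1 + nb G W x2 =
      R.card + (W.filter (fun w => G.Adj x1 w ∧ G.Adj x2 w)).card := by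
    rw [nb_eq_card, nb_eq_card, hRdef, filter_or, filter_and, card_union_add_card_inter]
  have e6 : (W.filter (fun w => G.Adj x1 w ∧ G.Adj x2 w)).card <
      (V.filter (fun w => G.Adj x1 w ∧ G.Adj x2 w)).card := by
    refine card_lt_card ⟨filter_subset_filter _ sdiff_subset, fun hsub => ?_⟩
    have := hsub (mem_filter.2 ⟨hy, h1y, h2y⟩)
    exact (mem_sdiff.1 (mem_filter.1 this).1).2 hyS
  rw [hScard] at e3 e4
  have hdW : (2 * k + 1) * W.card < dd G W + 2 * R.card + 2 * Q.card := by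
    rw [← e4, mul_add] at hd
    rw [← hW] at e1
    omega
  set D1 := W.filter (fun u => Live G W Q u) with hD1
  set D0 := W.filter (fun u => ¬ Live G W Q u) with hD0
  have hD1W : D1 ⊆ W := filter_subset _ _
  have hD0W : D0 ⊆ W := filter_subset _ _
  have hc1 : Cl0 G W D1 := live_closed W Q
  have hc0 : Cl0 G W D0 := dead_closed W Q
  have hsd : W \ D1 = D0 := by
    ext u
    simp only [hD1, hD0, mem_sdiff, mem_filter]
    tauto
  have f1 : dd G W = dd G D0 + dd G D1 := by rw [dd_closed hD1W hc1, hsd]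
  have f2 : D0.card + D1.card = W.card := by
    rw [← hsd]
    exact card_sdiff_add_card_eq_card hD1W
  have f3 : Q ⊆ D1 := by
    intro u hu
    exact mem_filter.2 ⟨(mem_filter.1 hu).1, u, hu, 0, PathIn.refl (mem_filter.1 hu).1⟩
  set N1 := D0.filter (fun w => G.Adj x1 w) with hN1
  set N2 := D0.filter (fun w => G.Adj x2 w) with hN2
  have f4 : R.card ≤ (R ∩ D1).card + (N1.card + N2.card) := by
    refine le_trans (card_le_card ?_) ((card_union_le _ _).trans
      (Nat.add_le_add_left (card_union_le N1 N2) _))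
    intro u hu
    have hu' := mem_filter.1 hu
    by_cases hl : u ∈ D1
    · exact mem_union_left _ (mem_inter.2 ⟨hu, hl⟩)
    · have hu0 : u ∈ D0 := by rw [← hsd]; exact mem_sdiff.2 ⟨hu'.1, hl⟩
      refine mem_union_right _ ?_
      rcases hu'.2 with h | h
      · exact mem_union_left _ (mem_filter.2 ⟨hu0, h⟩)
      · exact mem_union_right _ (mem_filter.2 ⟨hu0, h⟩)
  have hO : ∀ D : Finset α, D ⊆ W → ∀ u ∈ D, u ∉ (S : Set α) :=
    fun D hD u hu => (mem_sdiff.1 (hD hu)).2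
  by_cases hA : (2 * k + 1) * D1.card < dd G D1 + 2 * (R ∩ D1).card + 2 * Q.card
  · have hval : Valid G D1 (R ∩ D1) Q := by
      refine ⟨htc.valid1 hD1W hc1 h1 h2 h12.ne h1S h2S ?_,
        fun P p1 p2 p3 => ⟨?_, allLive_live W Q P p1 p2 p3⟩⟩
      · intro u hu s hs hadj
        rcases hmem s hs with rfl | rfl | rfl
        · exact Or.inl (mem_inter.2 ⟨mem_filter.2 ⟨hD1W hu, Or.inl hadj.symm⟩, hu⟩)
        · exact Or.inl (mem_inter.2 ⟨mem_filter.2 ⟨hD1W hu, Or.inr hadj.symm⟩, hu⟩)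
        · exact Or.inr (mem_filter.2 ⟨hD1W hu, hadj.symm⟩)
      · refine htc.valid2 (z := y) hD1W hc1 h1 h1y.ne h1S ?_ P p1 p2 p3
        intro u hu s hs hadj
        rcases hmem s hs with rfl | rfl | rfl
        · exact Or.inl (mem_inter.2 ⟨mem_filter.2 ⟨hD1W hu, Or.inl hadj.symm⟩, hu⟩)
        · exact Or.inl (mem_inter.2 ⟨mem_filter.2 ⟨hD1W hu, Or.inr hadj.symm⟩, hu⟩)
        · exact Or.inr rfl
    obtain ⟨v, hv, hF⟩ := hR D1 (R ∩ D1) Q (fun _ => 0) k inter_subset_right f3 hval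
      (coh_zero _) hA
    refine hF.run_of_two (S : Set α) y (hO D1 hD1W) (mem_filter.1 hv).2.symm ?_ ?_
    · intro r hr
      rcases (mem_filter.1 (mem_inter.1 hr).1).2 with h | h
      · exact ⟨x1, PathIn.edge h1y.symm hyS h1S, h⟩
      · exact ⟨x2, PathIn.edge h2y.symm hyS h2S, h⟩
    · intro r hr
      rcases (mem_filter.1 (mem_inter.1 hr).1).2 with h | h
      · exact ⟨x1, PathIn.two h2y.symm h12.symm h1y.ne.symm hyS h2S h1S, h⟩
      · exact ⟨x2, PathIn.two h1y.symm h12 h2y.ne.symm hyS h1S h2S, h⟩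
  · have hB : (2 * k + 1) * D0.card < dd G D0 + 2 * N1.card + 2 * N2.card := by
      rw [← f2, mul_add] at hdW
      omega
    have hny : ∀ u ∈ D0, ¬ G.Adj u y := fun u hu hadj =>
      dead_notMem hu (mem_filter.2 ⟨hD0W hu, hadj.symm⟩)
    have hval : Valid G D0 N1 N2 := by
      refine ⟨htc.valid1 hD0W hc0 h1 h2 h12.ne h1S h2S ?_, fun P p1 p2 p3 => ⟨?_, ?_⟩⟩
      · intro u hu s hs hadj
        rcases hmem s hs with rfl | rfl | rfl
        · exact Or.inl (mem_filter.2 ⟨hu, hadj.symm⟩)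
        · exact Or.inr (mem_filter.2 ⟨hu, hadj.symm⟩)
        · exact absurd hadj (hny u hu)
      · refine htc.valid2 (z := x2) hD0W hc0 h1 h12.ne h1S ?_ P p1 p2 p3
        intro u hu s hs hadj
        rcases hmem s hs with rfl | rfl | rfl
        · exact Or.inl (mem_filter.2 ⟨hu, hadj.symm⟩)
        · exact Or.inr rfl
        · exact absurd hadj (hny u hu)
      · refine htc.valid2 (z := x1) hD0W hc0 h2 h12.ne.symm h2S ?_ P p1 p2 p3
        intro u hu s hs hadj
        rcases hmem s hs with rfl | rfl | rfl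
        · exact Or.inr rfl
        · exact Or.inl (mem_filter.2 ⟨hu, hadj.symm⟩)
        · exact absurd hadj (hny u hu)
    obtain ⟨v, hv, hF⟩ := hR D0 N1 N2 (fun _ => 0) k (filter_subset _ _) (filter_subset _ _) hval
      (coh_zero _) hB
    refine hF.run_of_two (S : Set α) x2 (hO D0 hD0W) (mem_filter.1 hv).2.symm ?_ ?_
    · exact fun r hr => ⟨x1, PathIn.edge h12.symm h2S h1S, (mem_filter.1 hr).2⟩
    · exact fun r hr => ⟨x1, PathIn.two h2y h1y.symm h12.ne.symm h2S hyS h1S, (mem_filter.1 hr).2⟩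

/-- all triangle edges have large codegree -/
theorem caseC {k : ℕ} {V : Finset α} {y q q' : α} (hy : y ∈ V) (hq : q ∈ V) (hq' : q' ∈ V)
    (hyq : G.Adj y q) (hyq' : G.Adj y q') (hqq' : G.Adj q q')
    (hco : ∀ x1 ∈ V, ∀ x2 ∈ V, ∀ z ∈ V, G.Adj x1 x2 → G.Adj x1 z → G.Adj x2 z →
      2 * k ≤ (V.filter (fun w => G.Adj x1 w ∧ G.Adj x2 w)).card) : Run G k := by
  set H := V.filter (fun u => G.Adj y u ∧ ∃ w ∈ V, G.Adj y w ∧ G.Adj u w) with hH
  have hdeg : ∀ u ∈ H, 2 * k ≤ nb G H u := by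
    intro u hu
    obtain ⟨huV, hyu, w, hw, hyw, huw⟩ := mem_filter.1 hu
    refine (hco y hy u huV w hw hyu hyw huw).trans ?_
    rw [nb_eq_card]
    refine card_le_card fun c hc => ?_
    obtain ⟨hcV, hyc, huc⟩ := mem_filter.1 hc
    exact mem_filter.2 ⟨mem_filter.2 ⟨hcV, hyc, u, huV, hyu, huc.symm⟩, huc⟩
  have hqH : q ∈ H := mem_filter.2 ⟨hq, hyq, q', hq', hyq', hqq'⟩
  refine ⟨2, fun j hj => ?_⟩
  obtain ⟨w, hw⟩ := greedy_path H (2 * k) hdeg q hqH (2 * j + 2) (by omega)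
  have hwH : w ∈ H := hw.left_mem
  obtain ⟨b, c, c1, c2, -⟩ := PathIn.cycle (O := {y}) hw (PathIn.refl (Set.mem_singleton y))
    (fun a ha h => by
      have h1 : G.Adj y a := (mem_filter.1 (show a ∈ H from ha)).2.1
      exact h1.ne (Set.mem_singleton_iff.1 h).symm)
    hyq.symm (mem_filter.1 hwH).2.1 (by omega)
  exact ⟨b, c, c1, by omega⟩

theorem main_of_caseD (h : CaseD) : MainFromRDT := by
  intro α G hR k hk V
  induction hn : V.card using Nat.strong_induction_on generalizing V with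
  | _ n ih =>
  intro hne hd
  subst hn
  by_contra hrun
  have htc : TC G V := by
    refine tc_of_small hd fun U hU hUne => ?_
    by_contra hcon
    exact hrun (ih U.card hU U rfl hUne (by omega))
  apply hrun
  by_cases hodd : ∃ (v : α) (c : G.Walk v v), c.IsCycle ∧ Odd c.length ∧ ∀ x ∈ c.support, x ∈ V
  · by_cases htri : ∀ x ∈ V, ∀ y ∈ V, ∀ z ∈ V, G.Adj x y → G.Adj y z → ¬ G.Adj z x
    · exact h α G hR k hk V htc htri hodd hd
    · push Not at htri
      obtain ⟨x, hx, y, hy, z, hz, hxy, hyz, hzx⟩ := htri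
      by_cases hco : ∀ x1 ∈ V, ∀ x2 ∈ V, ∀ z ∈ V, G.Adj x1 x2 → G.Adj x1 z → G.Adj x2 z →
          2 * k ≤ (V.filter (fun w => G.Adj x1 w ∧ G.Adj x2 w)).card
      · exact caseC hx hy hz hxy hzx.symm hyz hco
      · push Not at hco
        obtain ⟨x1, h1, x2, h2, w, hw, h12, h1w, h2w, hlt⟩ := hco
        exact caseB hR htc h1 h2 hw h12 h1w h2w hlt hd
  · have hpos : 0 < dd G V := by
      have := Nat.mul_le_mul_left (2 * k + 1) hne.card_pos
      omega
    obtain ⟨x, hx, y, hy, hxy⟩ := exists_edge hpos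
    exact caseA hR hk htc hx hy hxy hodd hd

end Pool.Agent.P.MP_e76938_co
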