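import Pool.Agent.P.MP_e76938_co.Defs

set_option autoImplicit false

namespace Pool.Agent.P.MP_e76938_co

open Finset SimpleGraph

variable {α : Type} {G : SimpleGraph α}

theorem PathIn.refl {W : Set α} {a : α} (h : a ∈ W) : PathIn G W a a 0 :=
  ⟨Walk.nil, Walk.IsPath.nil, rfl, by simpa using h⟩

theorem PathIn.mono {W W' : Set α} {a b : α} {n : ℕ} (h : PathIn G W a b n) (hW : W ⊆ W') :
    PathIn G W' a b n := by
  obtain ⟨p, h1, h2, h3⟩ := h
  exact ⟨p, h1, h2, fun x hx => hW (h3 x hx)⟩

theorem PathIn.symm {W : Set α} {a b : α} {n : ℕ} (h : PathIn G W a b n) : PathIn G W b a n := by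
  obtain ⟨p, h1, h2, h3⟩ := h
  exact ⟨p.reverse, h1.reverse, by simpa using h2, fun x hx => h3 x (by simpa using hx)⟩

theorem PathIn.left_mem {W : Set α} {a b : α} {n : ℕ} (h : PathIn G W a b n) : a ∈ W := by
  obtain ⟨p, _, _, h3⟩ := h
  exact h3 a p.start_mem_support

theorem PathIn.right_mem {W : Set α} {a b : α} {n : ℕ} (h : PathIn G W a b n) : b ∈ W :=
  h.symm.left_mem

theorem PathIn.cons {W : Set α} {a b c : α} {n : ℕ} (hab : G.Adj a b) (ha : a ∉ W)
    (h : PathIn G W b c n) : PathIn G (insert a W) a c (n + 1) := by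
  obtain ⟨p, h1, h2, h3⟩ := h
  refine ⟨Walk.cons hab p, ?_, by simp [h2], ?_⟩
  · rw [Walk.cons_isPath_iff]
    exact ⟨h1, fun hx => ha (h3 a hx)⟩
  · intro x hx
    simp only [Walk.support_cons, List.mem_cons] at hx
    rcases hx with rfl | hx
    · simp
    · exact Set.mem_insert_of_mem _ (h3 x hx)

theorem PathIn.snoc {W : Set α} {a b c : α} {n : ℕ} (h : PathIn G W a b n) (hbc : G.Adj b c)
    (hc : c ∉ W) : PathIn G (insert c W) a c (n + 1) :=
  (PathIn.cons hbc.symm hc h.symm).symm

theorem PathIn.edge {W : Set α} {a b : α} (hab : G.Adj a b) (ha : a ∈ W) (hb : b ∈ W) :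
    PathIn G W a b 1 := by
  have h := PathIn.cons (W := {b}) hab (by simpa using hab.ne) (PathIn.refl (by simp))
  refine h.mono ?_
  intro x hx
  simp only [Set.mem_insert_iff, Set.mem_singleton_iff] at hx
  rcases hx with rfl | rfl <;> assumption

theorem PathIn.trans {W1 W2 : Set α} {a b c : α} {n m : ℕ} (h1 : PathIn G W1 a b n)
    (h2 : PathIn G W2 b c m) (hd : ∀ x ∈ W1, x ∈ W2 → x = b) :
    PathIn G (W1 ∪ W2) a c (n + m) := by
  obtain ⟨p, p1, p2, p3⟩ := h1
  obtain ⟨q, q1, q2, q3⟩ := h2
  refine ⟨p.append q, ?_, by simp [p2, q2], ?_⟩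
  · rw [Walk.isPath_def, Walk.support_append, List.nodup_append]
    refine ⟨p1.support_nodup, q1.support_nodup.tail, ?_⟩
    intro x hx y hy hxy
    subst hxy
    have hq : x ∈ q.support := List.mem_of_mem_tail hy
    have hb := hd x (p3 x hx) (q3 x hq)
    subst hb
    have := q1.support_nodup
    rw [← q.cons_tail_support] at this
    exact (List.nodup_cons.1 this).1 hy
  · intro x hx
    rw [Walk.mem_support_append_iff] at hx
    rcases hx with hx | hx
    · exact Or.inl (p3 x hx)
    · exact Or.inr (q3 x hx)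

/-- a path of length 2, 3, 4 given by explicit vertices -/
theorem PathIn.two {W : Set α} {a b c : α} (hab : G.Adj a b) (hbc : G.Adj b c) (hac : a ≠ c)
    (ha : a ∈ W) (hb : b ∈ W) (hc : c ∈ W) : PathIn G W a c 2 := by
  have h := PathIn.cons (W := {b, c}) hab (by simp [hab.ne, hac])
    (PathIn.edge hbc (by simp) (by simp))
  refine h.mono ?_
  intro x hx
  simp only [Set.mem_insert_iff, Set.mem_singleton_iff] at hx
  rcases hx with rfl | rfl | rfl <;> assumption

theorem PathIn.three {W : Set α} {a b c d : α} (hab : G.Adj a b) (hbc : G.Adj b c)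
    (hcd : G.Adj c d) (hac : a ≠ c) (had : a ≠ d) (hbd : b ≠ d)
    (ha : a ∈ W) (hb : b ∈ W) (hc : c ∈ W) (hd : d ∈ W) : PathIn G W a d 3 := by
  have h := PathIn.cons (W := {b, c, d}) hab (by simp [hab.ne, hac, had])
    (PathIn.two hbc hcd hbd (by simp) (by simp) (by simp))
  refine h.mono ?_
  intro x hx
  simp only [Set.mem_insert_iff, Set.mem_singleton_iff] at hx
  rcases hx with rfl | rfl | rfl | rfl <;> assumption

theorem PathIn.four {W : Set α} {a b c d e : α} (hab : G.Adj a b) (hbc : G.Adj b c)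
    (hcd : G.Adj c d) (hde : G.Adj d e) (hac : a ≠ c) (had : a ≠ d) (hae : a ≠ e) (hbd : b ≠ d)
    (hbe : b ≠ e) (hce : c ≠ e)
    (ha : a ∈ W) (hb : b ∈ W) (hc : c ∈ W) (hd : d ∈ W) (he : e ∈ W) : PathIn G W a e 4 := by
  have h := PathIn.cons (W := {b, c, d, e}) hab (by simp [hab.ne, hac, had, hae])
    (PathIn.three hbc hcd hde hbd hbe hce (by simp) (by simp) (by simp) (by simp))
  refine h.mono ?_
  intro x hx
  simp only [Set.mem_insert_iff, Set.mem_singleton_iff] at hx
  rcases hx with rfl | rfl | rfl | rfl | rfl <;> assumption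

/-- closing two disjoint paths to a cycle -/
theorem PathIn.cycle {W O : Set α} {r v x y : α} {n m : ℕ} (h1 : PathIn G W r v n)
    (h2 : PathIn G O y x m) (hd : ∀ a ∈ W, a ∉ O) (hvy : G.Adj v y) (hxr : G.Adj x r)
    (hnm : 1 ≤ n + m) :
    ∃ (a : α) (c : G.Walk a a), c.IsCycle ∧ c.length = n + m + 2 ∧
      ∀ b ∈ c.support, b ∈ W ∪ O := by
  have h3 := h1.snoc hvy (fun h => hd y h h2.left_mem)
  have h4 := h3.trans h2 (by
    intro a ha hb
    rcases ha with rfl | ha
    · rfl
    · exact absurd hb (hd a ha))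
  obtain ⟨p, p1, p2, p3⟩ := h4
  refine ⟨x, Walk.cons hxr p, ?_, by simp [p2]; omega, ?_⟩
  · rw [Walk.cons_isCycle_iff]
    refine ⟨p1, ?_⟩
    intro he
    have := p1.length_eq_one_of_mem_edges (by rw [Sym2.eq_swap]; exact he)
    omega
  · intro b hb
    simp only [Walk.support_cons, List.mem_cons] at hb
    have hsub : insert y W ∪ O ⊆ W ∪ O := by
      intro a ha
      rcases ha with (rfl | ha) | ha
      · exact Or.inr h2.left_mem
      · exact Or.inl ha
      · exact Or.inr ha
    rcases hb with rfl | hb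
    · exact Or.inr h2.right_mem
    · exact hsub (p3 b hb)

/-- the part of a path after its last visit to `X` -/
theorem PathIn.exists_last {W X : Set α} {a q : α} {n : ℕ} (h : PathIn G W a q n) (ha : a ∈ X) :
    ∃ r ∈ X, r ∈ W ∧ ∃ m, PathIn G ((W \ X) ∪ {r}) r q m := by
  obtain ⟨p, p1, -, p3⟩ := h
  have key : ∀ {a q : α} (p : G.Walk a q), p.IsPath → (∀ x ∈ p.support, x ∈ W) →
      (∃ x ∈ p.support, x ∈ X) → ∃ r ∈ X, r ∈ W ∧ ∃ m, PathIn G ((W \ X) ∪ {r}) r q m := by
    intro a q p
    induction p with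
    | @nil u =>
      intro _ hs hx
      have hu : u ∈ W := hs u (by simp)
      exact ⟨u, by simpa using hx, hu, 0, PathIn.refl (by simp)⟩
    | @cons u v w hadj p ih =>
      intro hp hs hx
      rw [Walk.cons_isPath_iff] at hp
      have hu : u ∈ W := hs u (by simp)
      by_cases hall : ∃ x ∈ p.support, x ∈ X
      · exact ih hp.1 (fun x hx => hs x (by simp [hx])) hall
      · push Not at hall
        have hP : PathIn G {x | x ∈ p.support} v w p.length := ⟨p, hp.1, rfl, fun x hx => hx⟩
        have h2 := PathIn.cons hadj (W := {x | x ∈ p.support}) hp.2 hP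
        have hux : u ∈ X := by
          obtain ⟨x, hx1, hx2⟩ := hx
          simp only [Walk.support_cons, List.mem_cons] at hx1
          rcases hx1 with rfl | hx1
          · exact hx2
          · exact absurd hx2 (hall x hx1)
        refine ⟨u, hux, hu, _, h2.mono ?_⟩
        intro x hx'
        rcases hx' with rfl | hx'
        · simp
        · exact Or.inl ⟨hs x (by simp [show x ∈ p.support from hx']), hall x hx'⟩
  exact key p p1 p3 ⟨a, p.start_mem_support, ha⟩

/-- a path starting in a closed set stays there -/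
theorem PathIn.closed {W P : Set α} {a b : α} {n : ℕ} (h : PathIn G W a b n) (ha : a ∈ P)
    (hc : ∀ u ∈ P, ∀ w ∈ W, G.Adj u w → w ∈ P) : PathIn G P a b n := by
  obtain ⟨p, p1, p2, p3⟩ := h
  refine ⟨p, p1, p2, ?_⟩
  clear p1 p2
  induction p with
  | nil => simpa using ha
  | @cons u v w hadj p ih =>
    intro x hx
    simp only [Walk.support_cons, List.mem_cons] at hx
    rcases hx with rfl | hx
    · exact ha
    · exact ih (hc u ha v (p3 v (by simp)) hadj) (fun y hy => p3 y (by simp [hy])) x hx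

/-- prepending an edge, up to shortening -/
theorem PathIn.step {W : Set α} {a b c : α} {n : ℕ} (hab : G.Adj a b) (ha : a ∈ W)
    (h : PathIn G W b c n) : ∃ m, PathIn G W a c m := by
  classical
  obtain ⟨p, -, -, p3⟩ := h
  refine ⟨_, (Walk.cons hab p).bypass, Walk.bypass_isPath _, rfl, ?_⟩
  intro x hx
  have := Walk.support_bypass_subset_support _ hx
  simp only [Walk.support_cons, List.mem_cons] at this
  rcases this with rfl | h
  · exact ha
  · exact p3 x h

/-- a path of positive length has a second vertex -/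
theorem PathIn.second {W : Set α} {a b : α} {n : ℕ} (h : PathIn G W a b n) (hab : a ≠ b) :
    ∃ c ∈ W, G.Adj a c ∧ c ≠ a := by
  obtain ⟨p, -, -, p3⟩ := h
  cases p with
  | nil => exact absurd rfl hab
  | @cons _ v _ hadj p => exact ⟨v, p3 v (by simp), hadj, hadj.ne.symm⟩

/-- greedy long paths -/
theorem greedy_path (H : Finset α) (d : ℕ) (hd : ∀ u ∈ H, d ≤ nb G H u) (v : α) (hv : v ∈ H) :
    ∀ n ≤ d, ∃ w, PathIn G (H : Set α) w v n := by
  classical
  intro n
  induction n with
  | zero => exact fun _ => ⟨v, PathIn.refl hv⟩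
  | succ n ih =>
    intro hn
    obtain ⟨w, p, p1, p2, p3⟩ := ih (by omega)
    have hw : w ∈ H := p3 w p.start_mem_support
    have : ∃ x ∈ H, G.Adj w x ∧ x ∉ p.support := by
      by_contra hcon
      push Not at hcon
      have hsub : H.filter (fun x => G.Adj w x) ⊆ p.support.toFinset.erase w := by
        intro x hx
        simp only [mem_filter] at hx
        simp only [mem_erase, List.mem_toFinset]
        exact ⟨hx.2.ne.symm, hcon x hx.1 hx.2⟩
      have h1 := card_le_card hsub
      rw [card_erase_of_mem (by simp), List.toFinset_card_of_nodup p1.support_nodup,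
        Walk.length_support] at h1
      have h2 := hd w hw
      unfold nb at h2
      have h3 : (H.filter (fun x => G.Adj w x)).card ≥ d := by convert h2
      omega
    obtain ⟨x, hx, hadj, hx2⟩ := this
    have hP : PathIn G {x | x ∈ p.support} w v n := ⟨p, p1, p2, fun x hx => hx⟩
    refine ⟨x, (PathIn.cons hadj.symm (W := {x | x ∈ p.support}) hx2 hP).mono ?_⟩
    intro y hy
    rcases hy with rfl | hy
    · exact hx
    · exact p3 y hy

end Pool.Agent.P.MP_e76938_co
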