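import Pool.Agent.P.MP_e76938_co.Real

set_option autoImplicit false

namespace Pool.Agent.P.MP_e76938_co

open Finset SimpleGraph Classical

variable {α : Type} {G : SimpleGraph α} {V R Q : Finset α} {o : α → ℕ} {i : ℕ}

/-- edges between entry vertices of offset 0 that are not isolated -/
def Str (G : SimpleGraph α) (R : Finset α) (o : α → ℕ) (a b : α) : Prop :=
  G.Adj a b ∧ a ∈ R ∧ b ∈ R ∧ o a = 0 ∧ ∃ x ∈ R, x ≠ a ∧ x ≠ b ∧ (G.Adj x a ∨ G.Adj x b)

theorem Ctx.str_symm (c : Ctx G V R Q o i) (a b : α) (h : Str G R o a b) : Str G R o b a := by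
  obtain ⟨h1, h2, h3, h4, x, h5, h6, h7, h8⟩ := h
  exact ⟨h1.symm, h3, h2, by rw [← c.coh.2 a h2 b h3 h1, h4], x, h5, h7, h6, h8.symm⟩

theorem Ctx.piece_aux (c : Ctx G V R Q o i) {A H F : Finset α} {ex : α → Prop} {E : Set α}
    (hA : ∀ a ∈ A, a ∈ R ∧ o a = 0) (hH : H ⊆ V) (hHA : ∀ h ∈ H, h ∉ A) (hFA : ∀ x ∈ F, x ∉ A)
    (hFH : ∀ x ∈ F, x ∉ H)
    (hcd : ∀ a ∈ A, ∀ b ∈ A, Str G R o a b →
      2 * i + F.card ≤ (V.filter (fun u => G.Adj u a ∧ G.Adj u b)).card + 3)
    (hE : E ⊆ V) (hEF : ∀ x ∈ E, (x ∈ A ∨ ∃ a ∈ A, G.Adj a x) → x ∈ F)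
    (hex : ∀ a ∈ A, ex a → ∃ q ∈ Q, ∃ m, PathIn G (E ∪ {a}) a q m) (hne : ∃ a ∈ A, ex a) :
    ∃ s ∈ A, ∃ Z ⊆ A, s ∈ Z ∧ (∀ a ∈ A, Str G R o s a → a ∈ Z) ∧
      Z.card + (if ex s then 1 else 0) +
        (H.filter (fun h => G.Adj s h ∧ ∃ a ∈ A, a ∉ Z ∧ G.Adj a h)).card +
        (A.filter (fun a => Str G R o s a ∧ ∃ b ∈ A, b ∉ Z ∧ Str G R o a b)).card ≤ i := by
  have h2i := c.two_le
  have hAV : A ⊆ V := fun a ha => c.hR (hA a ha).1
  obtain ⟨s, hs, Z, hZ, hsZ, h1, h2⟩ := claimB α (Option (α ⊕ α × α)) A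
    (insert none (H.image (fun h => some (Sum.inl h)))) (Inc G (Str G R o) ex H) none
    (Str G R o) (fun a b => some (Sum.inr (a, b))) i c.str_symm
    (fun a h => h.1.ne rfl)
    (fun a b h => ⟨by simp, fun x => by simp [Inc, h]⟩) hne (by
      rintro ⟨r, u, hP⟩
      obtain ⟨W, w0, -, w2, w3, -, -, -, w7⟩ :=
        realize hAV hH hHA hFA hFH c.str_symm hcd hP i (by omega) le_rfl
      have hr1 := hP.2.1 1 le_rfl (by omega)
      have hx : ex (r 1) := by
        have := hP.2.2.2.2.1 0 (by omega)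
        rw [hP.1] at this
        exact this
      refine c.ext (Y := W) (R' := A) (o' := fun _ => 0) (En := ∅) (Exi := E) (f := 1) (i' := i)
        (cc := 0) w0 (by omega) le_rfl le_rfl (by simp) hE (by simp)
        (fun x hx h => w2 x h (hEF x hx (w3 x h))) (by simp) ?_ (hex _ hr1 hx) ⟨0, ?_⟩
      · intro a ha _ j hj
        exact ⟨a, (hA a ha).1, 0, PathIn.refl (by simp), by have := (hA a ha).2; omega⟩
      · intro j hj
        exact ⟨r (j + 1), hP.2.1 _ (by omega) (by omega), 2 * j, w7 j hj, by simp⟩)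
  refine ⟨s, hs, Z, hZ, hsZ, h1, le_trans ?_ h2⟩
  have key : (if ex s then 1 else 0) +
      (H.filter (fun h => G.Adj s h ∧ ∃ a ∈ A, a ∉ Z ∧ G.Adj a h)).card ≤
      ((insert none (H.image (fun h => some (Sum.inl h)))).filter
        (fun h => Inc G (Str G R o) ex H s h ∧
          (h = none ∨ ∃ a ∈ A, a ∉ Z ∧ Inc G (Str G R o) ex H a h))).card := by
    have hinj : Function.Injective (fun h : α => (some (Sum.inl h) : Option (α ⊕ α × α))) :=
      fun a b h => by simpa using h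
    rw [← card_image_of_injective _ hinj]
    set I := (H.filter (fun h => G.Adj s h ∧ ∃ a ∈ A, a ∉ Z ∧ G.Adj a h)).image
      (fun h : α => (some (Sum.inl h) : Option (α ⊕ α × α))) with hI
    have hsub : ∀ x ∈ I, x ∈ ((insert none (H.image (fun h => some (Sum.inl h)))).filter
        (fun h => Inc G (Str G R o) ex H s h ∧
          (h = none ∨ ∃ a ∈ A, a ∉ Z ∧ Inc G (Str G R o) ex H a h))) := by
      intro x hx
      obtain ⟨h, hh, rfl⟩ := mem_image.1 hx
      obtain ⟨a1, a2, a, a3, a4, a5⟩ := mem_filter.1 hh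
      exact mem_filter.2 ⟨mem_insert_of_mem (mem_image_of_mem _ a1), ⟨a1, a2⟩,
        Or.inr ⟨a, a3, a4, a1, a5⟩⟩
    split_ifs with hx
    · have hn : none ∉ I := by simp [hI]
      rw [add_comm, ← card_insert_of_notMem hn]
      refine card_le_card (insert_subset ?_ hsub)
      exact mem_filter.2 ⟨mem_insert_self _ _, hx, Or.inl rfl⟩
    · rw [zero_add]
      exact card_le_card hsub
  rw [add_assoc Z.card]
  refine Nat.add_le_add (Nat.add_le_add_left ?_ _) ?_
  · convert key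
  · apply le_of_eq
    congr

theorem Ctx.piece (c : Ctx G V R Q o i) {A H : Finset α} (hA : ∀ a ∈ A, a ∈ R ∧ o a = 0)
    (hne : A.Nonempty) (hH : H ⊆ V) (hHA : ∀ h ∈ H, h ∉ A) :
    ∃ s ∈ A, ∃ Z ⊆ A, s ∈ Z ∧ (∀ a ∈ A, Str G R o s a → a ∈ Z) ∧
      Z.card + (if s ∈ Q then 1 else 0) +
        (H.filter (fun h => G.Adj s h ∧ ∃ a ∈ A, a ∉ Z ∧ G.Adj a h)).card +
        (A.filter (fun a => Str G R o s a ∧ ∃ b ∈ A, b ∉ Z ∧ Str G R o a b)).card ≤ i := by
  have hAV : A ⊆ V := fun a ha => c.hR (hA a ha).1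
  have hst : ∀ a b, Str G R o a b → 2 * i ≤ (V.filter (fun u => G.Adj u a ∧ G.Adj u b)).card +
      (if a ∈ Q then 1 else 0) + (if b ∈ Q then 1 else 0) + 1 := by
    intro a b ⟨h1, h2, h3, h4, x, h5, h6, h7, h8⟩
    exact c.stretch h1 h2 h3 h4 h5 h6 h7 h8
  by_cases hQ : ∃ a ∈ A, a ∈ Q
  · have := c.piece_aux (F := ∅) (ex := fun a => a ∈ Q) (E := ∅) hA hH hHA (by simp) (by simp) (by
      intro a _ b _ h
      have := hst a b h
      rw [card_empty]
      split_ifs at this <;> omega) (by simp) (by simp)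
      (fun a _ h => ⟨a, h, 0, PathIn.refl (by simp)⟩) hQ
    convert this
  · push Not at hQ
    set X := V.filter (fun x => x ∈ A ∨ ∃ a ∈ A, G.Adj a x) with hX
    obtain ⟨c0, hc0, q, hq, m, hp⟩ := c.valid.allLive.last_exit (X := X) (filter_subset _ _)
      (hne.mono (fun a ha => mem_filter.2 ⟨hAV ha, Or.inl ha⟩))
    have hc0A : c0 ∉ A := by
      intro h
      obtain ⟨y, hy, hadj, hne⟩ := hp.second (fun h' => hQ c0 h (h' ▸ hq))
      rcases hy with hy | hy
      · exact hy.2 (mem_filter.2 ⟨hy.1, Or.inr ⟨c0, h, hadj⟩⟩)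
      · exact hne (Set.mem_singleton_iff.1 hy)
    obtain ⟨s, hs, Z, hZ, hsZ, h1, h2⟩ := c.piece_aux (F := {c0}) (H := H.erase c0)
      (ex := fun a => G.Adj a c0) (E := ((V : Set α) \ X) ∪ {c0}) hA
      ((erase_subset _ _).trans hH) (fun h hh => hHA h (mem_of_mem_erase hh))
      (by simpa using hc0A) (by simp) (by
        intro a ha b hb h
        have := hst a b h
        rw [if_neg (hQ a ha), if_neg (hQ b hb)] at this
        rw [card_singleton]
        omega)
      (by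
        rintro x (hx | hx)
        · exact hx.1
        · rw [Set.mem_singleton_iff.1 hx]; exact (mem_filter.1 hc0).1)
      (by
        rintro x (hx | hx) h
        · exact absurd (mem_filter.2 ⟨hx.1, h⟩) hx.2
        · simpa using hx)
      (by
        intro a ha hadj
        refine ⟨q, hq, m + 1, (PathIn.cons hadj ?_ hp).mono ?_⟩
        · rintro (h | h)
          · exact h.2 (mem_filter.2 ⟨hAV ha, Or.inl ha⟩)
          · exact hadj.ne (Set.mem_singleton_iff.1 h)
        · rintro x (rfl | hx)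
          · simp
          · exact Or.inl hx)
      ((mem_filter.1 hc0).2.resolve_left hc0A)
    refine ⟨s, hs, Z, hZ, hsZ, h1, le_trans ?_ h2⟩
    rw [if_neg (hQ s hs)]
    have : (H.filter (fun h => G.Adj s h ∧ ∃ a ∈ A, a ∉ Z ∧ G.Adj a h)).card ≤
        (if G.Adj s c0 then 1 else 0) +
        ((H.erase c0).filter (fun h => G.Adj s h ∧ ∃ a ∈ A, a ∉ Z ∧ G.Adj a h)).card := by
      rw [filter_erase]
      split_ifs with h
      · have := pred_card_le_card_erase
          (s := H.filter (fun h => G.Adj s h ∧ ∃ a ∈ A, a ∉ Z ∧ G.Adj a h)) (a := c0)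
        omega
      · rw [erase_eq_of_notMem (fun h' => h (mem_filter.1 h').2.1)]
        omega
    have h3 : (if G.Adj s c0 then 1 else 0) =
      (@ite ℕ ((fun a => G.Adj a c0) s) (propDecidable _) 1 0) := rfl
    omega

end Pool.Agent.P.MP_e76938_co
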