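import Pool.Agent.P.MP_e76938_co.Batch
import Pool.Agent.P.MP_e76938_co.CaseD
import Pool.Agent.P.MP_e76938_co.MainABC
import Pool.Agent.P.MP_e76938_co.Final

set_option autoImplicit false

namespace Pool.Agent.P.MP_e76938_co

open Finset SimpleGraph Classical

variable {α : Type} {G : SimpleGraph α} {V R Q : Finset α} {o : α → ℕ} {i : ℕ}

theorem Ctx.dead_layer (c : Ctx G V R Q o i) {A : Finset α} (hA : ∀ a ∈ A, a ∈ R ∧ o a = 0)
    (hne : A.Nonempty) {D : Finset α} (hD : Comp G (V \ A) D) (hQ : ∀ u ∈ D, u ∉ Q) :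
    dd G D + ∑ u ∈ D, 2 * (if (u ∈ R ∧ o u = 1) ∨ ∃ a ∈ A, G.Adj u a then 1 else 0) ≤
      (2 * i + 1) * D.card := by
  have h2i := c.two_le
  have hDV : D ⊆ V := hD.1.trans sdiff_subset
  have hAV : A ⊆ V := fun a ha => c.hR (hA a ha).1
  have hDA : ∀ x ∈ D, x ∉ A := fun x hx => (mem_sdiff.1 (hD.1 hx)).2
  have hnb : ∀ x ∈ D, ∀ y ∈ V, G.Adj x y → y ∈ D ∨ y ∈ A := by
    intro x hx y hy hxy
    by_cases h : y ∈ A
    · exact Or.inr h
    · exact Or.inl (hD.2.2.1 x hx y (mem_sdiff.2 ⟨hy, h⟩) hxy)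
  have hlt : D.card < V.card := by
    obtain ⟨a, ha⟩ := hne
    exact card_lt_card (ssubset_of_subset_of_ne hDV (fun h => hDA a (h ▸ hAV ha) ha))
  set N := A.filter (fun a => ∃ d ∈ D, G.Adj d a) with hN
  obtain ⟨r, hr, q, hq, m, hp⟩ := c.valid.allLive.last_exit (X := D ∪ N)
    (union_subset hDV ((filter_subset _ _).trans hAV)) (hD.2.1.mono subset_union_left)
  have hrN : r ∈ N := by
    refine (mem_union.1 hr).resolve_left fun hrD => ?_
    obtain ⟨y, hy, hadj, hne⟩ := hp.second (fun h => hQ r hrD (h ▸ hq))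
    rcases hy with hy | hy
    · apply hy.2
      rcases hnb r hrD y hy.1 hadj with h | h
      · exact mem_coe.2 (mem_union_left _ h)
      · exact mem_coe.2 (mem_union_right _ (mem_filter.2 ⟨h, r, hrD, hadj⟩))
    · exact hne (Set.mem_singleton_iff.1 hy)
  have hrA := (mem_filter.1 hrN).1
  set R' := D.filter (fun u => (u ∈ R ∧ o u = 1) ∨ ∃ a ∈ A, a ≠ r ∧ G.Adj u a) with hR'
  set Q' := D.filter (fun u => G.Adj u r) with hQ'
  have hV : Valid G D R' Q' := by
    constructor
    · intro P z hP hPne hc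
      by_contra hcon
      push Not at hcon
      obtain ⟨u, hu, h⟩ := c.nodead (z := z) (hP.trans hDV) hPne (by
        intro x hx y hy hxy
        rcases hnb x (hP hx) y hy hxy with h | h
        · exact hc x hx y h hxy
        · by_cases hyr : y = r
          · exact absurd (mem_filter.2 ⟨hP hx, hyr ▸ hxy⟩) (hcon x hx).2
          · exact absurd (mem_filter.2 ⟨hP hx, Or.inr ⟨y, h, hyr, hxy⟩⟩) (hcon x hx).1)
      exact hQ u (hP hu) h
    · intro P hP hPne hc
      have hPD : P = D := hD.2.2.2 P hP hPne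
        (fun x hx y hy hxy => hc x hx y (hD.2.2.1 x (hP hx) y hy hxy) hxy)
      subst hPD
      constructor
      · by_contra hcon
        push Not at hcon
        obtain ⟨u, hu, h⟩ := c.nodead (z := r) hDV hPne (by
          intro x hx y hy hxy
          rcases hnb x hx y hy hxy with h | h
          · exact Or.inl h
          · by_contra h2
            push Not at h2
            exact hcon x hx (mem_filter.2 ⟨hx, Or.inr ⟨y, h, h2.2, hxy⟩⟩))
        exact hQ u hu h
      · obtain ⟨d, hd, hadj⟩ := (mem_filter.1 hrN).2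
        exact ⟨d, hd, mem_filter.2 ⟨hd, hadj⟩⟩
  have b1 := c.bound (En := ((N.erase r : Finset α) : Set α))
    (Exi := ((V : Set α) \ ((D ∪ N : Finset α) : Set α)) ∪ {r}) (f := 1) (i' := i) (cc := 1)
    (o' := fun _ => 0) hDV hlt (filter_subset _ _) (filter_subset _ _) hV (coh_zero0 _)
    (by omega) le_rfl le_rfl
    (fun x hx => hAV (mem_filter.1 (mem_of_mem_erase hx)).1)
    (by
      rintro x (hx | hx)
      · exact hx.1
      · rw [Set.mem_singleton_iff.1 hx]; exact hAV hrA)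
    (fun x hx h => hDA x h (mem_filter.1 (mem_of_mem_erase hx)).1)
    (by
      rintro x (hx | hx) h
      · exact hx.2 (mem_coe.2 (mem_union_left _ h))
      · exact hDA x h (Set.mem_singleton_iff.1 hx ▸ hrA))
    (by
      rintro x hx (h | h)
      · exact h.2 (mem_coe.2 (mem_union_right _ (mem_of_mem_erase hx)))
      · exact (mem_erase.1 hx).1 (Set.mem_singleton_iff.1 h))
    (by
      intro u hu j hj
      obtain ⟨h1, h2 | ⟨a, ha, har, hadj⟩⟩ := mem_filter.1 hu
      · exact ⟨u, h2.1, 0, PathIn.refl (by simp), by omega⟩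
      · refine ⟨a, (hA a ha).1, 1, PathIn.edge hadj.symm (Or.inl ?_) (by simp),
          by have := (hA a ha).2; omega⟩
        exact mem_coe.2 (mem_erase.2 ⟨har, mem_filter.2 ⟨ha, u, h1, hadj⟩⟩))
    (by
      intro v hv
      obtain ⟨hvD, hadj⟩ := mem_filter.1 hv
      refine ⟨q, hq, m + 1, (PathIn.cons hadj ?_ hp).mono ?_⟩
      · rintro (h | h)
        · exact h.2 (mem_coe.2 (mem_union_left _ hvD))
        · exact hadj.ne (Set.mem_singleton_iff.1 h)
      · rintro x (rfl | hx)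
        · simp
        · exact Or.inl hx)
  have e1 : ∑ u ∈ D, (if (u ∈ R ∧ o u = 1) ∨ ∃ a ∈ A, G.Adj u a then 1 else 0) ≤
      R'.card + Q'.card := by
    rw [hR', hQ', card_filter, card_filter, ← sum_add_distrib]
    refine sum_le_sum fun u _ => ?_
    split_ifs with h1 h2 h3 h3 <;> try simp
    rcases h1 with h1 | ⟨a, ha, hadj⟩
    · exact h2 (Or.inl h1)
    · by_cases har : a = r
      · exact h3 (har ▸ hadj)
      · exact h2 (Or.inr ⟨a, ha, har, hadj⟩)
  rw [← mul_sum]
  rw [← hR', ← hQ'] at b1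
  omega

theorem Ctx.false_of (c : Ctx G V R Q o i) (h0 : ∃ a ∈ R, o a = 0) : False := by
  have h2i := c.two_le
  set A0 := R.filter (fun a => o a = 0) with hA0
  have hA0' : ∀ a ∈ A0, a ∈ R ∧ o a = 0 := fun a ha => mem_filter.1 ha
  have hA0V : A0 ⊆ V := fun a ha => c.hR (hA0' a ha).1
  obtain ⟨A, hAA, hne, hb⟩ := c.batch _ A0 (V \ A0) ∅ rfl hA0' sdiff_subset
    (fun h hh => (mem_sdiff.1 hh).2) (empty_subset _) (by simp)
  have hne' : A.Nonempty := by
    obtain ⟨a, ha, h⟩ := h0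
    exact hne ⟨a, mem_filter.2 ⟨ha, h⟩⟩
  rw [sdiff_union_of_subset hA0V] at hb
  simp only [empty_inter, card_empty, mul_zero, add_zero] at hb
  have hA : ∀ a ∈ A, a ∈ R ∧ o a = 0 := fun a ha => hA0' a (hAA ha)
  have hAV : A ⊆ V := hAA.trans hA0V
  set W := V \ A with hW
  set L := Lv G W Q with hL
  have hLW : L ⊆ W := Lv_subset _ _
  have hWV : W ⊆ V := sdiff_subset
  set R1 := W.filter (fun u => (u ∈ R ∧ o u = 1) ∨ ∃ a ∈ A, G.Adj u a) with hR1
  have b1 := closed_bound W _ _ _ (W \ L) rfl sdiff_subset (sdiff_closed (Lv_closed _ _))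
    (fun D hD hC => c.dead_layer hA hne' hC (fun u hu => dead_noQ u (hD hu)))
  have toL : ∀ x ∈ L, x ∉ R1 → ∀ y ∈ V, G.Adj x y → y ∈ L := fun x hx h y hy hxy =>
    Lv_closed _ _ x hx y (mem_sdiff.2 ⟨hy, fun hyA =>
      h (mem_filter.2 ⟨hLW hx, Or.inr ⟨y, hyA, hxy⟩⟩)⟩) hxy
  have hV : Valid G L R1 Q := by
    constructor
    · intro P z hP hPne hc
      by_contra hcon
      push Not at hcon
      obtain ⟨u, hu, h⟩ := c.nodead (z := z) (hP.trans (hLW.trans hWV)) hPne
        (fun x hx y hy hxy => hc x hx y (toL x (hP hx) (hcon x hx).1 y hy hxy) hxy)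
      exact (hcon u hu).2 h
    · intro P hP hPne hc
      refine ⟨?_, Lv_allLive _ _ P hP hPne hc⟩
      by_contra hcon
      push Not at hcon
      have := c.conn (hP.trans (hLW.trans hWV)) hPne
        (fun x hx y hy hxy => hc x hx y (toL x (hP hx) (hcon x hx) y hy hxy) hxy)
      obtain ⟨a, ha⟩ := hne'
      exact (mem_sdiff.1 (hLW (hP (this ▸ hAV ha)))).2 ha
  have hc1 : W.card + A.card = V.card := card_sdiff_add_card_eq_card hAV
  have hc2 : (W \ L).card + L.card = W.card := card_sdiff_add_card_eq_card hLW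
  have hpos := hne'.card_pos
  have b2 := c.bound (En := (A : Set α)) (Exi := ∅) (f := 1) (i' := i) (cc := 1)
    (o' := fun _ => 0) (hLW.trans hWV) (by omega) inter_subset_right inter_subset_right hV.inter
    (coh_zero0 _) (by omega) le_rfl le_rfl (by simpa using hAV) (by simp)
    (fun x hx h => (mem_sdiff.1 (hLW h)).2 hx) (by simp) (by simp)
    (by
      intro u hu j hj
      obtain ⟨-, h2 | ⟨a, ha, hadj⟩⟩ := mem_filter.1 (mem_inter.1 hu).1
      · exact ⟨u, h2.1, 0, PathIn.refl (by simp), by omega⟩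
      · exact ⟨a, (hA a ha).1, 1, PathIn.edge hadj.symm (Or.inl ha) (by simp),
          by have := (hA a ha).2; omega⟩)
    (fun v hv => ⟨v, (mem_inter.1 hv).1, 0, PathIn.refl (by simp)⟩)
  have e1 := dd_sdiff (G := G) hAV
  rw [sum_nb_comm, ← hW] at e1
  have e2 := dd_closed hLW (Lv_closed (G := G) W Q)
  have e3 := card_split Q hAV
  rw [inter_eq_left.2 c.hQ, ← hW] at e3
  have e4 := card_split Q hLW
  have e5 : (Q ∩ (W \ L)).card = 0 := by
    rw [card_eq_zero, eq_empty_iff_forall_notMem]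
    exact fun x hx => dead_noQ x (mem_inter.1 hx).2 (mem_inter.1 hx).1
  have e6 := card_split R1 hLW
  have e7 : ∑ u ∈ W \ L, 2 * (if (u ∈ R ∧ o u = 1) ∨ ∃ a ∈ A, G.Adj u a then 1 else 0) =
      2 * (R1 ∩ (W \ L)).card := by
    rw [← mul_sum, card_inter_eq_sum]
    congr 1
    refine sum_congr rfl fun u hu => ?_
    simp only [hR1, mem_filter, (mem_sdiff.1 hu).1, true_and]
  have e8 : R.card ≤ A0.card + ((R.filter (fun u => o u = 1)) ∩ W).card := by
    refine le_trans (card_le_card ?_) (card_union_le _ _)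
    intro x hx
    have := c.coh.1 x hx
    by_cases h : o x = 0
    · exact mem_union_left _ (mem_filter.2 ⟨hx, h⟩)
    · refine mem_union_right _ (mem_inter.2 ⟨mem_filter.2 ⟨hx, by omega⟩,
        mem_sdiff.2 ⟨c.hR hx, fun hxA => h (hA x hxA).2⟩⟩)
  have e9 : ∑ u ∈ W, nb G A u + ((R.filter (fun u => o u = 1)) ∩ W).card ≤
      ∑ u ∈ W, (nb G A u - 1) + (R1 ∩ W).card := by
    rw [card_inter_eq_sum, card_inter_eq_sum, ← sum_add_distrib, ← sum_add_distrib]
    refine sum_le_sum fun u hu => ?_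
    by_cases h1 : u ∈ R.filter (fun u => o u = 1)
    · have h2 := mem_filter.1 h1
      rw [if_pos h1, if_pos (mem_filter.2 ⟨hu, Or.inl h2⟩), nb_eq_zero]
      intro a ha hadj
      have := c.coh.2 u h2.1 a (hA a ha).1 hadj
      have := (hA a ha).2
      omega
    · rw [if_neg h1]
      by_cases h2 : 0 < nb G A u
      · rw [if_pos (mem_filter.2 ⟨hu, Or.inr (nb_pos_iff.1 h2)⟩)]
        omega
      · omega
  have := c.dens
  rw [← hc1, ← hc2, mul_add, mul_add] at this
  rw [e7] at b1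
  omega

theorem rdt (G : SimpleGraph α) : ∀ (n : ℕ) (V : Finset α), V.card = n → RDT G V := by
  intro n
  induction n using Nat.strong_induction_on with
  | _ n ih =>
  intro V hn R Q o i hR hQ hV hC hd
  have ih' : ∀ V' : Finset α, V'.card < V.card → RDT G V' :=
    fun V' h => ih V'.card (by omega) V' rfl
  by_contra hcon
  push Not at hcon
  have c : Ctx G V R Q o i := ⟨hR, hQ, hV, hC, hd, hcon, ih'⟩
  by_cases h0 : ∃ a ∈ R, o a = 0
  · exact c.false_of h0
  · push Not at h0
    have c' : Ctx G V R Q (fun _ => 0) i := by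
      refine ⟨hR, hQ, hV, coh_zero0 _, hd, ?_, ih'⟩
      rintro v hv ⟨a, ha⟩
      refine hcon v hv ⟨a + 1, fun j hj => ?_⟩
      obtain ⟨r, hr, m, hp, e⟩ := ha j hj
      have h1 := hC.1 r hr
      have h2 := h0 r hr
      refine ⟨r, hr, m, hp, ?_⟩
      simp only at e
      omega
    obtain ⟨r, -, hr⟩ := (hV.2 V subset_rfl c.nonempty (fun _ _ w hw _ => hw)).1
    exact c'.false_of ⟨r, hr, rfl⟩

theorem upper : Upper := fun α G k hk V hne h =>
  main_of_caseD caseD α G (fun V => rdt G _ V rfl) k hk V hne h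

theorem final : Final := final_of_upper upper

end Pool.Agent.P.MP_e76938_co
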