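import Pool.Agent.P.MP_e76938_co.CMoveB
import Pool.Agent.P.MP_e76938_co.ClaimB

set_option autoImplicit false

namespace Pool.Agent.P.MP_e76938_co

open Finset SimpleGraph Classical

variable {α : Type} {G : SimpleGraph α} {V R Q : Finset α} {o : α → ℕ} {i : ℕ}

/-- incidence between entry vertices and hubs (exit hub, real hubs, virtual hubs) -/
def Inc (G : SimpleGraph α) (St : α → α → Prop) (ex : α → Prop) (H : Finset α) (x : α) :
    Option (α ⊕ α × α) → Prop
  | none => ex x
  | some (Sum.inl h) => h ∈ H ∧ G.Adj x h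
  | some (Sum.inr p) => St p.1 p.2 ∧ (x = p.1 ∨ x = p.2)

theorem realize {A H F : Finset α} {St : α → α → Prop} {ex : α → Prop} (hA : A ⊆ V) (hH : H ⊆ V)
    (hHA : ∀ h ∈ H, h ∉ A) (hFA : ∀ x ∈ F, x ∉ A) (hFH : ∀ x ∈ F, x ∉ H)
    (hsym : ∀ a b, St a b → St b a)
    (hcd : ∀ a ∈ A, ∀ b ∈ A, St a b →
      2 * i + F.card ≤ (V.filter (fun u => G.Adj u a ∧ G.Adj u b)).card + 3)
    {r : ℕ → α} {u : ℕ → Option (α ⊕ α × α)} (hP : GP A (Inc G St ex H) none i r u) :
    ∀ l, 1 ≤ l → l ≤ i → ∃ W ⊆ V, W.card + 1 ≤ 2 * l ∧ (∀ x ∈ W, x ∉ F) ∧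
      (∀ x ∈ W, x ∈ A ∨ ∃ a ∈ A, G.Adj a x) ∧ (∀ m, l < m → m ≤ i → r m ∉ W) ∧
      (∀ m h, l ≤ m → m < i → u m = some (Sum.inl h) → h ∉ W) ∧ r l ∈ W ∧
      ∀ j < l, PathIn G (W : Set α) (r (j + 1)) (r 1) (2 * j) := by
  obtain ⟨g0, g1, g2, g3, g4, g5⟩ := hP
  intro l hl1
  induction l, hl1 using Nat.le_induction with
  | base =>
    intro hi
    refine ⟨{r 1}, by simpa using hA (g1 1 le_rfl hi), by simp, ?_, ?_, ?_, ?_, by simp, ?_⟩
    · intro x hx h
      rw [mem_singleton.1 hx] at h
      exact hFA _ h (g1 1 le_rfl hi)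
    · intro x hx
      rw [mem_singleton.1 hx]
      exact Or.inl (g1 1 le_rfl hi)
    · intro m h1 h2 h
      have := g2 m 1 (by omega) h2 le_rfl hi (mem_singleton.1 h)
      omega
    · intro m h h1 h2 h3 h4
      have := g4 m h2
      rw [h3] at this
      exact hHA h this.1 (mem_singleton.1 h4 ▸ g1 1 le_rfl hi)
    · intro j hj
      obtain rfl : j = 0 := by omega
      exact PathIn.refl (by simp)
  | succ l hl ih =>
    intro hi
    obtain ⟨W, w0, w1, w2, w3, w4, w5, w6, w7⟩ := ih (by omega)
    have hrl := g1 l hl (by omega)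
    have hrl' := g1 (l + 1) (by omega) hi
    have hne : r l ≠ r (l + 1) := fun h => by
      have := g2 l (l + 1) hl (by omega) (by omega) hi h
      omega
    obtain ⟨x, x0, x1, x2, x3, x4, x5, x6⟩ : ∃ x ∈ V, G.Adj x (r l) ∧ G.Adj x (r (l + 1)) ∧
        x ∉ W ∧ x ∉ F ∧ (∀ m, l + 1 < m → m ≤ i → r m ≠ x) ∧
        (∀ m h, l + 1 ≤ m → m < i → u m = some (Sum.inl h) → h ≠ x) := by
      have i1 := g4 l (by omega)
      have i2 := g5 l hl (by omega)
      rcases hu : u l with _ | h | p
      · have := g3 l 0 (by omega) (by omega) (by rw [hu, g0])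
        omega
      · rw [hu] at i1 i2
        refine ⟨h, hH i1.1, i2.2.symm, i1.2.symm, w5 l h le_rfl (by omega) hu,
          fun hF => hFH h hF i1.1, ?_, ?_⟩
        · intro m h1 h2 h3
          exact hHA h i1.1 (h3 ▸ g1 m (by omega) h2)
        · intro m h' h1 h2 h3 h4
          have := g3 l m (by omega) h2 (by rw [hu, h3, h4])
          omega
      · rw [hu] at i1 i2
        have hSt : St (r l) (r (l + 1)) := by
          obtain ⟨a1, a2 | a2⟩ := i1 <;> obtain ⟨-, a3 | a3⟩ := i2
          · exact absurd (a3.trans a2.symm) hne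
          · rw [a2, a3]; exact hsym _ _ a1
          · rw [a2, a3]; exact a1
          · exact absurd (a3.trans a2.symm) hne
        have hc := hcd _ hrl _ hrl' hSt
        set hb : ℕ → α := fun m => match u m with
          | some (Sum.inl h) => h
          | _ => r m with hhb
        set B := W.erase (r l) ∪ F ∪ (Icc (l + 2) i).image r ∪ (Ico (l + 1) i).image hb with hB
        have hBc : B.card + 4 ≤ 2 * i + F.card := by
          have a1 := card_union_le (W.erase (r l) ∪ F ∪ (Icc (l + 2) i).image r)
            ((Ico (l + 1) i).image hb)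
          have a2 := card_union_le (W.erase (r l) ∪ F) ((Icc (l + 2) i).image r)
          have a3 := card_union_le (W.erase (r l)) F
          have a4 := card_erase_of_mem w6
          have a5 : ((Icc (l + 2) i).image r).card ≤ _ := card_image_le
          have a6 : ((Ico (l + 1) i).image hb).card ≤ _ := card_image_le
          rw [Nat.card_Icc] at a5
          rw [Nat.card_Ico] at a6
          have a7 := card_pos.2 ⟨_, w6⟩
          rw [← hB] at a1
          omega
        obtain ⟨x, hx, hxB⟩ := exists_mem_notMem_of_card_lt_card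
          (show B.card < (V.filter (fun u => G.Adj u (r l) ∧ G.Adj u (r (l + 1)))).card by omega)
        obtain ⟨x0, x1, x2⟩ := mem_filter.1 hx
        simp only [hB, mem_union, not_or, mem_erase, mem_image, not_exists, not_and, mem_Icc,
          mem_Ico] at hxB
        refine ⟨x, x0, x1, x2, hxB.1.1.1 x1.ne, hxB.1.1.2, ?_, ?_⟩
        · intro m h1 h2
          exact hxB.1.2 m ⟨by omega, h2⟩
        · intro m h h1 h2 h3
          have := hxB.2 m ⟨h1, h2⟩
          simpa [hhb, h3] using this
    have hrW : r (l + 1) ∉ W := w4 (l + 1) (by omega) hi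
    have hsub : (W : Set α) ⊆ ((insert (r (l + 1)) (insert x W) : Finset α) : Set α) := by
      intro y hy
      simp [show y ∈ W from hy]
    refine ⟨insert (r (l + 1)) (insert x W), ?_, ?_, ?_, ?_, ?_, ?_, by simp, ?_⟩
    · simp [insert_subset_iff, hA hrl', x0, w0]
    · have a1 := card_insert_le (r (l + 1)) (insert x W)
      have a2 := card_insert_le x W
      omega
    · intro y hy
      simp only [mem_insert] at hy
      rcases hy with rfl | rfl | hy
      · exact fun h => hFA _ h hrl'
      · exact x4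
      · exact w2 y hy
    · intro y hy
      simp only [mem_insert] at hy
      rcases hy with rfl | rfl | hy
      · exact Or.inl hrl'
      · exact Or.inr ⟨_, hrl, x1.symm⟩
      · exact w3 y hy
    · intro m h1 h2
      simp only [mem_insert, not_or]
      refine ⟨fun h => ?_, x5 m h1 h2, w4 m (by omega) h2⟩
      have := g2 m (l + 1) (by omega) h2 (by omega) hi h
      omega
    · intro m h h1 h2 h3
      simp only [mem_insert, not_or]
      refine ⟨fun h4 => ?_, x6 m h h1 h2 h3, w5 m h (by omega) h2 h3⟩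
      have := g4 m h2
      rw [h3] at this
      exact hHA h this.1 (h4 ▸ hrl')
    · intro j hj
      by_cases hjl : j < l
      · exact (w7 j hjl).mono hsub
      · obtain rfl : j = l := by omega
        obtain ⟨k, rfl⟩ : ∃ k, j = k + 1 := ⟨j - 1, by omega⟩
        have p1 := PathIn.cons x1 (W := (W : Set α)) x3 (w7 k (by omega))
        have p2 := PathIn.cons x2.symm (by
          rintro (h | h)
          · exact x2.ne h.symm
          · exact hrW h) p1
        refine (show 2 * k + 1 + 1 = 2 * (k + 1) by ring) ▸ p2.mono ?_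
        simp

end Pool.Agent.P.MP_e76938_co
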