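import Pool.Agent.P.MP_e76938_co.Ext

set_option autoImplicit false

namespace Pool.Agent.P.MP_e76938_co

open Finset SimpleGraph Classical

variable {α : Type} {G : SimpleGraph α} {V R Q : Finset α} {o : α → ℕ} {i : ℕ}

theorem Rem.sum_le {W R Q Y : Finset α} (hY : Rem G W R Q Y) :
    ∑ u ∈ Y, nb G (W \ Y) u + (Q ∩ Y).card ≤ (Ex G W Q Y).card := by
  rw [card_Ex, card_inter_eq_sum, ← sum_add_distrib]
  refine sum_le_sum fun u hu => ?_
  have := hY.ex_le hu
  omega

theorem sum_two_ind (R Q Y : Finset α) :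
    ∑ u ∈ Y, (2 * (if u ∈ R then 1 else 0) + 2 * (if u ∈ Q then 1 else 0)) =
      2 * (R ∩ Y).card + 2 * (Q ∩ Y).card := by
  rw [sum_add_distrib, ← mul_sum, ← mul_sum, card_inter_eq_sum, card_inter_eq_sum]

/-- no set without exits hangs at a single vertex -/
theorem Ctx.nodead (c : Ctx G V R Q o i) {P : Finset α} {z : α} (hP : P ⊆ V) (hne : P.Nonempty)
    (hc : Cl1 G V P z) : ∃ u ∈ P, u ∈ Q := by
  by_contra hcon
  push Not at hcon
  have h2i := c.two_le
  have hz : z ∈ V ∧ z ∉ P := by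
    by_contra hz
    obtain ⟨u, hu, hq⟩ := (c.valid.2 P hP hne (by
      intro a ha b hb hab
      rcases hc a ha b hb hab with h | h
      · exact h
      · subst h
        by_contra h
        exact hz ⟨hb, h⟩)).2
    exact hcon u hu hq
  have hrem : Rem G V ∅ Q P := ⟨hP, hne, by simp, Or.inr ⟨z, hc, hcon⟩⟩
  have hL : AllLive G (V \ P) Q := hrem.allLive c.valid.allLive
  have hcard : (V \ P).card + P.card = V.card := card_sdiff_add_card_eq_card hP
  have hpos := hne.card_pos
  have hzW : z ∈ V \ P := mem_sdiff.2 hz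
  have hpos2 := card_pos.2 ⟨z, hzW⟩
  have hVP : Valid G P (R ∩ P) (Ex G V Q P) := by
    refine valid_Ex c.valid hP (fun u hu h => mem_inter.2 ⟨h, hu⟩) ?_
    intro P' h1 h2 h3
    obtain ⟨u, hu, h4⟩ := c.valid.1 P' z (h1.trans hP) h2 (by
      intro a ha b hb hab
      rcases hc a (h1 ha) b hb hab with h | h
      · exact Or.inl (h3 a ha b h hab)
      · exact Or.inr h)
    exact ⟨u, hu, mem_inter.2 ⟨h4.resolve_right (hcon u (h1 hu)), h1 hu⟩⟩
  have b1 := c.bound_lab (Exi := ((V \ P : Finset α) : Set α)) hP (by omega) (Ex_subset _ _ _) hVP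
    (by simp) (by intro x hx; exact (mem_sdiff.1 hx).2)
    (fun v hv => Ex_route hL hv)
  -- entry path to z through P
  obtain ⟨r0, hr0, n0, hp0⟩ : ∃ r ∈ R, ∃ n, PathIn G ((P : Set α) ∪ {z}) r z n := by
    obtain ⟨r, hr, hrR⟩ := (hVP.2 P subset_rfl hne (fun _ _ w hw _ => hw)).1
    obtain ⟨q, hq, n, hp⟩ := hVP.allLive.live hr
    obtain ⟨hqP, h | ⟨w, hw, hwP, hadj⟩⟩ := mem_Ex.1 hq
    · exact absurd h (hcon q hqP)
    · have : w = z := (hc q hqP w hw hadj).resolve_left hwP
      subst this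
      refine ⟨r, (mem_inter.1 hrR).1, n + 1, (hp.snoc hadj hwP).mono ?_⟩
      intro x hx
      rcases hx with rfl | hx
      · simp
      · exact Or.inl hx
  obtain ⟨K, hK, hV, -, hq⟩ := core (G := G) R Q _ (V \ P) rfl hL
  have hq1 := hq (fun u => 2 * (if u ∈ R then 1 else 0) + 2 * (if u ∈ Q then 1 else 0))
    (2 * i + 1) (by
    intro Y hY
    have hYV : Y ⊆ V := hY.1.trans sdiff_subset
    have lift0 : ∀ P' ⊆ Y, z ∉ P' → ∀ a ∈ P', ∀ b ∈ V, G.Adj a b → b ∈ V \ P := by
      intro P' h1 h2 a ha b hb hab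
      refine mem_sdiff.2 ⟨hb, fun hbP => ?_⟩
      have haW := mem_sdiff.1 (hY.1 (h1 ha))
      rcases hc b hbP a haW.1 hab.symm with h | h
      · exact haW.2 h
      · exact h2 (h ▸ ha)
    have meet : ∀ P' ⊆ Y, P'.Nonempty → Cl0 G Y P' → z ∈ P' := by
      intro P' h1 h2 h3
      by_contra hzP
      rcases hY.2.2.2 with h0 | ⟨z2, hz2, hQ2⟩
      · obtain ⟨u, hu, hR⟩ := (c.valid.2 P' (h1.trans hYV) h2 (fun a ha b hb hab =>
          h3 a ha b (h0 a (h1 ha) b (lift0 P' h1 hzP a ha b hb hab) hab) hab)).1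
        exact hY.2.2.1 u (h1 hu) hR
      · obtain ⟨u, hu, hR | hR⟩ := c.valid.1 P' z2 (h1.trans hYV) h2 (by
          intro a ha b hb hab
          rcases hz2 a (h1 ha) b (lift0 P' h1 hzP a ha b hb hab) hab with h | h
          · exact Or.inl (h3 a ha b h hab)
          · exact Or.inr h)
        · exact hY.2.2.1 u (h1 hu) hR
        · exact hQ2 u (h1 hu) hR
    have hzY : z ∈ Y := meet Y subset_rfl hY.2.1 (fun _ _ w hw _ => hw)
    have hVY : Valid G Y {z} (Ex G (V \ P) Q Y) := by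
      constructor
      · intro P' z' h1 h2 h3
        by_contra hcon2
        push Not at hcon2
        have hzP : z ∉ P' := fun h => (hcon2 z h).1 (by simp)
        obtain ⟨u, hu, h4⟩ := c.valid.1 P' z' (h1.trans hYV) h2 (by
          intro a ha b hb hab
          have hbW := lift0 P' h1 hzP a ha b hb hab
          by_cases hbY : b ∈ Y
          · exact h3 a ha b hbY hab
          · exact absurd (mem_Ex.2 ⟨h1 ha, Or.inr ⟨b, hbW, hbY, hab⟩⟩) (hcon2 a ha).2)
        rcases h4 with h4 | h4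
        · exact hY.2.2.1 u (h1 hu) h4
        · exact (hcon2 u hu).2 (mem_Ex.2 ⟨h1 hu, Or.inl h4⟩)
      · intro P' h1 h2 h3
        refine ⟨⟨z, meet P' h1 h2 h3, by simp⟩, ?_⟩
        by_contra hcon2
        push Not at hcon2
        obtain ⟨u, hu, h4⟩ := hL P' (h1.trans hY.1) h2 (by
          intro a ha b hb hab
          by_cases hbY : b ∈ Y
          · exact h3 a ha b hbY hab
          · exact absurd (mem_Ex.2 ⟨h1 ha, Or.inr ⟨b, hb, hbY, hab⟩⟩) (hcon2 a ha))
        exact hcon2 u hu (mem_Ex.2 ⟨h1 hu, Or.inl h4⟩)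
    have hYc := card_le_card hY.1
    have b2 := c.bound (En := (P : Set α)) (Exi := (((V \ P) \ Y : Finset α) : Set α)) (f := 1)
      (i' := i) (cc := n0 + o r0) (o' := fun _ => 0) hYV (by omega) (by simpa using hzY)
      (Ex_subset _ _ _) hVY (coh_zero0 _) (by omega) le_rfl le_rfl (by simpa using hP)
      (by intro x hx; exact (mem_sdiff.1 (mem_sdiff.1 hx).1).1)
      (fun x hx hxY => (mem_sdiff.1 (hY.1 hxY)).2 hx)
      (fun x hx => (mem_sdiff.1 hx).2)
      (fun x hx hx2 => (mem_sdiff.1 (mem_sdiff.1 hx2).1).2 hx)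
      (by
        intro r' hr' j hj
        rw [mem_singleton.1 hr']
        exact ⟨r0, hr0, n0, hp0, by omega⟩)
      (fun v hv => Ex_route (hY.allLive hL) hv)
    have e1 := hY.sum_le
    rw [sum_two_ind]
    have e2 : (R ∩ Y).card = 0 := by
      rw [card_eq_zero, eq_empty_iff_forall_notMem]
      intro x hx
      exact hY.2.2.1 x (mem_inter.1 hx).2 (mem_inter.1 hx).1
    omega)
  simp only [sum_two_ind] at hq1
  have hKc := card_le_card hK
  have b3 := c.bound_self (hK.trans sdiff_subset) (by omega) hV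
  have e1 := dd_sdiff (G := G) hP
  have e2 := card_split R hP
  have e3 := card_split Q hP
  rw [inter_eq_left.2 c.hR] at e2
  rw [inter_eq_left.2 c.hQ] at e3
  have e4 := hrem.sum_le
  have := c.dens
  rw [← hcard, mul_add] at this
  omega

end Pool.Agent.P.MP_e76938_co
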