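import Pool.Agent.P.MP_e76938_co.Step0

set_option autoImplicit false

namespace Pool.Agent.P.MP_e76938_co

open Finset SimpleGraph Classical

variable {α : Type} {G : SimpleGraph α} {V R Q : Finset α} {o : α → ℕ} {i : ℕ}

/-- the live part of `W` -/
noncomputable def Lv (G : SimpleGraph α) (W Q : Finset α) : Finset α :=
  W.filter (fun u => Live G W Q u)

theorem Lv_subset (W Q : Finset α) : Lv G W Q ⊆ W := filter_subset _ _

theorem Lv_closed (W Q : Finset α) : Cl0 G W (Lv G W Q) := live_closed W Q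

theorem Lv_allLive (W Q : Finset α) : AllLive G (Lv G W Q) Q := allLive_live W Q

theorem mem_Lv_of_mem_Q {W Q : Finset α} {u : α} (hu : u ∈ W) (hq : u ∈ Q) : u ∈ Lv G W Q :=
  mem_filter.2 ⟨hu, u, hq, 0, PathIn.refl hu⟩

theorem Ctx.undo (c : Ctx G V R Q o i) {S R1 : Finset α} {X : Set α} {f cc : ℕ} (hS : S ⊆ R)
    (hSne : S.Nonempty) (hf : 1 ≤ f) (hXV : X ⊆ V)
    (hX : ∀ K ⊆ Lv G (V \ S) Q, Valid G K R1 Q → ∀ x ∈ X, x ∉ K)
    (entry : ∀ r' ∈ R1, r' ∈ Lv G (V \ S) Q → ∀ j < f, ∃ r ∈ R, ∃ n,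
      PathIn G (X ∪ {r'}) r r' n ∧ n + o r = cc + 2 * j)
    (wt : ∀ u ∈ Lv G (V \ S) Q, u ∉ X →
      (if u ∈ R then 1 else 0) + nb G S u + 1 ≤ f + (if u ∈ R1 then 1 else 0))
    (root : ∃ r ∈ R1, r ∈ Lv G (V \ S) Q) : False := by
  set L := Lv G (V \ S) Q with hLdef
  have hLW : L ⊆ V \ S := Lv_subset _ _
  have hLV : L ⊆ V := hLW.trans sdiff_subset
  obtain ⟨K, hK, hV, h1, -⟩ := core (G := G) R1 Q _ L rfl (Lv_allLive _ _)
  have hKV : K ⊆ V := hK.trans hLV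
  obtain ⟨r1, hr1, hr1L⟩ := root
  have hr1K : r1 ∈ K := by
    by_contra h
    obtain ⟨Y, hY, h2, -⟩ := h1 r1 hr1L h
    exact hY.2.2.1 r1 h2 hr1
  have hKne : K.Nonempty := ⟨r1, hr1K⟩
  have hSK : ∀ s ∈ S, s ∉ K := fun s hs h => (mem_sdiff.1 (hLW (hK h))).2 hs
  have hcard : (V \ K).card + K.card = V.card := card_sdiff_add_card_eq_card hKV
  have hpos := hKne.card_pos
  have hVK : V \ (V \ K) = K := Finset.sdiff_sdiff_eq_self hKV
  have entry' : ∀ f' ≤ f, ∀ r' ∈ R1 ∩ K, ∀ j < f', ∃ r ∈ R, ∃ n,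
      PathIn G (X ∪ {r'}) r r' n ∧ n + o r = cc + 0 + 2 * j :=
    fun f' hf' r' hr' j hj => entry r' (mem_inter.1 hr').1 (hK (mem_inter.1 hr').2) j (by omega)
  by_cases hfi : i < f
  · obtain ⟨v, hv, hF⟩ := fam_one (fun _ => 0) hV.inter hKne
    exact c.ext (En := X) (Exi := ∅) (f := f) (cc := cc) hKV le_rfl hf (by omega) hXV (by simp)
      (hX K hK hV) (by simp) (by simp) (fun r hr _ => entry' f le_rfl r hr)
      ⟨v, (mem_inter.1 hv).1, 0, PathIn.refl (by simp)⟩ hF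
  have hSV : S ⊆ V := hS.trans c.hR
  have hSP : S ⊆ V \ K := fun s hs => mem_sdiff.2 ⟨hSV hs, hSK s hs⟩
  have hpos2 : 0 < (V \ K).card := card_pos.2 (hSne.mono hSP)
  have hVP : Valid G (V \ K) (R ∩ (V \ K)) (Ex G V Q (V \ K)) := by
    refine valid_Ex c.valid sdiff_subset (fun u hu h => mem_inter.2 ⟨h, hu⟩) ?_
    intro P' hP' hne hc
    by_contra hcon
    push Not at hcon
    have hnR : ∀ u ∈ P', u ∉ R := fun u hu h => hcon u hu (mem_inter.2 ⟨h, hP' hu⟩)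
    have hnb : ∀ a ∈ P', ∀ b ∈ V, G.Adj a b → b ∈ V \ S := by
      intro a ha b hb hab
      refine mem_sdiff.2 ⟨hb, fun hbS => hnR b (hc a ha b (hSP hbS) hab) (hS hbS)⟩
    have hP'W : P' ⊆ V \ S := fun a ha =>
      mem_sdiff.2 ⟨(mem_sdiff.1 (hP' ha)).1, fun h => hnR a ha (hS h)⟩
    obtain ⟨u, hu⟩ := hne
    by_cases huL : u ∈ L
    · obtain ⟨Y, hY, huY, hYK⟩ := h1 u huL (mem_sdiff.1 (hP' hu)).2
      have hsub : P' ∩ Y ⊆ V := inter_subset_right.trans (hY.1.trans hLV)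
      have hne2 : (P' ∩ Y).Nonempty := ⟨u, mem_inter.2 ⟨hu, huY⟩⟩
      have hin : ∀ a ∈ P' ∩ Y, ∀ b ∈ V, G.Adj a b → b ∈ Y → b ∈ P' ∩ Y := fun a ha b hb hab h =>
        mem_inter.2 ⟨hc a (mem_inter.1 ha).1 b (mem_sdiff.2 ⟨hb, hYK b h⟩) hab, h⟩
      have hL2 : ∀ a ∈ P' ∩ Y, ∀ b ∈ V, G.Adj a b → b ∈ L := fun a ha b hb hab =>
        Lv_closed _ _ a (hY.1 (mem_inter.1 ha).2) b (hnb a (mem_inter.1 ha).1 b hb hab) hab
      rcases hY.2.2.2 with h0 | ⟨z, hz, hQ⟩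
      · obtain ⟨v, hv, hvR⟩ := (c.valid.2 _ hsub hne2 (fun a ha b hb hab =>
          hin a ha b hb hab (h0 a (mem_inter.1 ha).2 b (hL2 a ha b hb hab) hab))).1
        exact hnR v (mem_inter.1 hv).1 hvR
      · obtain ⟨v, hv, hvQ⟩ := c.nodead (z := z) hsub hne2 (by
          intro a ha b hb hab
          rcases hz a (mem_inter.1 ha).2 b (hL2 a ha b hb hab) hab with h | h
          · exact Or.inl (hin a ha b hb hab h)
          · exact Or.inr h)
        exact hQ v (mem_inter.1 hv).2 hvQ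
    · obtain ⟨v, hv, hvR⟩ := (c.valid.2 (P' \ L) (fun a ha => (mem_sdiff.1 (hP' (mem_sdiff.1 ha).1)).1)
        ⟨u, mem_sdiff.2 ⟨hu, huL⟩⟩ (by
          intro a ha b hb hab
          have haP := (mem_sdiff.1 ha).1
          have hbL : b ∉ L := fun h =>
            (mem_sdiff.1 ha).2 (Lv_closed _ _ b h a (hP'W haP) hab.symm)
          exact mem_sdiff.2 ⟨hc a haP b (mem_sdiff.2 ⟨hb, fun h => hbL (hK h)⟩) hab, hbL⟩)).1
      exact hnR v (mem_sdiff.1 hv).1 hvR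
  have hLK : AllLive G (V \ (V \ K)) Q := by rw [hVK]; exact hV.allLive
  have b1 := c.bound_lab (Exi := ((V \ (V \ K) : Finset α) : Set α)) sdiff_subset (by omega)
    (Ex_subset _ _ _) hVP (by simp) (by intro x hx; exact (mem_sdiff.1 hx).2)
    (fun v hv => Ex_route hLK hv)
  have b2 := c.bound (En := X) (Exi := ∅) (f := f) (cc := cc) (i' := i + 1 - f) (o' := fun _ => 0)
    hKV (by omega) inter_subset_right inter_subset_right hV.inter (coh_zero0 _) (by omega) hf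
    (by omega) hXV (by simp) (hX K hK hV) (by simp) (by simp) (entry' f le_rfl)
    (fun v hv => ⟨v, (mem_inter.1 hv).1, 0, PathIn.refl (by simp)⟩)
  have e1 := dd_sdiff (G := G) hKV
  have e2 := card_split R hKV
  have e3 := card_split Q hKV
  rw [inter_eq_left.2 c.hR] at e2
  rw [inter_eq_left.2 c.hQ] at e3
  have e4 : ∑ u ∈ K, nb G (V \ K) u + (Q ∩ (V \ K)).card ≤
      (Ex G V Q (V \ K)).card + ∑ u ∈ K, nb G S u := by
    rw [sum_nb_comm K (V \ K), sum_nb_comm K S, card_Ex, card_inter_eq_sum, ← sum_add_distrib]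
    have h3 : ∑ w ∈ S, nb G K w = ∑ w ∈ V \ K, if w ∈ S then nb G K w else 0 := by
      rw [← sum_filter, filter_mem_eq_inter, inter_eq_right.2 hSP]
    rw [h3, ← sum_add_distrib]
    refine sum_le_sum fun u hu => ?_
    have hQE : u ∈ Q → u ∈ Ex G V Q (V \ K) := fun h => mem_Ex.2 ⟨hu, Or.inl h⟩
    by_cases huS : u ∈ S
    · rw [if_pos huS]
      by_cases hq : u ∈ Q
      · rw [if_pos hq, if_pos (hQE hq)]; omega
      · rw [if_neg hq]; omega
    rw [if_neg huS, add_zero]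
    by_cases hadj : ∃ w ∈ K, G.Adj u w
    · obtain ⟨w, hw, hadj⟩ := hadj
      have huL : u ∈ L := Lv_closed _ _ w (hK hw) u (mem_sdiff.2 ⟨(mem_sdiff.1 hu).1, huS⟩) hadj.symm
      obtain ⟨Y, hY, huY, hYK⟩ := h1 u huL (mem_sdiff.1 hu).2
      have h4 := hY.ex_le huY
      have h5 : nb G K u ≤ nb G (L \ Y) u :=
        nb_mono (fun x hx => mem_sdiff.2 ⟨hK hx, fun h => hYK x h hx⟩) u
      rw [if_pos (mem_Ex.2 ⟨hu, Or.inr ⟨w, hKV hw, by simp [hw], hadj⟩⟩)]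
      have h6 : (if u ∈ Ex G L Q Y then 1 else 0) ≤ 1 := by split_ifs <;> simp
      omega
    · push Not at hadj
      rw [nb_eq_zero hadj, zero_add]
      by_cases hq : u ∈ Q
      · rw [if_pos hq, if_pos (hQE hq)]
      · rw [if_neg hq]; omega
  have e5 : (R ∩ K).card + ∑ u ∈ K, nb G S u + K.card ≤ f * K.card + (R1 ∩ K).card := by
    have := sum_le_sum (fun u (hu : u ∈ K) => wt u (hK hu) (fun h => hX K hK hV u h hu))
    simp only [sum_add_distrib, sum_const, smul_eq_mul, mul_one] at this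
    rw [card_inter_eq_sum, card_inter_eq_sum, mul_comm f]
    exact this
  have e6 : (2 * i + 1) * K.card + 2 * K.card =
      (2 * (i + 1 - f) + 1) * K.card + 2 * (f * K.card) := by
    obtain ⟨d, rfl⟩ : ∃ d, i = f + d := ⟨i - f, by omega⟩
    rw [show f + d + 1 - f = d + 1 by omega]
    ring
  have := c.dens
  rw [← hcard, mul_add] at this
  omega

end Pool.Agent.P.MP_e76938_co
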